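import Pool.Agent.MP_28f8a1_an.H42.Defs

/-! Algebra of the quadratic differential of a cycle. -/

set_option autoImplicit false

namespace Pool.Agent.MP_28f8a1_an.H42

open MeasureTheory Metric Set Real Filter Topology Polynomial
open scoped ENNReal

namespace Cyc

variable {e : ℕ} (Y : Cyc e)

theorem Db_ne {b z : ℂ} (hz : z ∈ Y.B → z = b) : (Y.Db b).eval z ≠ 0 := by
  rw [Db, eval_prod]
  refine Finset.prod_ne_zero_iff.2 fun b' hb' => ?_
  obtain ⟨h1, h2⟩ := Finset.mem_erase.1 hb'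
  simp only [eval_sub, eval_X, eval_C, sub_ne_zero]
  rintro rfl
  exact h1 (hz h2)

theorem t1048_D {b : ℂ} (hb : b ∈ Y.B) : Y.D = (X - C b) * Y.Db b :=
  (Finset.mul_prod_erase Y.B (fun b => X - C b) hb).symm

theorem t1048_q {z : ℂ} (hz : z ∉ Y.B) : Y.q z = Y.N.eval z / Y.D.eval z ^ 2 := by
  rw [q, N, eval_finsetSum, Finset.sum_div]
  refine Finset.sum_congr rfl fun b hb => ?_
  have h1 : z - b ≠ 0 := sub_ne_zero.2 fun h => hz (h ▸ hb)
  have h2 : (Y.Db b).eval z ≠ 0 := Y.Db_ne fun h => absurd h hz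
  rw [Y.t1048_D hb]
  simp only [eval_mul, eval_sub, eval_X, eval_C, eval_add, eval_one, eval_pow]
  field_simp

theorem t1048_N {b : ℂ} (hb : b ∈ Y.B) : Y.N.eval b = (Y.Db b).eval b ^ 2 := by
  rw [N, eval_finsetSum, Finset.sum_eq_single_of_mem b hb]
  · simp
  · intro b' _ hne
    have : (Y.Db b').eval b = 0 := by
      rw [Db, eval_prod]
      exact Finset.prod_eq_zero (Finset.mem_erase.2 ⟨hne.symm, hb⟩) (by simp)
    simp [this]

theorem t1048_M {b : ℂ} (hb : b ∈ Y.B) (z : ℂ) : Y.M.eval z =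
    2 * ((Y.Db b).eval z + (z - b) * (derivative (Y.Db b)).eval z) * Y.N.eval z -
      (z - b) * (Y.Db b).eval z * (derivative Y.N).eval z := by
  rw [M, Y.t1048_D hb]
  simp [derivative_mul]

theorem t1048_Mb {b : ℂ} (hb : b ∈ Y.B) : Y.M.eval b = 2 * (Y.Db b).eval b ^ 3 := by
  rw [Y.t1048_M hb, Y.t1048_N hb]
  ring

theorem q_eq {b z : ℂ} (hb : b ∈ Y.B) (hz : z ∉ Y.B) : Y.q z = Y.U b z / (z - b) ^ 2 := by
  have h1 : z - b ≠ 0 := sub_ne_zero.2 fun h => hz (h ▸ hb)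
  rw [Y.t1048_q hz, U, Y.t1048_D hb, div_div]
  simp only [eval_mul, eval_sub, eval_X, eval_C]
  congr 1
  ring

theorem U_self {b : ℂ} (hb : b ∈ Y.B) : Y.U b b = 1 := by
  rw [U, Y.t1048_N hb, div_self (pow_ne_zero 2 (Y.Db_ne fun _ => rfl))]

theorem U_diff {b z : ℂ} (hz : z ∈ Y.B → z = b) : DifferentiableAt ℂ (Y.U b) z := by
  exact (Y.N.differentiableAt).div ((Y.Db b).differentiableAt.pow 2) (pow_ne_zero 2 (Y.Db_ne hz))

theorem q_diff {z : ℂ} (hz : z ∉ Y.B) : DifferentiableAt ℂ Y.q z := by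
  refine DifferentiableAt.fun_sum fun b hb => ?_
  have h1 : z - b ≠ 0 := sub_ne_zero.2 fun h => hz (h ▸ hb)
  have h2 : DifferentiableAt ℂ (fun z : ℂ => z - b) z := differentiableAt_id.sub_const b
  exact ((h2.pow 2).inv (pow_ne_zero 2 h1)).add ((h2.inv h1).const_mul _)

theorem measurable_q : Measurable Y.q := by
  unfold q
  fun_prop

theorem t1048_E {b : ℂ} (hb : b ∈ Y.B) {t y : ℂ} (hz : b + t * y ∈ Y.B → b + t * y = b) :
    Eu (fun v => Y.U b (b + t * v)) y =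
      -Y.M.eval (b + t * y) / (Y.Db b).eval (b + t * y) ^ 3 := by
  have h0 := Y.Db_ne hz
  have h1 : HasDerivAt (fun v : ℂ => b + t * v) t y := by
    simpa using ((hasDerivAt_id y).const_mul t).const_add b
  have h2 := ((Y.N.hasDerivAt (b + t * y)).div (((Y.Db b).hasDerivAt (b + t * y)).pow 2)
    (pow_ne_zero 2 h0)).comp y h1
  have h3 : deriv (fun v => Y.U b (b + t * v)) y = _ := h2.deriv
  rw [Eu, h3, U, Y.t1048_M hb]
  simp only [Pi.pow_apply]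
  generalize (Y.Db b).eval (b + t * y) = d at h0 ⊢
  field_simp
  ring

/-- The three equations in an affine chart at a point of the cycle. -/
theorem chart {b : ℂ} (hb : b ∈ Y.B) {t y : ℂ} (hz : b + t * y ∈ Y.B → b + t * y = b) :
    (Y.U b (b + t * y) = 0 ↔ Y.N.eval (b + t * y) = 0) ∧
    (Eu (fun v => Y.U b (b + t * v)) y = 0 ↔ Y.M.eval (b + t * y) = 0) ∧
    ∀ w : ℂ, Eu (fun v => Y.U b (b + t * v)) y ^ 2 = w * Y.U b (b + t * y) ^ 3 ↔
      (Y.M ^ 2 - C w * Y.N ^ 3).eval (b + t * y) = 0 := by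
  have h0 := Y.Db_ne hz
  have hE := Y.t1048_E hb hz
  refine ⟨?_, ?_, fun w => ?_⟩
  · rw [U, div_eq_zero_iff, or_iff_left (pow_ne_zero 2 h0)]
  · rw [hE, div_eq_zero_iff, or_iff_left (pow_ne_zero 3 h0), neg_eq_zero]
  · rw [hE, U, div_pow, div_pow, ← mul_div_assoc, ← pow_mul, ← pow_mul,
      div_left_inj' (pow_ne_zero _ h0), neg_sq]
    simp only [eval_sub, eval_pow, eval_mul, eval_C, sub_eq_zero]

theorem t1048_card {p : ℂ[X]} (hp : p ≠ 0) {T : Finset ℂ} (h : ∀ z ∈ T, p.eval z = 0) :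
    T.card ≤ p.natDegree :=
  card_le_degree_of_subset_roots fun z hz => (mem_roots hp).2 (h z hz)

theorem t1048_dD : Y.D.natDegree = Y.B.card := by
  rw [D, natDegree_prod_of_monic _ _ fun b _ => monic_X_sub_C b]
  simp

theorem t1048_dN : Y.N.natDegree + 1 ≤ 2 * Y.B.card := by
  have hP := Y.ne.card_pos
  have : Y.N.natDegree ≤ 2 * Y.B.card - 1 := by
    refine natDegree_sum_le_of_forall_le _ _ fun b hb => ?_
    have h1 : (Y.Db b).natDegree = Y.B.card - 1 := by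
      rw [Db, natDegree_prod_of_monic _ _ fun b _ => monic_X_sub_C b]
      simp [Finset.card_erase_of_mem hb]
    have h2 : (1 + C (Y.a b) * (X - C b)).natDegree ≤ 1 := by compute_degree
    have h3 := natDegree_pow_le (p := Y.Db b) (n := 2)
    have h4 := natDegree_mul_le (p := 1 + C (Y.a b) * (X - C b)) (q := Y.Db b ^ 2)
    omega
  omega

theorem t1048_dM : Y.M.natDegree + 1 ≤ 3 * Y.B.card := by
  have h1 := Y.t1048_dD
  have h2 := Y.t1048_dN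
  have h3 := natDegree_derivative_le Y.D
  have h4 := natDegree_derivative_le Y.N
  have h5 := natDegree_mul_le (p := 2 * derivative Y.D) (q := Y.N)
  have h6 := natDegree_mul_le (p := 2) (q := derivative Y.D)
  have h7 := natDegree_mul_le (p := Y.D) (q := derivative Y.N)
  have h8 := natDegree_sub_le (2 * derivative Y.D * Y.N) (Y.D * derivative Y.N)
  have h9 : (2 : ℂ[X]).natDegree = 0 := natDegree_ofNat 2
  rw [M]
  omega

theorem t1048_N0 : Y.N ≠ 0 := by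
  obtain ⟨b, hb⟩ := Y.ne
  intro h
  have := Y.t1048_N hb
  rw [h, eval_zero] at this
  exact pow_ne_zero 2 (Y.Db_ne fun _ => rfl) this.symm

theorem t1048_M0 : Y.M ≠ 0 := by
  obtain ⟨b, hb⟩ := Y.ne
  intro h
  have := Y.t1048_Mb hb
  rw [h, eval_zero] at this
  exact mul_ne_zero two_ne_zero (pow_ne_zero 3 (Y.Db_ne fun _ => rfl)) this.symm

theorem t1048_W0 {w : ℂ} (hw : w ≠ 4) : Y.M ^ 2 - C w * Y.N ^ 3 ≠ 0 := by
  obtain ⟨b, hb⟩ := Y.ne
  intro h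
  have h1 := congrArg (eval b) h
  simp only [eval_sub, eval_pow, eval_mul, eval_C, eval_zero, Y.t1048_Mb hb, Y.t1048_N hb] at h1
  refine mul_ne_zero (sub_ne_zero.2 hw.symm) (pow_ne_zero 6 (Y.Db_ne (b := b) fun _ => rfl)) ?_
  linear_combination h1

theorem N_card {T : Finset ℂ} (h : ∀ z ∈ T, Y.N.eval z = 0) : T.card < 2 * Y.B.card := by
  have h1 := t1048_card Y.t1048_N0 h
  have h2 := Y.t1048_dN
  omega

theorem W_card {w : ℂ} (hw : w ≠ 4) {T : Finset ℂ}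
    (h : ∀ z ∈ T, (Y.M ^ 2 - C w * Y.N ^ 3).eval z = 0) : T.card < 6 * Y.B.card := by
  have h1 := t1048_card (Y.t1048_W0 hw) h
  have h2 := Y.t1048_dN
  have h3 := Y.t1048_dM
  have h4 := natDegree_pow_le (p := Y.M) (n := 2)
  have h5 := natDegree_pow_le (p := Y.N) (n := 3)
  have h6 := natDegree_C_mul_le w (Y.N ^ 3)
  have h7 := natDegree_sub_le (Y.M ^ 2) (C w * Y.N ^ 3)
  omega

/-- The special points. -/
theorem special : ∃ Z : Finset ℂ, Z.card ≤ 12 * Y.B.card ∧ ∀ z, z ∈ Z ↔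
    (z ∈ Y.B ∨ Y.N.eval z = 0 ∨ Y.M.eval z = 0 ∨ (Y.M ^ 2 - C 1 * Y.N ^ 3).eval z = 0) := by
  have hw : (1 : ℂ) ≠ 4 := by norm_num
  refine ⟨Y.B ∪ (Y.N.roots.toFinset ∪ (Y.M.roots.toFinset ∪
    (Y.M ^ 2 - C 1 * Y.N ^ 3).roots.toFinset)), ?_, fun z => ?_⟩
  · have h1 := Y.N_card (T := Y.N.roots.toFinset) fun z hz =>
      (mem_roots Y.t1048_N0).1 (Multiset.mem_toFinset.1 hz)
    have h2 := t1048_card Y.t1048_M0 (T := Y.M.roots.toFinset) fun z hz =>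
      (mem_roots Y.t1048_M0).1 (Multiset.mem_toFinset.1 hz)
    have h3 := Y.W_card hw (T := (Y.M ^ 2 - C 1 * Y.N ^ 3).roots.toFinset) fun z hz =>
      (mem_roots (Y.t1048_W0 hw)).1 (Multiset.mem_toFinset.1 hz)
    have h4 := Y.t1048_dM
    refine (Finset.card_union_le _ _).trans ((Nat.add_le_add_left ((Finset.card_union_le _ _).trans
      (Nat.add_le_add_left (Finset.card_union_le _ _) _)) _).trans ?_)
    omega
  · simp only [Finset.mem_union, Multiset.mem_toFinset, mem_roots Y.t1048_N0, mem_roots Y.t1048_M0,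
      mem_roots (Y.t1048_W0 hw), IsRoot.def]

/-- Push-forward of a double pole. -/
theorem t1050_pole2 (he : 1 ≤ e) {c p y : ℂ} (hp : p ≠ 0) (hy : y ≠ c) (hyp : y ≠ fq e c p) :
    Tr e c (fun z => ((z - p) ^ 2)⁻¹) y = ((y - fq e c p) ^ 2)⁻¹ -
      e / (p * lam e p) * ((y - fq e c p)⁻¹ - (y - c)⁻¹) := by
  have hd : ((e + 1 : ℕ) : ℂ) ≠ 0 := Nat.cast_ne_zero.mpr (Nat.succ_ne_zero e)
  have hl : ((e + 1 : ℕ) : ℂ) * p ^ e ≠ 0 := mul_ne_zero hd (pow_ne_zero _ hp)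
  have hyp' : y - fq e c p ≠ 0 := sub_ne_zero.mpr hyp
  have h1 : HasDerivAt (fun v => Tr e c (fun z => (z - v)⁻¹) y)
      (Tr e c (fun z => ((z - p) ^ 2)⁻¹) y) p := by
    unfold Tr tm
    refine HasDerivAt.fun_sum fun k _ => HasDerivAt.div_const ?_ _
    have hk : rt e c k y - p ≠ 0 := sub_ne_zero.mpr fun h => hyp (by rw [← h, fq_rt k hy])
    refine (((hasDerivAt_id p).const_sub (rt e c k y)).fun_inv hk).congr_deriv ?_
    simp
  have h2 : HasDerivAt (fun v => (((e + 1 : ℕ) : ℂ) * v ^ e)⁻¹ * ((y - fq e c v)⁻¹ - (y - c)⁻¹))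
      (((y - fq e c p) ^ 2)⁻¹ - e / (p * lam e p) * ((y - fq e c p)⁻¹ - (y - c)⁻¹)) p := by
    have h3 := ((hasDerivAt_pow e p).const_mul ((e + 1 : ℕ) : ℂ)).fun_inv hl
    have h4 := ((((fq_deriv (e := e) (c := c) p).const_sub y).fun_inv hyp').sub_const (y - c)⁻¹)
    refine (h3.fun_mul h4).congr_deriv ?_
    obtain ⟨m, rfl⟩ := Nat.exists_eq_add_of_le' he
    rw [lam, Nat.add_sub_cancel]
    generalize (y - c)⁻¹ = w
    field_simp
    ring
  refine (h1.congr_of_eventuallyEq ?_).unique h2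
  have h5 : ∀ᶠ v in 𝓝 p, v ≠ 0 := eventually_ne_nhds hp
  have h6 : ∀ᶠ v in 𝓝 p, fq e c v ≠ y :=
    (fq_diff (e := e) (c := c)).continuous.continuousAt.eventually_ne hyp.symm
  filter_upwards [h5, h6] with v h7 h8
  exact (Tr_pole he h7 hy h8.symm).symm

theorem t1050_sum (g : ℂ → ℂ) : ∑ b ∈ Y.B, g (fq e Y.c b) = ∑ b ∈ Y.B, g b := by
  refine Finset.sum_bij (fun b _ => fq e Y.c b) Y.maps (fun b hb b' hb' => Y.inj b hb b' hb') ?_
    fun _ _ => rfl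
  intro b hb
  obtain ⟨p, h0, h1, h2, -⟩ := Y.orb b hb
  exact ⟨p 1, h1 1, (h2 0).trans h0⟩

theorem t1050_mem {b : ℂ} (hb : b ∈ Y.B) (k : ℕ) : (fq e Y.c)^[k] b ∈ Y.B := by
  induction k with
  | zero => exact hb
  | succ k ih =>
    rw [Function.iterate_succ_apply']
    exact Y.maps _ ih

theorem q_id (he : 1 ≤ e) {y : ℂ} (hy : y ∉ Y.B) (hc : y ≠ Y.c) :
    Y.q y = Tr e Y.c Y.q y + Y.S * (y - Y.c)⁻¹ := by
  have h1 : Tr e Y.c Y.q y = ∑ b ∈ Y.B, (Tr e Y.c (fun z => ((z - b) ^ 2)⁻¹) y +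
      Y.a b * Tr e Y.c (fun z => (z - b)⁻¹) y) := by
    simp only [Tr, tm, q, Finset.sum_div, Finset.mul_sum, add_div, mul_div_assoc,
      ← Finset.sum_add_distrib]
    exact Finset.sum_comm
  have h2 : ∀ b ∈ Y.B, Tr e Y.c (fun z => ((z - b) ^ 2)⁻¹) y +
      Y.a b * Tr e Y.c (fun z => (z - b)⁻¹) y =
      (fun v => ((y - v) ^ 2)⁻¹ + Y.a v * (y - v)⁻¹ - Y.a v * (y - Y.c)⁻¹) (fq e Y.c b) := by
    intro b hb
    have h3 : y ≠ fq e Y.c b := fun h => hy (h ▸ Y.maps b hb)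
    rw [t1050_pole2 he (Y.ne0 b hb) hc h3, Tr_pole he (Y.ne0 b hb) hc h3]
    simp only [Y.rc b hb]
    rw [← lam]
    ring
  rw [h1, (Finset.sum_congr rfl h2).trans (Y.t1050_sum
    fun v => ((y - v) ^ 2)⁻¹ + Y.a v * (y - v)⁻¹ - Y.a v * (y - Y.c)⁻¹), Finset.sum_sub_distrib,
    ← Finset.sum_mul, q, S]
  ring

theorem bounds (he : 1 ≤ e) (h : ‖Y.ρ‖ < 2) : ‖Y.c‖ ≤ 6 ∧ ∀ b ∈ Y.B, ‖b‖ ≤ 3 := by
  obtain ⟨b₀, hb₀, hM⟩ := Y.B.exists_max_image (fun b => ‖b‖) Y.ne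
  have h1 : ∃ b ∈ Y.B, ‖b‖ < 1 := by
    by_contra hn
    push Not at hn
    have h2 : ∀ k, (2 : ℝ) ^ k ≤ ‖Pd e Y.c b₀ k‖ := by
      intro k
      induction k with
      | zero => simp [Pd_zero]
      | succ k ih =>
        rw [Pd_succ', norm_mul, norm_mul, norm_pow, Complex.norm_natCast, pow_succ']
        have h3 : (1 : ℝ) ≤ ‖(fq e Y.c)^[k] b₀‖ ^ e := one_le_pow₀ (hn _ (Y.t1050_mem hb₀ k))
        have h4 : (2 : ℝ) ≤ ((e + 1 : ℕ) : ℝ) := by exact_mod_cast Nat.succ_le_succ he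
        refine mul_le_mul ?_ ih (by positivity) (by positivity)
        nlinarith
    have h5 := h2 Y.B.card
    rw [Y.mult b₀ hb₀] at h5
    have h6 : (2 : ℝ) ^ 1 ≤ 2 ^ Y.B.card := pow_le_pow_right₀ one_le_two Y.ne.card_pos
    linarith
  obtain ⟨b, hb, hb1⟩ := h1
  have h2 : ‖Y.c‖ ≤ ‖b₀‖ + 1 := by
    have h3 := hM _ (Y.maps b hb)
    have h4 : ‖b ^ (e + 1)‖ ≤ 1 := by
      rw [norm_pow]
      exact pow_le_one₀ (norm_nonneg _) hb1.le
    have h5 : ‖Y.c‖ ≤ ‖fq e Y.c b‖ + ‖b ^ (e + 1)‖ := by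
      refine le_trans (le_of_eq ?_) (norm_sub_le _ _)
      rw [fq, add_sub_cancel_left]
    linarith
  have h3 : ‖b₀‖ ≤ 3 := by
    by_contra hn
    push Not at hn
    have h4 := hM _ (Y.maps b₀ hb₀)
    have h5 : ‖b₀ ^ (e + 1)‖ ≤ ‖fq e Y.c b₀‖ + ‖Y.c‖ := by
      refine le_trans (le_of_eq ?_) (norm_sub_le _ _)
      rw [fq, add_sub_cancel_right]
    have h6 : ‖b₀‖ ^ 2 ≤ ‖b₀‖ ^ (e + 1) := pow_le_pow_right₀ (by linarith) (by omega)
    rw [norm_pow] at h5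
    nlinarith
  exact ⟨by linarith, fun v hv => (hM v hv).trans h3⟩

theorem rho_ne : Y.ρ ≠ 0 := by
  obtain ⟨b, hb⟩ := Y.ne
  have h : ∀ k, Pd e Y.c b k ≠ 0 := by
    intro k
    induction k with
    | zero => simp [Pd_zero]
    | succ k ih =>
      rw [Pd_succ']
      exact mul_ne_zero (mul_ne_zero (Nat.cast_ne_zero.mpr (Nat.succ_ne_zero e))
        (pow_ne_zero _ (Y.ne0 _ (Y.t1050_mem hb k)))) ih
  exact Y.mult b hb ▸ h _

theorem iter_mem {b : ℂ} (hb : b ∈ Y.B) (k : ℕ) : (fq e Y.c)^[k] b ∈ Y.B :=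
  Y.t1050_mem hb k

theorem iter_inj {b b' : ℂ} (hb : b ∈ Y.B) (hb' : b' ∈ Y.B) (k : ℕ)
    (h : (fq e Y.c)^[k] b = (fq e Y.c)^[k] b') : b = b' := by
  induction k with
  | zero => exact h
  | succ k ih =>
    rw [Function.iterate_succ_apply', Function.iterate_succ_apply'] at h
    exact ih (Y.inj _ (Y.iter_mem hb k) _ (Y.iter_mem hb' k) h)

/-- The case of a fixed point. -/
theorem card_one (he : 1 ≤ e) (h1 : Y.B.card = 1) (h : ‖Y.ρ‖ < 2) (h' : Y.ρ ≠ 1) :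
    1 / 3 ≤ ‖Y.S‖ := by
  obtain ⟨b, hB⟩ := Finset.card_eq_one.mp h1
  have hb : b ∈ Y.B := hB ▸ Finset.mem_singleton_self b
  have hf : fq e Y.c b = b := by
    have := Y.fix b hb
    rwa [h1] at this
  have hρ : lam e b = Y.ρ := by
    have := Y.mult b hb
    rwa [h1, Pd_one] at this
  have hS : Y.S = Y.a b := by rw [S, hB, Finset.sum_singleton]
  have hr := Y.rc b hb
  rw [hf, hρ] at hr
  have h0 := Y.ne0 b hb
  have h2 := Y.rho_ne
  have h3 : Y.a b * b * (1 - Y.ρ) = e := by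
    field_simp at hr
    linear_combination -hr
  have h4 : ‖Y.a b‖ * ‖b‖ * ‖1 - Y.ρ‖ = e := by
    rw [← norm_mul, ← norm_mul, h3, Complex.norm_natCast]
  have h5 : ‖1 - Y.ρ‖ ≤ 3 := by
    have := norm_sub_le 1 Y.ρ
    rw [norm_one] at this
    linarith
  have h6 : ‖b‖ ≤ 1 := by
    by_contra hn
    push Not at hn
    rw [← hρ, lam, norm_mul, norm_pow, Complex.norm_natCast] at h
    have h7 : (1 : ℝ) ≤ ‖b‖ ^ e := one_le_pow₀ hn.le
    have h8 : (2 : ℝ) ≤ ((e + 1 : ℕ) : ℝ) := by exact_mod_cast Nat.succ_le_succ he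
    nlinarith
  have h7 : (1 : ℝ) ≤ e := by exact_mod_cast he
  have h8 : ‖Y.a b‖ * ‖b‖ * ‖1 - Y.ρ‖ ≤ ‖Y.a b‖ * 1 * 3 := by gcongr
  rw [hS]
  linarith

end Cyc

/-- A large disc is backward invariant. -/
theorem back_ball {e : ℕ} (he : 1 ≤ e) {c : ℂ} (hc : ‖c‖ ≤ 6) {R : ℝ} (hR : 7 ≤ R) (k : ℕ) {z : ℂ}
    (hz : ‖(fq e c)^[k] z‖ < R) : ‖z‖ < R := by
  induction k with
  | zero => exact hz
  | succ k ih =>
    refine ih ?_
    rw [Function.iterate_succ_apply'] at hz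
    generalize (fq e c)^[k] z = w at hz
    by_contra hn
    push Not at hn
    have h5 : ‖w ^ (e + 1)‖ ≤ ‖fq e c w‖ + ‖c‖ := by
      refine le_trans (le_of_eq ?_) (norm_sub_le _ _)
      rw [fq, add_sub_cancel_right]
    have h6 : ‖w‖ ^ 2 ≤ ‖w‖ ^ (e + 1) := pow_le_pow_right₀ (by linarith) (by omega)
    rw [norm_pow] at h5
    nlinarith

/-- One more inverse branch. -/
theorem br_succ {e : ℕ} {c : ℂ} {k : ℕ} {h : ℂ → ℂ} {x : ℂ} {R : ℝ} (hR : 0 < R)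
    (hb : Br e c k h (ball x R)) (hc : ∀ z ∈ ball x R, h z ≠ c) {p : ℂ} (hp : fq e c p = h x) :
    ∃ h', Br e c (k + 1) h' (ball x R) ∧ h' x = p := by
  obtain ⟨L, hL, hE⟩ := exists_log (hb.diff.sub_const c) fun z hz => sub_ne_zero.mpr (hc z hz)
  have hd : ((e + 1 : ℕ) : ℂ) ≠ 0 := Nat.cast_ne_zero.mpr (Nat.succ_ne_zero e)
  refine ⟨fun z => p * Complex.exp ((L z - L x) / (e + 1 : ℕ)),
    ⟨(((hL.sub_const _).div_const _).cexp).const_mul p, fun z hz => ?_⟩, by simp⟩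
  have h1 : p ^ (e + 1) = Complex.exp (L x) := by
    rw [hE x (mem_ball_self hR), ← hp, fq, add_sub_cancel_right]
  have h2 : fq e c (p * Complex.exp ((L z - L x) / (e + 1 : ℕ))) = h z := by
    rw [fq, mul_pow, ← Complex.exp_nat_mul, mul_div_cancel₀ _ hd, h1, ← Complex.exp_add,
      add_sub_cancel, hE z hz, sub_add_cancel]
  rw [Function.iterate_succ_apply, h2, hb.inv z hz]

end Pool.Agent.MP_28f8a1_an.H42

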