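import Pool.Agent.MP_28f8a1_an.H42.Quad

/-! Moving the parameter along a prescribed path of multipliers. -/

set_option autoImplicit false

namespace Pool.Agent.MP_28f8a1_an.H42

open MeasureTheory Metric Set Real Filter Topology Polynomial
open scoped ENNReal

variable {e : ℕ}

theorem t1055_smooth (k : ℕ) : ContDiff ℂ 1 (fun p : ℂ × ℂ => (fq e p.1)^[k] p.2) := by
  induction k with
  | zero => simpa using contDiff_snd
  | succ k ih =>
    simp only [Function.iterate_succ_apply']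
    exact (ih.pow (e + 1)).add contDiff_fst

/-- The periodic point follows the parameter. -/
theorem t1055_follow {c z : ℂ} {n : ℕ} (hz : (fq e c)^[n] z = z) (h1 : Pd e c z n ≠ 1) :
    ∃ (ψ : ℂ → ℂ) (d : ℂ), ψ c = z ∧ HasStrictDerivAt ψ d c ∧
      ∀ᶠ c' in 𝓝 c, (fq e c')^[n] (ψ c') = ψ c' := by
  have hF : ContDiffAt ℂ 1 (fun p : ℂ × ℂ => (fq e p.1)^[n] p.2 - p.2) (c, z) :=
    ((t1055_smooth n).sub contDiff_snd).contDiffAt
  have hA := (hF.differentiableAt one_ne_zero).hasFDerivAt.comp z (hasFDerivAt_prodMk_right c z)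
  have hB := ((iter_deriv (e := e) (c := c) n z).sub (hasDerivAt_id z)).hasFDerivAt_equiv
    (sub_ne_zero.2 h1)
  have hinv : (fderiv ℂ (fun p : ℂ × ℂ => (fq e p.1)^[n] p.2 - p.2) (c, z) ∘L
      ContinuousLinearMap.inr ℂ ℂ ℂ).IsInvertible := ⟨_, hB.unique hA⟩
  refine ⟨hF.implicitFunction one_ne_zero hinv, _, hF.implicitFunction_apply_self one_ne_zero hinv,
    (hF.contDiffAt_implicitFunction one_ne_zero hinv).hasStrictDerivAt one_ne_zero, ?_⟩
  filter_upwards [hF.eventually_apply_implicitFunction one_ne_zero hinv] with c' h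
  simp only [hz, sub_self] at h
  exact sub_eq_zero.1 h

/-- The speeds of the points of the orbit. -/
noncomputable def t1055_sp (e : ℕ) (c z d : ℂ) : ℕ → ℂ
  | 0 => d
  | k + 1 => lam e ((fq e c)^[k] z) * t1055_sp e c z d k + 1

/-- The residues along the orbit. -/
noncomputable def t1055_rs (e : ℕ) (c z t : ℂ) : ℕ → ℂ
  | 0 => t
  | k + 1 => t1055_rs e c z t k / lam e ((fq e c)^[k] z) -
      e / ((fq e c)^[k] z * lam e ((fq e c)^[k] z))

theorem t1055_orbit_deriv {c d : ℂ} {ψ : ℂ → ℂ} (hψ : HasStrictDerivAt ψ d c) (k : ℕ) :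
    HasStrictDerivAt (fun c' => (fq e c')^[k] (ψ c')) (t1055_sp e c (ψ c) d k) c := by
  induction k with
  | zero => exact hψ
  | succ k ih =>
    simp only [Function.iterate_succ_apply']
    have h := (ih.fun_pow (e + 1)).fun_add (hasStrictDerivAt_id c)
    simp only [Nat.add_sub_cancel] at h
    exact h

theorem t1055_mult_deriv (he : 1 ≤ e) {c d : ℂ} {ψ : ℂ → ℂ} (hψ : HasStrictDerivAt ψ d c) (k : ℕ)
    (h0 : ∀ j < k, (fq e c)^[j] (ψ c) ≠ 0) :
    HasStrictDerivAt (fun c' => Pd e c' (ψ c') k) (Pd e c (ψ c) k *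
      ∑ j ∈ Finset.range k, e * t1055_sp e c (ψ c) d j / (fq e c)^[j] (ψ c)) c := by
  induction k with
  | zero => simpa [Pd_zero] using hasStrictDerivAt_const c (1 : ℂ)
  | succ k ih =>
    simp only [Pd_succ']
    have h := (((t1055_orbit_deriv (e := e) hψ k).fun_pow e).const_mul ((e + 1 : ℕ) : ℂ)).fun_mul
      (ih fun j hj => h0 j (by omega))
    refine h.congr_deriv ?_
    have hk := h0 k (by omega)
    obtain ⟨e', rfl⟩ : ∃ e', e = e' + 1 := ⟨e - 1, by omega⟩
    rw [Finset.sum_range_succ, Nat.add_sub_cancel]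
    field_simp
    ring

theorem t1055_ne0 (he : 1 ≤ e) {c z : ℂ} {n : ℕ} (h0 : Pd e c z n ≠ 0) {k : ℕ} (hk : k < n) :
    (fq e c)^[k] z ≠ 0 ∧ Pd e c z k ≠ 0 := by
  obtain ⟨m, rfl⟩ : ∃ m, n = m + (k + 1) := ⟨n - (k + 1), by omega⟩
  rw [Pd_add, Pd_succ'] at h0
  have h1 := right_ne_zero_of_mul h0
  refine ⟨fun h => ?_, right_ne_zero_of_mul h1⟩
  rw [h, zero_pow (by omega), mul_zero, zero_mul] at h1
  exact h1 rfl

theorem t1055_lam_ne {z : ℂ} (hz : z ≠ 0) : lam e z ≠ 0 :=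
  mul_ne_zero (Nat.cast_ne_zero.2 (by omega)) (pow_ne_zero _ hz)

theorem t1055_rs_lin {c z : ℂ} (t : ℂ) (k : ℕ) :
    t1055_rs e c z t k = t / Pd e c z k + t1055_rs e c z 0 k := by
  induction k with
  | zero => simp [t1055_rs, Pd_zero]
  | succ k ih =>
    rw [t1055_rs, t1055_rs, ih, Pd_succ', add_div, div_div, lam]
    ring

theorem t1055_tele {c z t d : ℂ} (k : ℕ) (h0 : ∀ j < k, (fq e c)^[j] z ≠ 0) :
    t1055_rs e c z t k * t1055_sp e c z d k - t * d =
      ∑ j ∈ Finset.range k, t1055_rs e c z t j + t1055_rs e c z t k - t -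
        ∑ j ∈ Finset.range k, e * t1055_sp e c z d j / (fq e c)^[j] z := by
  induction k with
  | zero => simp [t1055_rs, t1055_sp]
  | succ k ih =>
    have ih' := ih fun j hj => h0 j (by omega)
    have hk := h0 k (by omega)
    have hl := t1055_lam_ne (e := e) hk
    have h1 : t1055_rs e c z t (k + 1) * t1055_sp e c z d (k + 1) =
        t1055_rs e c z t k * t1055_sp e c z d k - e * t1055_sp e c z d k / (fq e c)^[k] z +
          t1055_rs e c z t (k + 1) := by
      rw [t1055_rs, t1055_sp]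
      field_simp
    rw [Finset.sum_range_succ, Finset.sum_range_succ, h1]
    linear_combination ih'

/-- The cycle of a periodic point. -/
theorem t1055_cyc (he : 1 ≤ e) {c z : ℂ} {n : ℕ} (hn : 0 < n)
    (hper : Function.minimalPeriod (fq e c) z = n) (h0 : Pd e c z n ≠ 0) (h1 : Pd e c z n ≠ 1) :
    ∃ (Y : Cyc e) (t : ℂ), Y.ρ = Pd e c z n ∧ t1055_rs e c z t n = t ∧
      Y.S = ∑ j ∈ Finset.range n, t1055_rs e c z t j := by
  classical
  have hz : (fq e c)^[n] z = z := hper ▸ Function.iterate_minimalPeriod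
  have hinj : ∀ i < n, ∀ j < n, (fq e c)^[i] z = (fq e c)^[j] z → i = j := fun i hi j hj h =>
    Function.iterate_injOn_Iio_minimalPeriod (f := fq e c) (x := z) (by rw [hper]; exact hi)
      (by rw [hper]; exact hj) h
  obtain ⟨t, ht⟩ : ∃ t, t1055_rs e c z t n = t := by
    refine ⟨t1055_rs e c z 0 n * Pd e c z n / (Pd e c z n - 1), ?_⟩
    have := sub_ne_zero.2 h1
    rw [t1055_rs_lin]
    field_simp
    ring
  set B := (Finset.range n).image (fun k => (fq e c)^[k] z) with hB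
  have hmem : ∀ k, (fq e c)^[k] z ∈ B := fun k => Finset.mem_image.2
    ⟨k % n, Finset.mem_range.2 (Nat.mod_lt _ hn), hper ▸ Function.iterate_mod_minimalPeriod_eq⟩
  have hrep : ∀ b ∈ B, ∃ k < n, (fq e c)^[k] z = b := fun b hb => by
    obtain ⟨k, hk, h⟩ := Finset.mem_image.1 hb
    exact ⟨k, Finset.mem_range.1 hk, h⟩
  have hinj' : Set.InjOn (fun k => (fq e c)^[k] z) (Finset.range n : Set ℕ) := fun i hi j hj h =>
    hinj i (by simpa using hi) j (by simpa using hj) h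
  have hcard : B.card = n := by rw [hB, Finset.card_image_of_injOn hinj', Finset.card_range]
  have hfix : ∀ b ∈ B, (fq e c)^[n] b = b := fun b hb => by
    obtain ⟨k, -, rfl⟩ := hrep b hb
    rw [← Function.iterate_add_apply, add_comm, Function.iterate_add_apply, hz]
  set a : ℂ → ℂ := fun b => ∑ k ∈ Finset.range n,
    if (fq e c)^[k] z = b then t1055_rs e c z t k else 0 with ha
  have haz : ∀ k < n, a ((fq e c)^[k] z) = t1055_rs e c z t k := fun k hk => by
    rw [ha]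
    dsimp only
    rw [Finset.sum_eq_single_of_mem k (Finset.mem_range.2 hk), if_pos rfl]
    intro j hj hjk
    exact if_neg fun h => hjk (hinj j (Finset.mem_range.1 hj) k hk h)
  have haz' : ∀ k < n, a ((fq e c)^[k + 1] z) = t1055_rs e c z t (k + 1) := fun k hk => by
    rcases (Nat.succ_le_of_lt hk).lt_or_eq with h | h
    · exact haz _ h
    · have h' : k + 1 = n := h
      rw [h', hz, ht]
      exact haz 0 hn
  refine ⟨⟨c, B, a, Pd e c z n, ⟨_, hmem 0⟩, ?_, ?_, ?_, ?_, ?_, ?_, ?_⟩, t, rfl, ht, ?_⟩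
  · intro b hb
    obtain ⟨k, -, rfl⟩ := hrep b hb
    rw [← Function.iterate_succ_apply' (fq e c)]
    exact hmem _
  · intro b hb b' hb' h
    obtain ⟨m, hm⟩ : ∃ m, n = m + 1 := ⟨n - 1, by omega⟩
    rw [← hfix b hb, ← hfix b' hb', hm, Function.iterate_succ_apply, Function.iterate_succ_apply, h]
  · intro b hb
    obtain ⟨k, hk, rfl⟩ := hrep b hb
    exact (t1055_ne0 he h0 hk).1
  · intro b hb
    obtain ⟨k, hk, rfl⟩ := hrep b hb
    rw [← Function.iterate_succ_apply' (fq e c), haz k hk]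
    exact haz' k hk
  · rw [hcard]
    exact hfix
  · intro b hb
    obtain ⟨k, hk, rfl⟩ := hrep b hb
    have h2 := Pd_add (e := e) (c := c) z n k
    rw [add_comm, Pd_add, hz, mul_comm] at h2
    rw [hcard]
    exact (mul_right_cancel₀ (t1055_ne0 he h0 hk).2 h2).symm
  · intro b hb
    have hb' := hfix b hb
    obtain ⟨k, -, hk⟩ := hrep b hb
    have hmp : Function.minimalPeriod (fq e c) b = n := by
      rw [← hk, Function.minimalPeriod_apply_iterate (Function.mk_mem_periodicPts hn hz), hper]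
    obtain ⟨m, hm⟩ : ∃ m, n = m + 1 := ⟨n - 1, by omega⟩
    have hback : ∀ i, (fq e c)^[i] ((fq e c)^[m * i] b) = b := fun i => by
      rw [← Function.iterate_add_apply, show i + m * i = n * i by rw [hm]; ring,
        Function.iterate_mul]
      exact Function.iterate_fixed hb' i
    have hlt : ∀ i j, i < j → j < n → (fq e c)^[m * i] b ≠ (fq e c)^[m * j] b := by
      intro i j hij hj h
      have h2 := hback j
      obtain ⟨r, rfl⟩ : ∃ r, j = r + i := ⟨j - i, by omega⟩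
      rw [← h, Function.iterate_add_apply, hback] at h2
      have h3 := Function.IsPeriodicPt.minimalPeriod_le (f := fq e c) (x := b) (n := r)
        (by omega) h2
      omega
    refine ⟨fun i => (fq e c)^[m * i] b, by simp, fun i => ?_, fun i => ?_, ?_⟩
    · have h2 := hmem (m * i + k)
      rwa [Function.iterate_add_apply, hk] at h2
    · rw [← Function.iterate_succ_apply' (fq e c),
        show (m * (i + 1)).succ = m * i + n by rw [hm, Nat.succ_eq_add_one]; ring,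
        Function.iterate_add_apply, hb']
    · rw [hcard]
      intro i hi j hj h
      rcases lt_trichotomy i j with h' | h' | h'
      · exact absurd h (hlt i j h' hj)
      · exact h'
      · exact absurd h.symm (hlt j i h' hi)
  · change ∑ b ∈ B, a b = _
    rw [hB, Finset.sum_image hinj']
    exact Finset.sum_congr rfl fun k hk => haz k (Finset.mem_range.1 hk)

/-- The multiplier can be moved a little, at bounded speed. -/
theorem local_move (he : 1 ≤ e) {c z : ℂ} {n : ℕ} (hn : 0 < n)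
    (hper : Function.minimalPeriod (fq e c) z = n) (h0 : Pd e c z n ≠ 0) (h1 : Pd e c z n ≠ 1)
    {κ : ℝ} (hκ : 0 < κ) (hS : ∀ Y : Cyc e, Y.ρ = Pd e c z n → κ ≤ ‖Y.S‖) :
    ∀ᶠ ρ' in 𝓝 (Pd e c z n), ∃ c' z' : ℂ, Function.minimalPeriod (fq e c') z' = n ∧
      Pd e c' z' n = ρ' ∧ ‖c' - c‖ ≤ 2 / (κ * ‖Pd e c z n‖) * ‖ρ' - Pd e c z n‖ := by
  have hz : (fq e c)^[n] z = z := hper ▸ Function.iterate_minimalPeriod
  obtain ⟨ψ, d, rfl, hψ, hfix⟩ := t1055_follow hz h1
  obtain ⟨Y, t, hY, ht, hYS⟩ := t1055_cyc he hn hper h0 h1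
  have hne : ∀ j < n, (fq e c)^[j] (ψ c) ≠ 0 := fun j hj => (t1055_ne0 he h0 hj).1
  have hd : t1055_sp e c (ψ c) d n = d :=
    ((t1055_orbit_deriv hψ n).hasDerivAt.congr_of_eventuallyEq
      (hfix.mono fun _ h => h.symm)).unique hψ.hasDerivAt
  have htel := t1055_tele (e := e) (c := c) (z := ψ c) (t := t) (d := d) n hne
  rw [ht, hd, ← hYS] at htel
  have hμ := t1055_mult_deriv he hψ n hne
  rw [show ∑ j ∈ Finset.range n, e * t1055_sp e c (ψ c) d j / (fq e c)^[j] (ψ c) = Y.S by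
    linear_combination htel] at hμ
  have hκS := hS Y hY
  have hρ : 0 < ‖Pd e c (ψ c) n‖ := norm_pos_iff.2 h0
  have hμ0 : Pd e c (ψ c) n * Y.S ≠ 0 := mul_ne_zero h0 (norm_pos_iff.1 (hκ.trans_le hκS))
  have hg := hμ.to_localInverse hμ0
  have hgc := (hμ.eventually_left_inverse hμ0).self_of_nhds
  have hgr := hμ.eventually_right_inverse hμ0
  generalize hμ.localInverse _ _ _ hμ0 = g at hg hgc hgr
  have hgt : Tendsto g (𝓝 (Pd e c (ψ c) n)) (𝓝 c) := by
    have h := hg.hasDerivAt.continuousAt.tendsto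
    rwa [hgc] at h
  have hsep : ∀ᶠ c' in 𝓝 c, ∀ k ∈ Finset.Ioo 0 n, (fq e c')^[k] (ψ c') ≠ ψ c' := by
    refine (Finset.eventually_all _).2 fun k hk => ?_
    obtain ⟨hk0, hkn⟩ := Finset.mem_Ioo.1 hk
    have h2 : (fq e c)^[k] (ψ c) - ψ c ≠ 0 := fun h => by
      have h3 := Function.IsPeriodicPt.minimalPeriod_le (f := fq e c) (x := ψ c) hk0
        (sub_eq_zero.1 h)
      omega
    have h4 := ((t1055_orbit_deriv (e := e) hψ k).fun_sub hψ).hasDerivAt.continuousAt
    exact (h4.eventually_ne h2).mono fun _ h => sub_ne_zero.1 h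
  have hε : 0 < 1 / (κ * ‖Pd e c (ψ c) n‖) := by positivity
  filter_upwards [hgr, hgt.eventually hfix, hgt.eventually hsep,
    hg.hasDerivAt.isLittleO.def hε] with ρ' h2 h3 h4 h5
  refine ⟨g ρ', ψ (g ρ'), ?_, h2, ?_⟩
  · have h6 : Function.IsPeriodicPt (fq e (g ρ')) n (ψ (g ρ')) := h3
    by_contra h7
    exact h4 _ (Finset.mem_Ioo.2 ⟨h6.minimalPeriod_pos hn,
      lt_of_le_of_ne (h6.minimalPeriod_le hn) h7⟩) Function.iterate_minimalPeriod
  · rw [hgc] at h5
    have h6 : ‖(Pd e c (ψ c) n * Y.S)⁻¹‖ ≤ 1 / (κ * ‖Pd e c (ψ c) n‖) := by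
      rw [norm_inv, norm_mul, one_div, mul_comm]
      exact inv_anti₀ (by positivity) (mul_le_mul_of_nonneg_right hκS hρ.le)
    have h7 : ‖(ρ' - Pd e c (ψ c) n) • (Pd e c (ψ c) n * Y.S)⁻¹‖ ≤
        1 / (κ * ‖Pd e c (ψ c) n‖) * ‖ρ' - Pd e c (ψ c) n‖ := by
      rw [norm_smul, mul_comm]
      exact mul_le_mul_of_nonneg_right h6 (norm_nonneg _)
    have h8 := norm_le_norm_sub_add (g ρ' - c) ((ρ' - Pd e c (ψ c) n) • (Pd e c (ψ c) n * Y.S)⁻¹)
    rw [show 2 / (κ * ‖Pd e c (ψ c) n‖) = 2 * (1 / (κ * ‖Pd e c (ψ c) n‖)) by ring]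
    linarith

theorem t57_esc (he : 1 ≤ e) {c w : ℂ} (hw : ‖c‖ + 2 ≤ ‖w‖) : ‖w‖ + 2 ≤ ‖fq e c w‖ := by
  have h0 := norm_nonneg c
  have h1 : ‖w‖ ^ 2 ≤ ‖w‖ ^ (e + 1) := pow_le_pow_right₀ (by linarith) (by omega)
  have h2 : ‖w ^ (e + 1)‖ ≤ ‖fq e c w‖ + ‖c‖ := by
    have := norm_sub_le (fq e c w) c
    rwa [fq, add_sub_cancel_right] at this
  rw [norm_pow] at h2
  nlinarith

theorem t57_esc' (he : 1 ≤ e) {c w : ℂ} (hw : ‖c‖ + 2 ≤ ‖w‖) (k : ℕ) :
    ‖w‖ + 2 * k ≤ ‖(fq e c)^[k] w‖ := by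
  induction k with
  | zero => simp
  | succ k ih =>
    have h0 : (0 : ℝ) ≤ k := Nat.cast_nonneg k
    have := t57_esc he (c := c) (w := (fq e c)^[k] w) (by linarith)
    rw [Function.iterate_succ_apply']
    push_cast
    linarith

theorem t57_cont (k : ℕ) : Continuous fun p : ℂ × ℂ => (fq e p.1)^[k] p.2 := by
  induction k with
  | zero => exact continuous_snd
  | succ k ih =>
    simp only [Function.iterate_succ_apply', fq] at ih ⊢
    exact (ih.pow _).add continuous_fst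

/-- A continuous divided difference of the iterate. -/
theorem t57_div (k : ℕ) : ∃ Q : ℂ × ℂ × ℂ → ℂ, Continuous Q ∧
    (∀ c z w, (fq e c)^[k] w - (fq e c)^[k] z = Q (c, z, w) * (w - z)) ∧
    ∀ c z, Q (c, z, z) = Pd e c z k := by
  induction k with
  | zero => exact ⟨fun _ => 1, continuous_const, fun c z w => by simp, fun c z => (Pd_zero z).symm⟩
  | succ k ih =>
    obtain ⟨Q, h1, h2, h3⟩ := ih
    have a1 : Continuous fun p : ℂ × ℂ × ℂ => (fq e p.1)^[k] p.2.1 :=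
      (t57_cont k).comp (continuous_fst.prodMk continuous_snd.fst)
    have a2 : Continuous fun p : ℂ × ℂ × ℂ => (fq e p.1)^[k] p.2.2 :=
      (t57_cont k).comp (continuous_fst.prodMk continuous_snd.snd)
    refine ⟨fun p => (∑ i ∈ Finset.range (e + 1),
      ((fq e p.1)^[k] p.2.2) ^ i * ((fq e p.1)^[k] p.2.1) ^ (e + 1 - 1 - i)) * Q p,
      (continuous_finsetSum _ fun i _ => (a2.pow _).mul (a1.pow _)).mul h1, fun c z w => ?_,
      fun c z => ?_⟩
    · rw [Function.iterate_succ_apply', Function.iterate_succ_apply', mul_assoc, ← h2,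
        (Commute.all _ _).geom_sum₂_mul]
      simp [fq]
    · dsimp only
      rw [Pd_succ', h3, geom_sum₂_self, Nat.add_sub_cancel]

theorem t57_per {f : ℂ → ℂ} {z : ℂ} {n : ℕ} (hn : 0 < n) :
    Function.minimalPeriod f z = n ↔ f^[n] z = z ∧ ∀ d ∈ Ioo 0 n, f^[d] z ≠ z := by
  constructor
  · rintro rfl
    exact ⟨Function.isPeriodicPt_minimalPeriod f z, fun d hd h =>
      absurd (Function.IsPeriodicPt.minimalPeriod_le hd.1 h) (not_le.2 hd.2)⟩
  · rintro ⟨h1, h2⟩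
    refine (Function.IsPeriodicPt.minimalPeriod_le hn h1).antisymm (not_lt.1 fun h => ?_)
    exact h2 _ ⟨Function.IsPeriodicPt.minimalPeriod_pos hn h1, h⟩
      (Function.isPeriodicPt_minimalPeriod f z)

/-- The multiplier can be moved along a segment. -/
theorem move (he : 1 ≤ e) {c z : ℂ} {n : ℕ} (hn : 0 < n)
    (hper : Function.minimalPeriod (fq e c) z = n) {ρ' : ℂ} {κ m : ℝ} (hκ : 0 < κ) (hm : 0 < m)
    (hseg : ∀ ρ ∈ segment ℝ (Pd e c z n) ρ', m ≤ ‖ρ‖ ∧ ρ ≠ 1 ∧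
      ∀ Y : Cyc e, Y.ρ = ρ → κ ≤ ‖Y.S‖) :
    ∃ c' z' : ℂ, Function.minimalPeriod (fq e c') z' = n ∧ Pd e c' z' n = ρ' ∧
      ‖c' - c‖ ≤ 2 / (κ * m) * ‖ρ' - Pd e c z n‖ := by
  obtain ⟨Q, q1, q2, q3⟩ := t57_div (e := e) n
  obtain ⟨ρ, hρ⟩ : ∃ ρ, Pd e c z n = ρ := ⟨_, rfl⟩
  rw [hρ] at hseg ⊢
  obtain ⟨L, hL⟩ : ∃ L, 2 / (κ * m) * ‖ρ' - ρ‖ = L := ⟨_, rfl⟩
  have hL0 : 0 ≤ L := by rw [← hL]; positivity
  let γ : ℝ → ℂ := fun t => ρ + t * (ρ' - ρ)
  have hγ : Continuous γ := by fun_prop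
  have hmem : ∀ t ∈ Icc (0 : ℝ) 1, γ t ∈ segment ℝ ρ ρ' := fun t ht => by
    rw [segment_eq_image']
    exact ⟨t, ht, by simp [γ]⟩
  let T : Set ℝ := {t | ∃ c' z' : ℂ, Function.minimalPeriod (fq e c') z' = n ∧
    Pd e c' z' n = γ t ∧ ‖c' - c‖ ≤ L * t}
  let K : Set (ℝ × ℂ × ℂ) := {p | p.1 ∈ Icc (0 : ℝ) 1 ∧ (fq e p.2.1)^[n] p.2.2 = p.2.2 ∧
    (∀ d ∈ Ioo 0 n, Q (p.2.1, p.2.2, (fq e p.2.1)^[d] p.2.2) = 1) ∧
    Q (p.2.1, p.2.2, p.2.2) = γ p.1 ∧ ‖p.2.1 - c‖ ≤ L * p.1}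
  have hK : IsClosed K := by
    have a1 : ∀ d, Continuous fun p : ℝ × ℂ × ℂ => (fq e p.2.1)^[d] p.2.2 := fun d =>
      (t57_cont d).comp continuous_snd
    refine (isClosed_Icc.preimage continuous_fst).and ((isClosed_eq (a1 n) (by fun_prop)).and
      (IsClosed.and ?_ ((isClosed_eq (by fun_prop) (by fun_prop)).and
        (isClosed_le (by fun_prop) (by fun_prop)))))
    simp only [Set.ofPred_forall]
    refine isClosed_iInter fun d => isClosed_iInter fun _ => isClosed_eq ?_ continuous_const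
    exact q1.comp (continuous_snd.fst.prodMk (continuous_snd.snd.prodMk (a1 d)))
  have hKc : IsCompact K := by
    refine ((isCompact_Icc (a := (0 : ℝ)) (b := 1)).prod ((isCompact_closedBall c L).prod
      (isCompact_closedBall (0 : ℂ) (‖c‖ + L + 2)))).of_isClosed_subset hK ?_
    rintro ⟨t, c', z'⟩ ⟨h1, h2, -, -, h5⟩
    dsimp only at h1 h2 h5
    have h6 : ‖c' - c‖ ≤ L := h5.trans (mul_le_of_le_one_right hL0 h1.2)
    refine ⟨h1, mem_closedBall_iff_norm.2 h6, mem_closedBall_zero_iff.2 (not_lt.1 fun h => ?_)⟩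
    have h7 : ‖c'‖ ≤ ‖c‖ + ‖c' - c‖ := norm_le_norm_add_norm_sub' c' c
    have h8 := t57_esc' he (c := c') (w := z') (by dsimp only at h; linarith) n
    have h9 : (0 : ℝ) < n := Nat.cast_pos.2 hn
    rw [h2] at h8
    linarith
  have hT : T ∩ Icc 0 1 = Prod.fst '' K := by
    ext t
    constructor
    · rintro ⟨⟨c', z', h1, h2, h3⟩, ht⟩
      obtain ⟨h4, h5⟩ := (t57_per hn).1 h1
      refine ⟨(t, c', z'), ⟨ht, h4, fun d hd => ?_, (q3 c' z').trans h2, h3⟩, rfl⟩
      have h6 := q2 c' z' ((fq e c')^[d] z')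
      rw [← Function.iterate_add_apply, add_comm, Function.iterate_add_apply, h4] at h6
      exact (mul_left_eq_self₀.1 h6.symm).resolve_right (sub_ne_zero.2 (h5 d hd))
    · rintro ⟨⟨t, c', z'⟩, ⟨h1, h2, h3, h4, h5⟩, rfl⟩
      dsimp only at h1 h2 h3 h4 h5 ⊢
      refine ⟨⟨c', z', (t57_per hn).2 ⟨h2, fun d hd h => ?_⟩, (q3 c' z').symm.trans h4, h5⟩, h1⟩
      have h6 := h3 d hd
      rw [h, h4] at h6
      exact (hseg _ (hmem t h1)).2.1 h6
  have key : Icc (0 : ℝ) 1 ⊆ T := by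
    refine IsClosed.Icc_subset_of_forall_mem_nhdsWithin ?_ ⟨c, z, hper, by simp [γ, hρ], by simp⟩ ?_
    · rw [hT]
      exact (hKc.image continuous_fst).isClosed
    · rintro t ⟨⟨c', z', h1, h2, h3⟩, ht⟩
      obtain ⟨s1, s2, s3⟩ := hseg _ (hmem t ⟨ht.1, ht.2.le⟩)
      have h0 : γ t ≠ 0 := fun h => by rw [h, norm_zero] at s1; linarith
      have h4 := local_move he hn h1 (h2 ▸ h0) (h2 ▸ s2) hκ (h2 ▸ s3)
      rw [h2] at h4
      filter_upwards [mem_nhdsWithin_of_mem_nhds (hγ.continuousAt.eventually h4),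
        self_mem_nhdsWithin] with u hu htu
      obtain ⟨c'', z'', b1, b2, b3⟩ := hu
      refine ⟨c'', z'', b1, b2, ?_⟩
      have htu : t < u := htu
      have b4 : ‖γ u - γ t‖ = (u - t) * ‖ρ' - ρ‖ := by
        rw [show γ u - γ t = ((u - t : ℝ) : ℂ) * (ρ' - ρ) by simp only [γ]; push_cast; ring,
          norm_mul, Complex.norm_real, Real.norm_eq_abs, abs_of_pos (sub_pos.2 htu)]
      have b5 : 2 / (κ * ‖γ t‖) ≤ 2 / (κ * m) := by gcongr
      have b6 : 2 / (κ * ‖γ t‖) * ‖γ u - γ t‖ ≤ L * (u - t) := by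
        rw [b4, ← hL]
        have : 0 ≤ (u - t) * ‖ρ' - ρ‖ := mul_nonneg (sub_pos.2 htu).le (norm_nonneg _)
        calc _ ≤ 2 / (κ * m) * ((u - t) * ‖ρ' - ρ‖) := mul_le_mul_of_nonneg_right b5 this
          _ = _ := by ring
      have b7 := norm_sub_le_norm_sub_add_norm_sub c'' c' c
      linarith
  obtain ⟨c', z', h1, h2, h3⟩ := key (right_mem_Icc.2 zero_le_one)
  exact ⟨c', z', h1, by simpa [γ] using h2, by rw [hL]; simpa using h3⟩

theorem t57_pow {c z : ℂ} {n : ℕ} (hz : (fq e c)^[n] z = z) (a : ℕ) :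
    Pd e c z (n * a) = Pd e c z n ^ a := by
  induction a with
  | zero => simp [Pd_zero]
  | succ a ih => rw [Nat.mul_succ, Pd_add, hz, ih, pow_succ]

theorem t57_shift {c z : ℂ} {n : ℕ} (hn : 0 < n) (hz : (fq e c)^[n] z = z) (h0 : Pd e c z n ≠ 0)
    (i : ℕ) : Pd e c ((fq e c)^[i] z) n = Pd e c z n := by
  have h1 := Pd_add (e := e) (c := c) z n i
  have h2 := Pd_add (e := e) (c := c) z i n
  have h3 := Pd_add (e := e) (c := c) z ((n - 1) * i) i
  have h4 : (n - 1) * i + i = n * i := by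
    obtain ⟨k, rfl⟩ := Nat.exists_eq_succ_of_ne_zero hn.ne'
    simp [Nat.succ_mul]
  rw [h4, t57_pow hz] at h3
  rw [hz, add_comm, h1, mul_comm] at h2
  exact mul_left_cancel₀ (right_ne_zero_of_mul (h3 ▸ pow_ne_zero i h0)) h2

/-- Fatou: an attracting cycle attracts the critical point. -/
theorem fatou (he : 1 ≤ e) {c z : ℂ} {n : ℕ} (hn : 0 < n)
    (hper : Function.minimalPeriod (fq e c) z = n) (h0 : Pd e c z n ≠ 0) (h1 : ‖Pd e c z n‖ < 1) :
    ∃ z' : ℂ, Function.minimalPeriod (fq e c) z' = n ∧ Pd e c z' n = Pd e c z n ∧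
      Tendsto (fun k : ℕ => (fq e c)^[n * k] 0) atTop (𝓝 z') := by
  have hz : (fq e c)^[n] z = z := ((t57_per hn).1 hper).1
  have h4 : ∀ i, (n - 1) * i + i = n * i := fun i => by
    obtain ⟨k, rfl⟩ := Nat.exists_eq_succ_of_ne_zero hn.ne'
    simp [Nat.succ_mul]
  obtain ⟨r, hr1, hr2⟩ := exists_between h1
  have hr0 : 0 ≤ r := (norm_nonneg _).trans hr1.le
  obtain ⟨s, hs, hc⟩ : ∃ s > 0, ∀ w ∈ ball z s, ‖(fq e c)^[n] w - z‖ ≤ r * ‖w - z‖ := by
    have h2 := (iter_deriv (e := e) (c := c) n z).isLittleO.bound (sub_pos.2 hr1)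
    obtain ⟨s, hs, h3⟩ := Metric.eventually_nhds_iff_ball.1 h2
    refine ⟨s, hs, fun w hw => ?_⟩
    have h5 := h3 w hw
    have h6 := norm_le_norm_add_norm_sub' ((fq e c)^[n] w - z) ((w - z) • Pd e c z n)
    rw [hz] at h5
    rw [norm_smul] at h6
    linarith
  have hit : ∀ w ∈ ball z s, ∀ k, ‖(fq e c)^[n * k] w - z‖ ≤ r ^ k * ‖w - z‖ := by
    intro w hw k
    induction k with
    | zero => simp
    | succ k ih =>
      have h5 : (fq e c)^[n * k] w ∈ ball z s := mem_ball_iff_norm.2 (ih.trans_lt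
        ((mul_le_of_le_one_left (norm_nonneg _) (pow_le_one₀ hr0 hr2.le)).trans_lt
          (mem_ball_iff_norm.1 hw)))
      rw [Nat.mul_succ, add_comm, Function.iterate_add_apply, pow_succ', mul_assoc]
      exact (hc _ h5).trans (mul_le_mul_of_nonneg_left ih hr0)
  obtain ⟨j, hj⟩ : ∃ j, (fq e c)^[j] c ∈ ball z s := by
    by_contra hno
    push Not at hno
    have hb : ∀ k, ∃ h, Br e c k h (ball z s) ∧ h z = (fq e c)^[(n - 1) * k] z := by
      intro k
      induction k with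
      | zero => exact ⟨id, ⟨differentiableOn_id, fun _ _ => rfl⟩, rfl⟩
      | succ k ih =>
        obtain ⟨h, b1, b2⟩ := ih
        refine br_succ hs b1 (fun w hw hh => hno k ?_) ?_
        · have b3 := b1.inv w hw
          rw [hh] at b3
          rwa [b3]
        · rw [b2, ← Function.iterate_succ_apply' (fq e c),
            show ((n - 1) * (k + 1)).succ = (n - 1) * k + n by rw [Nat.mul_succ]; omega,
            Function.iterate_add_apply, hz]
    obtain ⟨R, hR⟩ : ∃ R, ‖c‖ + 2 + 2 * ‖z‖ + s = R := ⟨_, rfl⟩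
    have hR0 : 0 < R := by rw [← hR]; positivity
    have hbd : ∀ a, s / R ≤ ‖Pd e c z n‖ ^ a := by
      intro a
      obtain ⟨h, b1, b2⟩ := hb (n * a)
      rw [mul_left_comm, Function.iterate_mul, Function.iterate_fixed hz] at b2
      have b3 : MapsTo h (ball z s) (closedBall (h z) R) := by
        intro w hw
        rw [b2, mem_closedBall_iff_norm]
        have b4 := norm_sub_le (h w) z
        have b5 : ‖w‖ ≤ ‖z‖ + ‖w - z‖ := norm_le_norm_add_norm_sub' w z
        have b6 := mem_ball_iff_norm.1 hw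
        by_contra b7
        have b8 := t57_esc' he (c := c) (w := h w) (by linarith [norm_nonneg z]) (n * a)
        have b9 : (0 : ℝ) ≤ (n * a : ℕ) := Nat.cast_nonneg _
        rw [b1.inv w hw] at b8
        linarith [norm_nonneg c]
      have b4 := Complex.norm_deriv_le_div_of_mapsTo_ball b1.diff b3 hs
      rw [b1.norm_deriv isOpen_ball (mem_ball_self hs), b2, t57_pow hz, norm_pow,
        inv_le_comm₀ (pow_pos (norm_pos_iff.2 h0) a) (div_pos hR0 hs), inv_div] at b4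
      exact b4
    obtain ⟨a, ha⟩ := exists_pow_lt_of_lt_one (div_pos hs hR0) h1
    exact absurd (hbd a) (not_le.2 ha)
  have hf0 : fq e c 0 = c := by simp [fq]
  refine ⟨(fq e c)^[(n - 1) * (j + 1)] z, ?_, t57_shift hn hz h0 _, ?_⟩
  · rw [Function.minimalPeriod_apply_iterate (Function.mk_mem_periodicPts hn hz), hper]
  · have t1 : Tendsto (fun k => (fq e c)^[n * k] ((fq e c)^[j] c)) atTop (𝓝 z) := by
      rw [tendsto_iff_norm_sub_tendsto_zero]
      refine squeeze_zero (fun _ => norm_nonneg _) (hit _ hj) ?_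
      simpa using (tendsto_pow_atTop_nhds_zero_of_lt_one hr0 hr2).mul_const ‖(fq e c)^[j] c - z‖
    have t2 := ((iter_diff (e := e) (c := c) ((n - 1) * (j + 1))).continuous.tendsto z).comp t1
    rw [← tendsto_add_atTop_iff_nat (j + 1)]
    refine t2.congr fun k => ?_
    have e1 : n * (k + (j + 1)) = (n - 1) * (j + 1) + (n * k + (j + 1)) := by
      rw [mul_add, ← h4 (j + 1)]; omega
    rw [e1, Function.iterate_add_apply, Function.iterate_add_apply, Function.iterate_succ_apply,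
      hf0]
    rfl

end Pool.Agent.MP_28f8a1_an.H42

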