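import Pool.Agent.MP_28f8a1_an.H42.Field
import Pool.Agent.MP_28f8a1_an.H42.Mass
import Pool.Agent.MP_28f8a1_an.H42.Move

/-! Versions with bounded error terms and some local computations. -/

set_option autoImplicit false

namespace Pool.Agent.MP_28f8a1_an.H42

open MeasureTheory Metric Set Real Filter Topology Polynomial
open scoped ENNReal

theorem t1320_loc {f : ℂ → ℂ} {x : ℂ} {ε t : ℝ} (hε : 0 < ε) (ht : 0 < t)
    (hd : DifferentiableOn ℂ f (ball x ε))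
    (hL : LI (ball x ε) (fun y => ‖f y‖ - (f y).re) ≤ ENNReal.ofReal (π * (ε / 2) ^ 2 * t))
    {c : ℂ} (hc : c ∈ ball x (ε / 8)) (hn : ‖f c‖ ≤ t) {y : ℂ} (hy : y ∈ ball x (ε / 8)) :
    ‖f y‖ ≤ 11 * t := by
  have hA : 0 < π * (ε / 2) ^ 2 := by positivity
  rw [mem_ball] at hc hy
  have h1 : ∀ z ∈ ball c (3 * ε / 8), 0 ≤ (f z + (t : ℝ)).re := fun z hz => by
    have hsub : ball z (ε / 2) ⊆ ball x ε := fun v hv => by
      rw [mem_ball] at *
      linarith [dist_triangle4 v z c x]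
    have hd' := hd.mono hsub
    have a1 := (t37_mean (Ψ := fun v => -f v) (u := fun v => ‖f v‖ - (f v).re)
      (half_pos hε) hd'.neg (hd'.continuousOn.norm.sub
        (Complex.continuous_re.comp_continuousOn hd'.continuousOn))
      fun v _ => by rw [Complex.neg_re]; linarith [norm_nonneg (f v)]).trans
      ((LI_mono_set hsub _).trans hL)
    rw [ENNReal.ofReal_le_ofReal_iff (by positivity), Complex.neg_re] at a1
    have a2 := le_of_mul_le_mul_left a1 hA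
    rw [Complex.add_re, Complex.ofReal_re]
    linarith
  have h2 : ‖y - c‖ < ε / 4 := by
    rw [← dist_eq_norm]
    linarith [dist_triangle_right y c x]
  have h3 := harnack (P := fun z => f z + (t : ℝ)) (c := c) (R := 3 * ε / 8)
    ((hd.mono fun v hv => by
      rw [mem_ball] at *
      linarith [dist_triangle v c x]).add_const _) h1 (w := y)
    (by rw [mem_ball, dist_eq_norm]; linarith)
  have h4 : ‖((t : ℝ) : ℂ)‖ = t := by
    rw [Complex.norm_real, Real.norm_of_nonneg ht.le]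
  have h5 := norm_add_le (f c) ((t : ℝ) : ℂ)
  have h6 := norm_sub_le (f y + (t : ℝ)) ((t : ℝ) : ℂ)
  rw [add_sub_cancel_right] at h6
  have h7 : ε / 8 * ‖f y + (t : ℝ)‖ ≤ ε / 8 * (10 * t) :=
    calc _ ≤ (3 * ε / 8 - ‖y - c‖) * ‖f y + (t : ℝ)‖ :=
          mul_le_mul_of_nonneg_right (by linarith) (norm_nonneg _)
      _ ≤ _ := h3
      _ ≤ 5 * ε / 8 * (2 * t) :=
          mul_le_mul (by linarith) (by linarith) (norm_nonneg _) (by positivity)
      _ = _ := by ring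
  have h8 := le_of_mul_le_mul_left h7 (by positivity)
  linarith

theorem t1320_local {l : Filter ℕ} {α : ℕ → ℂ → ℂ} {x : ℂ} {ε C : ℝ} (hε : 0 < ε)
    (h : ∀ᶠ n in l, DifferentiableOn ℂ (α n) (ball x ε) ∧
      LI (ball x ε) (fun y => ‖α n y‖ - (α n y).re) ≤ ENNReal.ofReal C)
    {c : ℂ} (hc : c ∈ ball x (ε / 8)) (h0 : ∃ m : ℝ, ∀ᶠ n in l, ‖α n c‖ ≤ m) :
    ∃ m : ℝ, ∀ᶠ n in l, ∀ y ∈ ball x (ε / 8), ‖α n y‖ ≤ m := by
  obtain ⟨m, hm⟩ := h0
  have hA : 0 < π * (ε / 2) ^ 2 := by positivity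
  obtain ⟨t, ht⟩ : ∃ t, t = max 1 (max m (C / (π * (ε / 2) ^ 2))) := ⟨_, rfl⟩
  have h1 : 0 < t := ht ▸ lt_max_of_lt_left one_pos
  have h2 : m ≤ t := ht ▸ (le_max_left _ _).trans (le_max_right _ _)
  have h3 : C ≤ π * (ε / 2) ^ 2 * t :=
    (div_le_iff₀' hA).1 (ht ▸ (le_max_right _ _).trans (le_max_right _ _))
  refine ⟨11 * t, ?_⟩
  filter_upwards [h, hm] with n ⟨hd, hL⟩ hn y hy
  exact t1320_loc hε h1 hd (hL.trans (ENNReal.ofReal_le_ofReal h3)) hc (hn.trans h2) hy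

theorem align_bd {l : Filter ℕ} {O : Set ℂ} (hO : IsPreconnected O) {α : ℕ → ℂ → ℂ}
    (h : ∀ x ∈ O, ∃ ε > 0, ∃ C : ℝ, ∀ᶠ n in l, DifferentiableOn ℂ (α n) (ball x ε) ∧
      LI (ball x ε) (fun y => ‖α n y‖ - (α n y).re) ≤ ENNReal.ofReal C)
    {x₀ : ℂ} (hx₀ : x₀ ∈ O) (h0 : ∀ᶠ n in l, α n x₀ = 0) :
    ∀ x ∈ O, ∃ ε > 0, ∃ C : ℝ, ∀ᶠ n in l, ∀ y ∈ ball x ε, ‖α n y‖ ≤ C := by
  intro x hx
  have key := hO.induction₂' (fun a b => (∃ m : ℝ, ∀ᶠ n in l, ‖α n a‖ ≤ m) →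
      ∃ m : ℝ, ∀ᶠ n in l, ‖α n b‖ ≤ m) (fun a ha => by
    obtain ⟨ε, hε, C, H⟩ := h a ha
    have hm : a ∈ ball a (ε / 8) := mem_ball_self (by positivity)
    filter_upwards [mem_nhdsWithin_of_mem_nhds (ball_mem_nhds a (show 0 < ε / 8 by positivity))]
      with b hb
    exact ⟨fun h1 => (t1320_local hε H hm h1).imp fun m h2 => h2.mono fun n hn => hn b hb,
      fun h1 => (t1320_local hε H hb h1).imp fun m h2 => h2.mono fun n hn => hn a hm⟩)
    (fun _ _ _ _ _ _ h1 h2 h3 => h2 (h1 h3)) hx₀ hx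
    ⟨0, h0.mono fun n hn => by rw [hn, norm_zero]⟩
  obtain ⟨ε, hε, C, H⟩ := h x hx
  exact ⟨ε / 8, by positivity, t1320_local hε H (mem_ball_self (by positivity)) key⟩

/-- the local estimate with an explicit error term `β` -/
def t1321_Loc (l : Filter ℕ) (h q : ℕ → ℂ → ℂ) (β : ℕ → ℝ) (x : ℂ) : Prop :=
  ∃ ε > 0, ∃ K > 0, ∀ θ > 0, ∀ᶠ n in l, DifferentiableOn ℂ (q n) (ball x ε) ∧ ∀ y ∈ ball x ε,
    K⁻¹ ≤ ‖q n y‖ ∧ ‖deriv (q n) y‖ ≤ K ∧
      ‖2 * q n y * deriv (h n) y + deriv (q n) y * h n y‖ ≤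
        K * β n + θ * (‖h n y‖ + ‖deriv (h n) y‖)

theorem t1321_key {l : Filter ℕ} {h q : ℕ → ℂ → ℂ} {β : ℕ → ℝ} {x : ℂ}
    (hd : ∀ n, Differentiable ℂ (h n)) (hβ0 : ∀ n, 0 ≤ β n) (hβ : ∀ η > 0, ∀ᶠ n in l, β n ≤ η)
    (hs : ∀ L η : ℝ, 0 < η → ∀ᶠ n in l, ∀ y ∈ ball (0 : ℂ) L, ‖h n y‖ ≤ η)
    {ε m C : ℝ} (hε : 0 < ε) (hm : 0 < m)
    (hq : ∀ᶠ n in l, DifferentiableOn ℂ (q n) (ball x ε) ∧ ∀ y ∈ ball x ε,
      m⁻¹ ≤ ‖q n y‖ ∧ ‖q n y‖ ≤ m ∧ ∃ a : ℂ, ‖1 - a‖ ≤ C * β n ∧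
        q n y = a * q n (y + h n y) * (1 + deriv (h n) y) ^ 2) : t1321_Loc l h q β x := by
  obtain ⟨s, hs4⟩ : ∃ s, ε = 4 * s := ⟨ε / 4, by ring⟩
  subst hs4
  have hs0 : 0 < s := by linarith
  have p1 : 0 < m / s := by positivity
  have p2 : 0 < m / s / s := by positivity
  obtain ⟨K, hK⟩ : ∃ K, K = m + m / s + m / s / s := ⟨_, rfl⟩
  have hK0 : 0 < K := by linarith
  have hC := abs_nonneg C
  have hKK : K ≤ K + 2 * K * |C| := le_add_of_nonneg_right (by positivity)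
  refine ⟨s, hs0, K + 2 * K * |C|, by positivity, fun θ hθ => ?_⟩
  obtain ⟨η, hη0, hη1, hηs, hηθ⟩ : ∃ η : ℝ, 0 < η ∧ η ≤ 1 / 2 ∧ η ≤ s ∧ η ≤ θ / (4 * K) :=
    ⟨min (1 / 2) (min s (θ / (4 * K))), by positivity, min_le_left _ _,
      (min_le_right _ _).trans (min_le_left _ _), (min_le_right _ _).trans (min_le_right _ _)⟩
  rw [le_div_iff₀ (by positivity)] at hηθ
  filter_upwards [hq, hs (‖x‖ + s + 1) η hη0, hβ (1 / (2 * (|C| + 1))) (by positivity)]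
    with n ⟨hqd, hqn⟩ hn hb
  have hder : ∀ z ∈ ball (0 : ℂ) (‖x‖ + s), ‖deriv (h n) z‖ ≤ η := fun z hz => by
    have := t1277_cauchy one_pos (hd n).differentiableOn hn (by rwa [add_sub_cancel_right])
    rwa [div_one] at this
  have hsub : ball x s ⊆ ball x (4 * s) := ball_subset_ball (by linarith)
  refine ⟨hqd.mono hsub, fun y hy => ?_⟩
  have hy1 : y ∈ ball (0 : ℂ) (‖x‖ + s) := by
    have := norm_le_norm_add_norm_sub' y x
    rw [mem_ball_iff_norm] at hy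
    exact mem_ball_zero_iff.2 (by linarith)
  have hv := hn y (ball_subset_ball (by linarith) hy1)
  obtain ⟨c1, c2, a, ha, he⟩ := hqn y (hsub hy)
  obtain ⟨d1, d2⟩ := t1277_taylor hs0 hqd (fun z hz => (hqn z hz).2.1) hy (hv.trans hηs)
  refine ⟨le_trans (inv_anti₀ hm (by linarith)) c1, by linarith, ?_⟩
  have ha' : ‖1 - a‖ ≤ |C| * β n := ha.trans (mul_le_mul_of_nonneg_right (le_abs_self C) (hβ0 n))
  have hb' : |C| * β n ≤ 1 / 2 := by
    rw [le_div_iff₀ (by positivity)] at hb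
    nlinarith [hβ0 n]
  have key := t1277_alg (K := K) (q₁ := deriv (q n) y) (v := h n y)
    (R := q n (y + h n y) - q n y - deriv (q n) y * h n y) (by
      rw [show q n y + deriv (q n) y * h n y +
        (q n (y + h n y) - q n y - deriv (q n) y * h n y) = q n (y + h n y) by ring]
      exact he) (by linarith) (by linarith)
    (d2.trans (mul_le_mul_of_nonneg_right (by linarith) (by positivity))) hv (hder y hy1)
    (by linarith) ha' hb'
  refine key.trans ?_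
  have e2 := mul_le_mul_of_nonneg_right hηθ
    (add_nonneg (norm_nonneg (h n y)) (norm_nonneg (deriv (h n) y)))
  have e3 : 0 ≤ K * β n := mul_nonneg hK0.le (hβ0 n)
  nlinarith

theorem t1321_loc {l : Filter ℕ} {h q : ℕ → ℂ → ℂ} {β : ℕ → ℝ} {μ : ℕ → ℂ} {x : ℂ}
    (H : t1321_Loc l h q β x) (hβ : ∀ η > 0, ∀ᶠ n in l, β n ≤ η * ‖μ n‖) :
    t1277_Loc l h q μ x := by
  obtain ⟨ε, hε, K, hK, H⟩ := H
  refine ⟨ε, hε, K, hK, fun θ hθ => ?_⟩
  filter_upwards [H θ hθ, hβ (θ / K) (by positivity)] with n ⟨a1, a2⟩ a3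
  refine ⟨a1, fun y hy => ⟨(a2 y hy).1, (a2 y hy).2.1, (a2 y hy).2.2.trans ?_⟩⟩
  have a4 := mul_le_mul_of_nonneg_left a3 hK.le
  rw [← mul_assoc, mul_div_cancel₀ _ hK.ne'] at a4
  linarith

theorem t1321_der {l : Filter ℕ} {h q : ℕ → ℂ → ℂ} {β : ℕ → ℝ} {x : ℂ} (hβ0 : ∀ n, 0 ≤ β n)
    (H : t1321_Loc l h q β x) : ∃ ε > 0, ∃ K > 0,
      ∀ᶠ n in l, ∀ y ∈ ball x ε, ‖deriv (h n) y‖ ≤ K * (β n + ‖h n y‖) := by
  obtain ⟨ε, hε, K, hK, H⟩ := H
  refine ⟨ε, hε, K ^ 2 + 1, by positivity, ?_⟩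
  filter_upwards [H K⁻¹ (by positivity)] with n hn y hy
  obtain ⟨c1, c2, c3⟩ := hn.2 y hy
  have a1 := norm_sub_le (2 * q n y * deriv (h n) y + deriv (q n) y * h n y) (deriv (q n) y * h n y)
  rw [add_sub_cancel_right, norm_mul, norm_mul, norm_mul, Complex.norm_two] at a1
  have a2 := mul_le_mul_of_nonneg_right c1 (norm_nonneg (deriv (h n) y))
  have a3 := mul_le_mul_of_nonneg_right c2 (norm_nonneg (h n y))
  have a4 : K⁻¹ * ‖deriv (h n) y‖ ≤ K⁻¹ * ‖h n y‖ + K * (β n + ‖h n y‖) := by linarith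
  have a5 := mul_le_mul_of_nonneg_left a4 hK.le
  rw [mul_add, ← mul_assoc, ← mul_assoc, mul_inv_cancel₀ hK.ne', one_mul, one_mul] at a5
  have a6 := hβ0 n
  nlinarith

theorem t1321_bdd {l : Filter ℕ} {O : Set ℂ} (hO : IsPreconnected O) {h q : ℕ → ℂ → ℂ}
    {τ : ℕ → ℂ} (hd : ∀ n, Differentiable ℂ (h n))
    (hL : ∀ x ∈ O, t1321_Loc l h q (fun n => ‖τ n‖) x) (hτ : ∀ n, τ n ≠ 0) {y₀ : ℂ} (hy₀ : y₀ ∈ O)
    (h0 : ∃ m, ∀ᶠ n in l, ‖h n y₀ / τ n‖ ≤ m) :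
    ∀ x ∈ O, ∃ δ > 0, ∃ m, ∀ᶠ n in l, ∀ y ∈ ball x δ, ‖h n y / τ n‖ ≤ m := by
  have loc : ∀ x ∈ O, ∃ δ > 0, ∀ y ∈ ball x δ, (∃ m, ∀ᶠ n in l, ‖h n y / τ n‖ ≤ m) →
      ∃ m, ∀ᶠ n in l, ∀ y ∈ ball x δ, ‖h n y / τ n‖ ≤ m := by
    intro x hx
    obtain ⟨ε, hε, K, hK, H⟩ := t1321_der (fun n => norm_nonneg (τ n)) (hL x hx)
    obtain ⟨s, hs0, hs1, hs2⟩ : ∃ s : ℝ, 0 < s ∧ s < ε ∧ s ≤ 1 / (4 * K) :=
      ⟨min (ε / 2) (1 / (4 * K)), by positivity,
        (min_le_left _ _).trans_lt (half_lt_self hε), min_le_right _ _⟩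
    rw [le_div_iff₀ (by positivity)] at hs2
    refine ⟨s, hs0, fun y hy ⟨m, hm⟩ => ⟨2 * m + 1, ?_⟩⟩
    filter_upwards [H, hm] with n hn a1 z hz
    have := t1277_gron hK.le (norm_nonneg (τ n)) (by linarith) (hd n)
      (fun w hw => hn w (closedBall_subset_ball hs1 hw)) (ball_subset_closedBall hy) z
      (ball_subset_closedBall hz)
    have hp := norm_pos_iff.2 (hτ n)
    rw [norm_div, div_le_iff₀ hp] at a1 ⊢
    linarith
  have all := t1277_prop hO (A := fun y => ∃ m, ∀ᶠ n in l, ‖h n y / τ n‖ ≤ m) (fun x hx => by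
    obtain ⟨δ, hδ, H⟩ := loc x hx
    refine ⟨δ, hδ, fun y hy y' hy' hA => ?_⟩
    obtain ⟨m, hm⟩ := H y hy hA
    exact ⟨m, hm.mono fun n hn => hn y' hy'⟩) hy₀ h0
  intro x hx
  obtain ⟨δ, hδ, H⟩ := loc x hx
  exact ⟨δ, hδ, H x (mem_ball_self hδ) (all x hx)⟩

theorem t1321_const {l : Filter ℕ} {O : Set ℂ} (hO : IsPreconnected O) {h u : ℕ → ℂ → ℂ}
    {τ μ : ℕ → ℂ} (hd : ∀ n, Differentiable ℂ (h n)) (h0 : ∀ n, h n 0 = 0)
    (h1 : ∀ n, deriv (h n) 0 = τ n) (u0 : ∀ n, u n 0 = 1)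
    (hL : ∀ x ∈ O, t1277_Loc l h (fun n y => u n y / y ^ 2) μ x)
    (hμ : ∀ n, μ n ≠ 0) {r R : ℝ} (hr : 0 < r)
    (hR : r < R) (hS : sphere (0 : ℂ) r ⊆ O)
    (hu : ∀ᶠ n in l, DifferentiableOn ℂ (u n) (ball 0 R))
    (hb : ∃ m, ∀ᶠ n in l, ‖h n r / μ n‖ ≤ m) :
    ∀ η > 0, ∀ᶠ n in l, ∀ y ∈ sphere (0 : ℂ) r,
      ‖(h n y / μ n) ^ 2 * (u n y / y ^ 2) - (τ n / μ n) ^ 2‖ ≤ η := by
  have hy₀ : (r : ℂ) ∈ O := hS (by simp [abs_of_pos hr])
  have hone : ∀ᶠ n in l, ‖μ n / μ n‖ ≤ 1 := Eventually.of_forall fun n => by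
    rw [div_self (hμ n), norm_one]
  have loc := fun x hx => t1277_osc hd (hL x hx) hμ hone (t1277_bdd hO hd hL hμ hone hy₀ hb x hx)
  obtain ⟨C, hC⟩ : ∃ C : ℕ → ℂ, ∀ n, C n = (h n r / μ n) ^ 2 * (u n r / (r : ℂ) ^ 2) :=
    ⟨_, fun _ => rfl⟩
  have all := t1277_prop hO
    (A := fun y => ∀ η > 0, ∀ᶠ n in l, ‖(h n y / μ n) ^ 2 * (u n y / y ^ 2) - C n‖ ≤ η)
    (fun x hx => by
      obtain ⟨δ, hδ, H⟩ := loc x hx
      refine ⟨δ, hδ, fun y hy y' hy' hA η hη => ?_⟩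
      filter_upwards [H (η / 2) (half_pos hη), hA (η / 2) (half_pos hη)] with n a1 a2
      exact (norm_sub_le_norm_sub_add_norm_sub _ _ _).trans
        ((add_le_add (a1 y hy y' hy') a2).trans_eq (add_halves η))) hy₀
    (fun η hη => Eventually.of_forall fun n => by rw [hC, sub_self, norm_zero]; exact hη.le)
  have sph : ∀ η > 0, ∀ᶠ n in l, ∀ y ∈ sphere (0 : ℂ) r,
      ‖(h n y / μ n) ^ 2 * (u n y / y ^ 2) - C n‖ ≤ η := fun η hη =>
    ev_compact (l := l) (isCompact_sphere (0 : ℂ) r)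
      (Q := fun n y => ‖(h n y / μ n) ^ 2 * (u n y / y ^ 2) - C n‖ ≤ η) (fun x hx => by
        obtain ⟨δ, hδ, H⟩ := loc x (hS hx)
        refine ⟨δ, hδ, ?_⟩
        filter_upwards [H (η / 2) (half_pos hη), all x (hS hx) (η / 2) (half_pos hη)]
          with n a1 a2 y hy
        exact (norm_sub_le_norm_sub_add_norm_sub _ _ _).trans
          ((add_le_add (a1 x (mem_ball_self hδ) y hy) a2).trans_eq (add_halves η)))
  intro η hη
  filter_upwards [sph (η / 2) (half_pos hη), hu] with n a2 a3 y hy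
  have hds : DifferentiableOn ℂ (dslope (h n) 0) (ball 0 R) :=
    (Complex.differentiableOn_dslope (ball_mem_nhds 0 (hr.trans hR))).2 (hd n).differentiableOn
  have a4 := max_disc (F := fun y => (dslope (h n) 0 y / μ n) ^ 2 * u n y - C n) (m := η / 2) hr hR
    ((((hds.div_const _).pow 2).mul a3).sub_const _) (fun y hy => by
      rw [sub_zero] at hy
      have hy0 : y ≠ 0 := norm_pos_iff.1 (by rw [hy]; exact hr)
      have e := sub_smul_dslope (h n) 0 y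
      rw [sub_zero, h0, sub_zero, smul_eq_mul] at e
      have a5 := a2 y (mem_sphere_zero_iff_norm.2 hy)
      rw [← e] at a5
      refine le_trans (le_of_eq ?_) a5
      congr 2
      field_simp) 0 (by simp [hr.le])
  have a6 : ‖(τ n / μ n) ^ 2 - C n‖ ≤ η / 2 := by
    simpa only [dslope_same, h1, u0, mul_one] using a4
  rw [norm_sub_rev] at a6
  exact (norm_sub_le_norm_sub_add_norm_sub _ _ _).trans
    ((add_le_add (a2 y hy) a6).trans_eq (add_halves η))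

theorem vector_field_bd (𝒰 : Ultrafilter ℕ) {E : Set ℂ} (hE : IsClosed E) (hE0 : μH[1] E = 0)
    (hE1 : (0 : ℂ) ∉ E) {h u : ℕ → ℂ → ℂ} {τ : ℕ → ℂ} (hτ : ∀ n, τ n ≠ 0)
    (hd : ∀ n, Differentiable ℂ (h n)) (h0 : ∀ n, h n 0 = 0) (h1 : ∀ n, deriv (h n) 0 = τ n)
    (hs : ∀ L η : ℝ, 0 < η → ∀ᶠ n in (𝒰 : Filter ℕ), ∀ y ∈ ball (0 : ℂ) L, ‖h n y‖ ≤ η)
    (u0 : ∀ n, u n 0 = 1)
    (hu : ∀ x ∉ E, ∃ ε > 0, ∃ m > 0, ∃ C : ℝ, ∀ᶠ n in (𝒰 : Filter ℕ),
      DifferentiableOn ℂ (u n) (ball x ε) ∧ ∀ y ∈ ball x ε, m⁻¹ ≤ ‖u n y‖ ∧ ‖u n y‖ ≤ m ∧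
        (y ≠ 0 → ∃ a : ℂ, ‖1 - a‖ ≤ C * ‖τ n‖ ∧
          u n y / y ^ 2 = a * (u n (y + h n y) / (y + h n y) ^ 2) * (1 + deriv (h n) y) ^ 2)) :
    ∃ W : ℂ → ℂ, Differentiable ℂ W ∧
      ∀ L η : ℝ, 0 < η → ∀ᶠ n in (𝒰 : Filter ℕ), ∀ y ∈ ball (0 : ℂ) L,
        ‖h n y / τ n - W y‖ ≤ η := by
  have hO : IsPreconnected (({0}ᶜ : Set ℂ) \ E) := preconn_diff isOpen_compl_singleton
    (isConnected_compl_singleton_of_one_lt_rank (by simp) 0).isPreconnected hE hE0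
  have hτ0 : ∀ η > 0, ∀ᶠ n in (𝒰 : Filter ℕ), ‖τ n‖ ≤ η := fun η hη => by
    filter_upwards [hs 2 η hη] with n hn
    have := t1277_cauchy (z := 0) one_pos (hd n).differentiableOn hn (mem_ball_self (by norm_num))
    rwa [div_one, h1] at this
  have hL : ∀ x ∈ ({0}ᶜ : Set ℂ) \ E,
      t1321_Loc 𝒰 h (fun n y => u n y / y ^ 2) (fun n => ‖τ n‖) x := by
    intro x hx
    obtain ⟨ε, hε, m, hm, C, H⟩ := hu x hx.2
    have hx0 : 0 < ‖x‖ := norm_pos_iff.2 hx.1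
    have hb : ∀ y ∈ ball x (min ε (‖x‖ / 2)), ‖x‖ / 2 ≤ ‖y‖ ∧ ‖y‖ ≤ 2 * ‖x‖ := fun y hy => by
      have a1 := (mem_ball_iff_norm.1 hy).trans_le (min_le_right _ _)
      have a2 := norm_sub_norm_le y x
      have a3 := norm_sub_norm_le x y
      rw [norm_sub_rev] at a3
      constructor <;> linarith
    have hsub : ball x (min ε (‖x‖ / 2)) ⊆ ball x ε := ball_subset_ball (min_le_left _ _)
    have p1 : 0 < m * (2 * ‖x‖) ^ 2 := by positivity
    have p2 : 0 < m / (‖x‖ / 2) ^ 2 := by positivity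
    refine t1321_key hd (fun n => norm_nonneg _) hτ0 hs (ε := min ε (‖x‖ / 2)) (C := C)
      (m := m * (2 * ‖x‖) ^ 2 + m / (‖x‖ / 2) ^ 2) (by positivity) (by positivity) ?_
    filter_upwards [H] with n ⟨a1, a2⟩
    have hne : ∀ y ∈ ball x (min ε (‖x‖ / 2)), y ≠ 0 := fun y hy =>
      norm_pos_iff.1 (by linarith [(hb y hy).1])
    refine ⟨(a1.mono hsub).div (differentiableOn_pow 2) fun y hy => pow_ne_zero 2 (hne y hy),
      fun y hy => ?_⟩
    obtain ⟨b1, b2, b3⟩ := a2 y (hsub hy)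
    obtain ⟨c1, c2⟩ := hb y hy
    have hy0 := norm_pos_iff.2 (hne y hy)
    refine ⟨?_, ?_, b3 (hne y hy)⟩
    · rw [norm_div, norm_pow]
      calc (m * (2 * ‖x‖) ^ 2 + m / (‖x‖ / 2) ^ 2)⁻¹ ≤ (m * (2 * ‖x‖) ^ 2)⁻¹ :=
            inv_anti₀ p1 (by linarith)
        _ = m⁻¹ / (2 * ‖x‖) ^ 2 := by rw [mul_inv, div_eq_mul_inv]
        _ ≤ ‖u n y‖ / ‖y‖ ^ 2 := by gcongr
    · rw [norm_div, norm_pow]
      have : ‖u n y‖ / ‖y‖ ^ 2 ≤ m / (‖x‖ / 2) ^ 2 := by gcongr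
      linarith
  obtain ⟨ε, hε, m, hm, C, H⟩ := hu 0 hE1
  obtain ⟨ρ, hρ, hρE⟩ := Metric.isOpen_iff.1 hE.isOpen_compl 0 hE1
  obtain ⟨r, hr, hr1⟩ := exists_between (lt_min hε hρ)
  rw [lt_min_iff] at hr1
  have hS : sphere (0 : ℂ) r ⊆ ({0}ᶜ : Set ℂ) \ E := fun y hy => by
    rw [mem_sphere_zero_iff_norm] at hy
    exact ⟨norm_pos_iff.1 (by rw [hy]; exact hr), hρE (mem_ball_zero_iff.2 (by rw [hy]; exact hr1.2))⟩
  have hud : ∀ᶠ n in (𝒰 : Filter ℕ), DifferentiableOn ℂ (u n) (ball 0 ε) :=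
    H.mono fun n hn => hn.1
  have hrS : (r : ℂ) ∈ sphere (0 : ℂ) r := by simp [abs_of_pos hr]
  choose z hz hmax using fun n => (isCompact_sphere (0 : ℂ) r).exists_isMaxOn ⟨r, hrS⟩
    (hd n).continuous.norm.continuousOn
  have hcau : ∀ n, ‖τ n‖ ≤ ‖h n (z n)‖ / r := fun n => by
    rw [← h1]
    exact Complex.norm_deriv_le_of_forall_mem_sphere_norm_le hr (hd n).diffContOnCl
      fun w hw => hmax n hw
  have hμ : ∀ n, h n (z n) ≠ 0 := fun n h0 => by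
    have := hcau n
    rw [h0, norm_zero, zero_div] at this
    exact hτ n (norm_le_zero_iff.1 this)
  have hb : ∃ M, ∀ᶠ n in (𝒰 : Filter ℕ), ‖h n r / τ n‖ ≤ M := by
    by_contra hne
    have hsm : ∀ η > 0, ∀ᶠ n in (𝒰 : Filter ℕ), ‖τ n‖ ≤ η * ‖h n (z n)‖ := fun η hη => by
      have a1 : ∀ᶠ n in (𝒰 : Filter ℕ), ¬‖h n r / τ n‖ ≤ η⁻¹ :=
        Ultrafilter.eventually_not.2 fun hh => hne ⟨_, hh⟩
      filter_upwards [a1] with n a2
      have p2 := norm_pos_iff.2 (hτ n)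
      rw [not_le, norm_div, lt_div_iff₀ p2, inv_mul_lt_iff₀ hη] at a2
      have a3 : ‖h n r‖ ≤ ‖h n (z n)‖ := hmax n hrS
      exact a2.le.trans (mul_le_mul_of_nonneg_left a3 hη.le)
    obtain ⟨c, hc⟩ : ∃ c : ℝ, c = m⁻¹ / r ^ 2 / 2 := ⟨_, rfl⟩
    have hc0 : 0 < c := by rw [hc]; positivity
    have c1 := t1321_const hO hd h0 h1 u0 (fun x hx => t1321_loc (hL x hx) hsm) hμ hr hr1.1 hS hud
      ⟨1, Eventually.of_forall fun n => by
        rw [norm_div, div_le_one (norm_pos_iff.2 (hμ n))]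
        exact hmax n hrS⟩ c hc0
    obtain ⟨n, a1, a2, a0⟩ := (c1.and (H.and (hsm (min 1 (c / 2)) (by positivity)))).exists
    have a3 := a1 (z n) (hz n)
    have a4 := mem_sphere_zero_iff_norm.1 (hz n)
    have a5 := (a2.2 (z n) (mem_ball_zero_iff.2 (by rw [a4]; exact hr1.1))).1
    rw [div_self (hμ n), one_pow, one_mul] at a3
    have a6 := norm_sub_norm_le (u n (z n) / z n ^ 2) ((τ n / h n (z n)) ^ 2)
    rw [norm_div, norm_pow, a4, norm_pow, norm_div] at a6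
    have a7 : m⁻¹ / r ^ 2 ≤ ‖u n (z n)‖ / r ^ 2 := by gcongr
    have a8 : c ≤ (‖τ n‖ / ‖h n (z n)‖) ^ 2 := by linarith
    have p1 := norm_pos_iff.2 (hμ n)
    rw [← div_le_iff₀ p1] at a0
    have a9 := a0.trans (min_le_left _ _)
    have a10 := a0.trans (min_le_right _ _)
    have a11 : 0 ≤ ‖τ n‖ / ‖h n (z n)‖ := by positivity
    nlinarith
  have c4 := t1321_bdd hO hd hL hτ (hS hrS) hb
  exact montel 𝒰 (u := fun n y => h n y / τ n) fun L => by
    obtain ⟨s, hs, hsE⟩ := good_radius hE0 (show |L| < |L| + 1 by linarith)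
    have hs0 : 0 < s := (abs_nonneg L).trans_lt hs.1
    obtain ⟨M, hM⟩ := t1277_cpt (isCompact_sphere (0 : ℂ) s) (F := fun n y => ‖h n y / τ n‖)
      fun x hx => by
        rw [mem_sphere_zero_iff_norm] at hx
        exact c4 x ⟨norm_pos_iff.1 (by rw [hx]; exact hs0), fun hxE => hsE x hxE hx⟩
    refine ⟨M, hM.mono fun n hn => ⟨((hd n).div_const _).differentiableOn, fun y hy => ?_⟩⟩
    refine max_disc (F := fun y => h n y / τ n) (x := 0) (R := s + 1) hs0 (by linarith)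
      ((hd n).div_const _).differentiableOn
      (fun w hw => hn w (mem_sphere_iff_norm.2 hw)) y ?_
    rw [sub_zero]
    exact ((mem_ball_zero_iff.1 hy).trans_le (le_abs_self L)).le.trans hs.1.le

theorem t1320_tlu {l : Filter ℕ} {F : ℕ → ℂ → ℂ} {G : ℂ → ℂ} {S : Set ℂ}
    (hc : ∀ η > 0, ∀ᶠ n in l, ∀ v ∈ S, ‖F n v - G v‖ ≤ η) : TendstoLocallyUniformlyOn F G l S :=
  (Metric.tendstoUniformlyOn_iff.2 fun η hη => (hc (η / 2) (half_pos hη)).mono fun n hn v hv => by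
    rw [dist_comm, dist_eq_norm]
    linarith [hn v hv]).tendstoLocallyUniformlyOn

theorem t1320_slope {l : Filter ℕ} {Q : ℕ → ℂ → ℂ} {R : ℂ → ℂ} {y : ℕ → ℂ} {x : ℂ} {ε : ℝ}
    (hε : 0 < ε) (hR : DifferentiableOn ℂ R (ball x ε)) (hy : Tendsto y l (𝓝 x))
    (hd : ∀ᶠ n in l, DifferentiableOn ℂ (Q n) (ball x ε))
    (hc : TendstoLocallyUniformlyOn Q R l (ball x ε)) {η : ℝ} (hη : 0 < η) :
    ∀ᶠ n in l, ‖Q n x - Q n (y n) - deriv R x * (x - y n)‖ ≤ η * ‖x - y n‖ := by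
  obtain ⟨t, ht, h1⟩ := Metric.tendstoLocallyUniformlyOn_iff.1 (hc.deriv hd isOpen_ball) (η / 2)
    (half_pos hη) x (mem_ball_self hε)
  rw [nhdsWithin_eq_nhds.2 (ball_mem_nhds x hε)] at ht
  have h2 : ContinuousAt (deriv R) x :=
    (hR.deriv isOpen_ball).continuousOn.continuousAt (ball_mem_nhds x hε)
  have h3 : ∀ᶠ v in 𝓝 x, v ∈ t ∧ v ∈ ball x ε ∧ dist (deriv R v) (deriv R x) < η / 2 :=
    (show ∀ᶠ v in 𝓝 x, v ∈ t from ht).and ((show ∀ᶠ v in 𝓝 x, v ∈ ball x ε from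
      ball_mem_nhds x hε).and (Metric.tendsto_nhds.1 h2.tendsto _ (half_pos hη)))
  obtain ⟨δ, hδ, h4⟩ := Metric.eventually_nhds_iff_ball.1 h3
  filter_upwards [h1, hd, hy.eventually (ball_mem_nhds x hδ)] with n a1 a2 a3
  have a4 : ∀ v ∈ ball x δ, HasDerivWithinAt (fun v => Q n v - deriv R x * v)
      (deriv (Q n) v - deriv R x) (ball x δ) v := fun v hv => by
    have b1 := (a2.hasDerivAt (isOpen_ball.mem_nhds (h4 v hv).2.1)).sub
      ((hasDerivAt_id v).const_mul (deriv R x))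
    rw [mul_one] at b1
    exact b1.hasDerivWithinAt
  have a5 := (convex_ball x δ).norm_image_sub_le_of_norm_hasDerivWithin_le (C := η) a4
    (fun v hv => by
      have b1 := a1 v (h4 v hv).1
      have b2 := (h4 v hv).2.2
      have b3 := dist_triangle_left (deriv (Q n) v) (deriv R x) (deriv R v)
      rw [← dist_eq_norm]
      exact b3.trans (by linarith [show dist (deriv R v) (deriv (Q n) v) < η / 2 from b1]))
    a3 (mem_ball_self hδ)
  refine le_of_eq_of_le (congrArg norm ?_) a5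
  ring

/-- The Lie derivative as a limit. -/
theorem lie_limit {l : Filter ℕ} {Q w : ℕ → ℂ → ℂ} {R W : ℂ → ℂ} {τ y : ℕ → ℂ} {x : ℂ} {ε : ℝ}
    (hε : 0 < ε) (hR : DifferentiableOn ℂ R (ball x ε)) (hW : DifferentiableOn ℂ W (ball x ε))
    (hx : R x ≠ 0) (hτ : Tendsto τ l (𝓝 0)) (hy : Tendsto y l (𝓝 x))
    (hd : ∀ᶠ n in l, τ n ≠ 0 ∧ DifferentiableOn ℂ (Q n) (ball x ε) ∧
      DifferentiableOn ℂ (w n) (ball x ε) ∧ y n + τ n * w n (y n) = x)
    (hc : ∀ η > 0, ∀ᶠ n in l, ∀ v ∈ ball x ε, ‖Q n v - R v‖ ≤ η ∧ ‖w n v - W v‖ ≤ η) :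
    Tendsto (fun n => (1 - Q n (y n) / (Q n x * (1 + τ n * deriv (w n) (y n)) ^ 2)) / τ n) l
      (𝓝 (2 * deriv W x + W x * deriv R x / R x)) := by
  have hQ : TendstoLocallyUniformlyOn Q R l (ball x ε) :=
    t1320_tlu fun η hη => (hc η hη).mono fun n hn v hv => (hn v hv).1
  have hw : TendstoLocallyUniformlyOn w W l (ball x ε) :=
    t1320_tlu fun η hη => (hc η hη).mono fun n hn v hv => (hn v hv).2
  have hx0 : x ∈ ball x ε := mem_ball_self hε
  have hy' : Tendsto y l (𝓝[ball x ε] x) := by rwa [nhdsWithin_eq_nhds.2 (ball_mem_nhds x hε)]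
  have h1 : Tendsto (fun n => Q n x) l (𝓝 (R x)) := hQ.tendsto_at hx0
  have h2 : Tendsto (fun n => w n (y n)) l (𝓝 (W x)) :=
    hw.tendsto_comp (hW.continuousOn x hx0) hx0 hy'
  have h3 : Tendsto (fun n => deriv (w n) (y n)) l (𝓝 (deriv W x)) :=
    (hw.deriv (hd.mono fun n hn => hn.2.2.1) isOpen_ball).tendsto_comp
      ((hW.deriv isOpen_ball).continuousOn x hx0) hx0 hy'
  have h4 : Tendsto (fun n => (Q n x - Q n (y n)) / τ n - deriv R x * w n (y n)) l (𝓝 0) := by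
    refine NormedAddGroup.tendsto_nhds_zero.2 fun η hη => ?_
    have hK : 0 < ‖W x‖ + 1 := by positivity
    filter_upwards [hd, t1320_slope hε hR hy (hd.mono fun n hn => hn.2.1) hQ
      (div_pos (half_pos hη) hK), h2.norm.eventually (gt_mem_nhds (lt_add_one ‖W x‖))]
      with n ⟨a1, _, _, a2⟩ a3 a4
    have a5 : x - y n = τ n * w n (y n) := by rw [← sub_eq_zero]; linear_combination -a2
    have a6 : (Q n x - Q n (y n)) / τ n - deriv R x * w n (y n) =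
        (Q n x - Q n (y n) - deriv R x * (x - y n)) / τ n := by
      rw [a5]
      field_simp
    have a7 : 0 < ‖τ n‖ := norm_pos_iff.2 a1
    rw [a6, norm_div, div_lt_iff₀ a7]
    rw [a5, norm_mul] at a3
    rw [a5]
    have a8 : η / 2 / (‖W x‖ + 1) * (‖τ n‖ * ‖w n (y n)‖) ≤
        η / 2 / (‖W x‖ + 1) * (‖τ n‖ * (‖W x‖ + 1)) :=
      mul_le_mul_of_nonneg_left (mul_le_mul_of_nonneg_left a4.le a7.le) (by positivity)
    have a9 : η / 2 / (‖W x‖ + 1) * (‖τ n‖ * (‖W x‖ + 1)) = η / 2 * ‖τ n‖ := by field_simp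
    nlinarith [mul_pos hη a7]
  have h5 : Tendsto (fun n => (Q n x - Q n (y n)) / τ n) l (𝓝 (deriv R x * W x)) := by
    simpa using h4.add (h2.const_mul (deriv R x))
  have h6 : Tendsto (fun n => 1 + τ n * deriv (w n) (y n)) l (𝓝 1) := by
    simpa using (hτ.mul h3).const_add 1
  have h7 := (h5.add (h1.mul ((h3.const_mul 2).add (hτ.mul (h3.pow 2))))).div (h1.mul (h6.pow 2))
    (by simpa using hx)
  have h8 : (deriv R x * W x + R x * (2 * deriv W x + 0 * deriv W x ^ 2)) / (R x * 1 ^ 2) =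
      2 * deriv W x + W x * deriv R x / R x := by
    field_simp
    ring
  rw [h8] at h7
  refine h7.congr' ?_
  filter_upwards [hd, h1.eventually_ne hx, h6.eventually_ne one_ne_zero] with n ⟨a1, _⟩ a2 a3
  simp only [Pi.div_apply]
  field_simp
  ring

/-- The accumulated error under a multiplicity bound. -/
theorem LI_Err' {e : ℕ} (he : 1 ≤ e) (Y : Cyc e) {b : ℂ} {R : ℝ} {k m : ℕ} {h : ℂ → ℂ} {W : Set ℂ}
    (hc : ‖Y.c‖ ≤ 6) (hR : ‖b‖ + R ≤ 7) (hb : Br e Y.c k h (ball b R)) (hW : MeasurableSet W)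
    (hsub : W ⊆ ball b R) (hm : ∀ (v : ℂ) (J : Finset ℕ),
      (∀ j ∈ J, j ≤ k ∧ ∃ z ∈ W, (fq e Y.c)^[j] (h z) = v) → J.card ≤ m) :
    LI W (Y.Err k h) ≤ m * LI (ball 0 7) Y.err := by
  classical
  obtain ⟨g, hg⟩ : ∃ g : ℕ → ℂ → ℂ, g = fun j v => (fq e Y.c)^[j] (h v) := ⟨_, rfl⟩
  have hgb : ∀ j ∈ Finset.range (k + 1), Br e Y.c (k - j) (g j) (ball b R) := fun j hj => by
    rw [hg]; exact hb.iter (Nat.lt_succ_iff.1 (Finset.mem_range.1 hj))
  have hcont : ∀ j ∈ Finset.range (k + 1), ContinuousOn (g j) W := fun j hj =>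
    (hgb j hj).diff.continuousOn.mono hsub
  have hinj : ∀ j ∈ Finset.range (k + 1), InjOn (g j) W := fun j hj =>
    ((hgb j hj).univ isOpen_ball).inj.mono hsub
  have hmeas : ∀ j ∈ Finset.range (k + 1), MeasurableSet (g j '' W) := fun j hj =>
    hW.image_of_continuousOn_injOn (hcont j hj) (hinj j hj)
  have hu : Measurable fun y => ENNReal.ofReal (Y.err y) := Y.measurable_err.ennreal_ofReal
  have e1 : LI W (Y.Err k h) = ∑ j ∈ Finset.range (k + 1), LI (g j '' W) Y.err := by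
    rw [Finset.sum_congr rfl fun j hj => LI_image hW (h' := deriv (g j))
      (fun z hz => (hgb j hj).diff.hasDerivAt (isOpen_ball.mem_nhds (hsub hz))) (hinj j hj) Y.err]
    unfold LI
    refine Eq.trans (lintegral_congr fun z => ?_) (lintegral_finsetSum' (μ := volume.restrict W)
      (f := fun j z => ENNReal.ofReal (‖deriv (g j) z‖ ^ 2 * Y.err (g j z))) _
      fun j hj => AEMeasurable.ennreal_ofReal
        (((measurable_deriv (g j)).norm.pow_const 2).aemeasurable.mul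
          (Y.measurable_err.comp_aemeasurable ((hcont j hj).aemeasurable hW))))
    rw [hg]
    exact ENNReal.ofReal_sum_of_nonneg fun j _ => mul_nonneg (by positivity) (Y.err_nonneg _)
  rw [e1]
  unfold LI
  rw [Finset.sum_congr rfl fun j hj => (lintegral_indicator (hmeas j hj) _).symm,
    ← lintegral_finsetSum _ fun j hj => hu.indicator (hmeas j hj),
    ← lintegral_indicator measurableSet_ball,
    ← lintegral_const_mul _ (hu.indicator measurableSet_ball)]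
  refine lintegral_mono fun y => ?_
  obtain ⟨J, hJ⟩ : ∃ J, J = (Finset.range (k + 1)).filter fun j => y ∈ g j '' W := ⟨_, rfl⟩
  have hJ' : ∀ j ∈ J, j ∈ Finset.range (k + 1) ∧ y ∈ g j '' W := fun j hj => by
    rw [hJ] at hj; exact Finset.mem_filter.1 hj
  have e2 : ∑ j ∈ Finset.range (k + 1), (g j '' W).indicator (fun y => ENNReal.ofReal (Y.err y)) y =
      J.card * ENNReal.ofReal (Y.err y) := by
    rw [hJ, ← nsmul_eq_mul, ← Finset.sum_const, Finset.sum_filter]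
    exact Finset.sum_congr rfl fun j _ => indicator_apply _ _ _
  have hcard : J.card ≤ m := by
    refine hm y J fun j hj => ?_
    obtain ⟨a1, z, hz, hzy⟩ := hJ' j hj
    rw [hg] at hzy
    exact ⟨Nat.lt_succ_iff.1 (Finset.mem_range.1 a1), z, hz, hzy⟩
  rw [e2]
  rcases J.eq_empty_or_nonempty with h0 | ⟨j, hj⟩
  · simp [h0]
  · obtain ⟨a1, z, hz, rfl⟩ := hJ' j hj
    have hy : g j z ∈ ball (0 : ℂ) 7 := by
      refine mem_ball_zero_iff.2 (back_ball he hc le_rfl (k - j) ?_)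
      rw [(hgb j a1).inv z (hsub hz)]
      have a2 := mem_ball_iff_norm.1 (hsub hz)
      have a3 := norm_sub_norm_le z b
      linarith
    rw [indicator_of_mem hy]
    exact mul_le_mul_left (Nat.cast_le.2 hcard) _

theorem t1322_poly (e : ℕ) (c : ℂ) (k : ℕ) : ∃ p : ℂ[X], ∀ z, p.eval z = (fq e c)^[k] z := by
  induction k with
  | zero => exact ⟨X, fun z => eval_X⟩
  | succ k ih =>
    obtain ⟨p, hp⟩ := ih
    exact ⟨p ^ (e + 1) + C c, fun z => by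
      rw [Function.iterate_succ_apply', eval_add, eval_pow, eval_C, hp, fq]⟩

theorem t1322_two {e : ℕ} (Y : Cyc e) {b : ℂ} (hb : b ∈ Y.B) (k : ℕ) :
    ∃ d, HasDerivAt (fun z => Pd e Y.c z k) d b ∧
      Y.a ((fq e Y.c)^[k] b) * Pd e Y.c b k ^ 2 + d = Y.a b * Pd e Y.c b k := by
  induction k with
  | zero => exact ⟨0, by simpa [Pd_zero] using hasDerivAt_const b (1 : ℂ), by simp [Pd_zero]⟩
  | succ k ih =>
    obtain ⟨d, h1, h2⟩ := ih
    have h3 := (((iter_deriv (e := e) (c := Y.c) k b).fun_pow e).const_mul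
      ((e + 1 : ℕ) : ℂ)).fun_mul h1
    refine ⟨_, by simpa only [Pd_succ'] using h3, ?_⟩
    have hw := Y.iter_mem hb k
    have h0 := Y.ne0 _ hw
    have hd : ((e + 1 : ℕ) : ℂ) ≠ 0 := Nat.cast_ne_zero.mpr (Nat.succ_ne_zero e)
    rw [Function.iterate_succ_apply', Y.rc _ hw, Pd_succ', lam,
      show d = Y.a b * Pd e Y.c b k - Y.a ((fq e Y.c)^[k] b) * Pd e Y.c b k ^ 2 by
        linear_combination h2]
    generalize (fq e Y.c)^[k] b = w at *
    rcases e with _ | m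
    · simp
    · rw [Nat.add_sub_cancel]
      field_simp
      ring

theorem t1322_U {e : ℕ} (Y : Cyc e) {b : ℂ} (hb : b ∈ Y.B) : deriv (Y.U b) b = Y.a b := by
  have h0 : (Y.Db b).eval b ≠ 0 := Y.Db_ne fun _ => rfl
  have h1 : (derivative Y.N).eval b =
      Y.a b * (Y.Db b).eval b ^ 2 + 2 * (Y.Db b).eval b * (derivative (Y.Db b)).eval b := by
    rw [Cyc.N, derivative_sum, eval_finsetSum, Finset.sum_eq_single_of_mem b hb]
    · simp [derivative_mul, derivative_pow]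
    · intro b' _ hne
      have : (Y.Db b').eval b = 0 := by
        rw [Cyc.Db, eval_prod]
        exact Finset.prod_eq_zero (Finset.mem_erase.2 ⟨hne.symm, hb⟩) (by simp)
      simp [derivative_mul, derivative_pow, this]
  have h2 := (Y.N.hasDerivAt b).fun_div (((Y.Db b).hasDerivAt b).fun_pow 2) (pow_ne_zero 2 h0)
  refine h2.deriv.trans ?_
  rw [h1, Y.t1048_N hb]
  field_simp
  ring

theorem Cyc.psi_at {e : ℕ} (Y : Cyc e) (hρ : Y.ρ ≠ 1) {Ψ : ℂ[X]}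
    (h : ∀ z ∉ Y.B, Ψ.eval z = (((fq e Y.c)^[Y.B.card] z - z) / (Y.ρ - 1)) ^ 2 * Y.q z)
    {b : ℂ} (hb : b ∈ Y.B) :
    Ψ.eval b = 1 ∧ deriv (fun z => Ψ.eval z) b = (1 - Y.ρ) * deriv (Y.U b) b := by
  have hτ : Y.ρ - 1 ≠ 0 := sub_ne_zero.2 hρ
  obtain ⟨p, hp⟩ := t1322_poly e Y.c Y.B.card
  obtain ⟨G, hG⟩ : X - C b ∣ p - X := dvd_iff_isRoot.2 (by simp [hp, Y.fix b hb])
  have hP : ∀ z, Pd e Y.c z Y.B.card = (derivative p).eval z := fun z => by
    rw [Pd, ← funext hp]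
    exact p.deriv
  have hG1 : derivative p = 1 + (G + (X - C b) * derivative G) := by
    have := congrArg derivative hG
    simp only [derivative_sub, derivative_mul, derivative_X, derivative_C] at this
    linear_combination this
  have g0 : G.eval b = Y.ρ - 1 := by
    rw [← Y.mult b hb, hP, hG1]
    simp
  have g1 : 2 * (derivative G).eval b = Y.a b * Y.ρ - Y.a b * Y.ρ ^ 2 := by
    obtain ⟨d, h1, h2⟩ := t1322_two Y hb Y.B.card
    rw [Y.fix b hb, Y.mult b hb] at h2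
    rw [funext hP] at h1
    have h3 := h1.unique ((derivative p).hasDerivAt b)
    rw [hG1] at h3
    simp [derivative_mul] at h3
    linear_combination h2 - h3
  have hU := Y.U_diff (b := b) (z := b) fun _ => rfl
  have hD := (((G.hasDerivAt b).div_const (Y.ρ - 1)).fun_pow 2).fun_mul hU.hasDerivAt
  have e1 : (fun z => Ψ.eval z) =ᶠ[𝓝[≠] b] fun z => (G.eval z / (Y.ρ - 1)) ^ 2 * Y.U b z := by
    have h1 : ∀ᶠ z in 𝓝 b, z ∉ Y.B.erase b :=
      (Y.B.erase b).finite_toSet.isClosed.isOpen_compl.mem_nhds (by simp)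
    filter_upwards [nhdsWithin_le_nhds h1, self_mem_nhdsWithin] with z h2 h3
    have h4 : z ∉ Y.B := fun h5 => h2 (Finset.mem_erase.2 ⟨h3, h5⟩)
    have h5 := congrArg (eval z) hG
    have h6 : z - b ≠ 0 := sub_ne_zero.2 h3
    simp only [eval_sub, eval_mul, eval_X, eval_C, hp] at h5
    rw [h z h4, Y.q_eq hb h4, h5]
    field_simp
  have e2 : (fun z => Ψ.eval z) =ᶠ[𝓝 b] fun z => (G.eval z / (Y.ρ - 1)) ^ 2 * Y.U b z :=
    (Ψ.continuous.continuousAt.eventuallyEq_nhds_iff_eventuallyEq_nhdsNE hD.continuousAt).1 e1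
  refine ⟨?_, ?_⟩
  · rw [e2.eq_of_nhds, g0, div_self hτ, Y.U_self hb]
    simp
  · rw [e2.deriv_eq, hD.deriv, g0, div_self hτ, Y.U_self hb, t1322_U Y hb]
    field_simp
    linear_combination g1

theorem Cyc.q_cnt {e : ℕ} (Y : Cyc e) :
    (∀ T : Finset ℂ, (∀ z ∈ T, z ∉ Y.B ∧ Y.q z = 0) → T.card < 2 * Y.B.card) ∧
      ∀ w : ℂ, w ≠ 4 → ∀ T : Finset ℂ,
        (∀ z ∈ T, z ∉ Y.B ∧ deriv Y.q z ^ 2 = w * Y.q z ^ 3) → T.card < 6 * Y.B.card := by
  have hD : ∀ z ∉ Y.B, Y.D.eval z ≠ 0 := fun z hz => by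
    obtain ⟨b, hb⟩ := Y.ne
    rw [Y.t1048_D hb, eval_mul]
    exact mul_ne_zero (by simpa [sub_eq_zero] using fun h : z = b => hz (h ▸ hb))
      (Y.Db_ne fun h => absurd h hz)
  refine ⟨fun T hT => Y.N_card fun z hz => ?_, fun w hw T hT => Y.W_card hw fun z hz => ?_⟩
  · obtain ⟨h1, h2⟩ := hT z hz
    rwa [Y.t1048_q h1, div_eq_zero_iff, or_iff_left (pow_ne_zero 2 (hD z h1))] at h2
  · obtain ⟨h1, h2⟩ := hT z hz
    have h0 := hD z h1
    have e1 : Y.q =ᶠ[𝓝 z] fun v => Y.N.eval v / Y.D.eval v ^ 2 := by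
      filter_upwards [Y.B.finite_toSet.isClosed.isOpen_compl.mem_nhds h1] with v hv
      exact Y.t1048_q hv
    have h3 := (Y.N.hasDerivAt z).fun_div ((Y.D.hasDerivAt z).fun_pow 2) (pow_ne_zero 2 h0)
    have h4 : deriv Y.q z = -Y.M.eval z / Y.D.eval z ^ 3 := by
      rw [e1.deriv_eq, h3.deriv, Cyc.M]
      simp only [eval_sub, eval_mul, eval_ofNat]
      field_simp
      ring
    rw [h4, Y.t1048_q h1, div_pow, div_pow, ← mul_div_assoc, ← pow_mul, ← pow_mul,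
      div_left_inj' (pow_ne_zero _ h0), neg_sq] at h2
    simp only [eval_sub, eval_pow, eval_mul, eval_C, sub_eq_zero, h2]

/-- The iterate as a polynomial in `z` with coefficients polynomial in `c`. -/
theorem t1323_poly (e n : ℕ) : ∃ P : ℂ[X][X], P.natDegree ≤ (e + 1) ^ n ∧
    (∀ c z : ℂ, (P.map (evalRingHom c)).eval z = (fq e c)^[n] z) ∧
    P.map (evalRingHom 0) = X ^ (e + 1) ^ n := by
  induction n with
  | zero => exact ⟨X, by simp, fun c z => by simp, by simp⟩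
  | succ n ih =>
    obtain ⟨P, h1, h2, h3⟩ := ih
    refine ⟨P ^ (e + 1) + C X, ?_, fun c z => ?_, ?_⟩
    · refine (natDegree_add_le _ _).trans (max_le (natDegree_pow_le.trans ?_) (by simp))
      rw [pow_succ']
      exact Nat.mul_le_mul_left _ h1
    · rw [Function.iterate_succ_apply', ← h2]
      simp [fq]
    · rw [Polynomial.map_add, Polynomial.map_pow, h3, ← pow_mul, ← pow_succ]
      simp

theorem t1323_cop (m : ℕ) :
    IsCoprime (X ^ (m + 2) - X : ℂ[X]) (derivative (X ^ (m + 2) - X : ℂ[X])) := by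
  have h0 : ((m : ℂ) + 1) ≠ 0 := Nat.cast_add_one_ne_zero m
  have hk : (C ((m : ℂ) + 1)⁻¹ : ℂ[X]) * ((m : ℂ[X]) + 1) = 1 := by
    rw [show ((m : ℂ[X]) + 1) = C ((m : ℂ) + 1) by simp, ← C_mul, inv_mul_cancel₀ h0, C_1]
  have hd : derivative (X ^ (m + 2) - X : ℂ[X]) = ((m : ℂ[X]) + 2) * X ^ (m + 1) - 1 := by
    simp [add_assoc, one_add_one_eq_two, map_ofNat]
  rw [hd]
  generalize (C ((m : ℂ) + 1)⁻¹ : ℂ[X]) = k at hk
  refine ⟨-((m : ℂ[X]) + 2) ^ 2 * X ^ m * k, ((m : ℂ[X]) + 2) * X ^ (m + 1) * k - 1, ?_⟩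
  linear_combination (((m : ℂ[X]) + 2) * X ^ (m + 1)) * hk

/-- Only finitely many parameters have a fixed point of the iterate with multiplier one. -/
theorem t1323_fin {e : ℕ} (he : 1 ≤ e) {n : ℕ} (hn : 0 < n) :
    {c : ℂ | ∃ z, (fq e c)^[n] z = z ∧ Pd e c z n = 1}.Finite := by
  obtain ⟨P, h1, h2, h3⟩ := t1323_poly e n
  obtain ⟨m, hm⟩ : ∃ m, (e + 1) ^ n = m + 2 :=
    ⟨(e + 1) ^ n - 2, (Nat.sub_add_cancel (Nat.one_lt_pow hn.ne' (by omega))).symm⟩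
  rw [hm] at h1 h3
  have a1 : (P - X).natDegree ≤ m + 2 :=
    (natDegree_sub_le _ _).trans (max_le h1 (by simp))
  have a2 : (derivative (P - X)).natDegree ≤ m + 1 :=
    (natDegree_derivative_le _).trans (by omega)
  obtain ⟨p, q, -, -, hpq⟩ := exists_mul_add_mul_eq_C_resultant _ _ a1 a2 (Or.inl (by omega))
  obtain ⟨r, hr⟩ : ∃ r, r = resultant (P - X) (derivative (P - X)) (m + 2) (m + 1) := ⟨_, rfl⟩
  rw [← hr] at hpq
  have hr0 : r ≠ 0 := by
    intro h0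
    have b1 := resultant_map_map (P - X) (derivative (P - X)) (m + 2) (m + 1) (evalRingHom (0 : ℂ))
    have b2 : (P - X).map (evalRingHom (0 : ℂ)) = X ^ (m + 2) - X := by
      rw [Polynomial.map_sub, h3, map_X]
    have b3 : (X ^ (m + 2) - X : ℂ[X]).natDegree = m + 2 := by
      rw [natDegree_sub_eq_left_of_natDegree_lt (by simp), natDegree_X_pow]
    have b4 : (derivative (X ^ (m + 2) - X : ℂ[X])).natDegree = m + 1 := by
      rw [natDegree_derivative, b3]; rfl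
    have b5 := resultant_ne_zero _ _ (t1323_cop m)
    rw [b3, b4] at b5
    rw [← derivative_map, b2, ← hr, h0, map_zero] at b1
    exact b5 b1
  refine (r.roots.finite_toSet).subset ?_
  rintro c ⟨z, hz1, hz2⟩
  have c1 : (fq e c)^[n] = fun w => (P.map (evalRingHom c)).eval w := funext fun w => (h2 c w).symm
  have c2 : (derivative (P.map (evalRingHom c))).eval z = 1 := by
    rw [← hz2, Pd, c1, Polynomial.deriv]
  have c3 := congrArg (fun T : ℂ[X][X] => (T.map (evalRingHom c)).eval z) hpq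
  simp only [Polynomial.map_add, Polynomial.map_mul, eval_add, eval_mul, ← derivative_map,
    Polynomial.map_sub, Polynomial.map_one, map_X, derivative_sub, derivative_X, eval_sub, eval_X, eval_one, h2, hz1,
    c2, sub_self, zero_mul, add_zero, map_C, eval_C, coe_evalRingHom] at c3
  exact (mem_roots hr0).2 c3.symm

theorem t1323_roots {e : ℕ} (he : 1 ≤ e) {n : ℕ} (hn : 0 < n) (c : ℂ) :
    {w : ℂ | (fq e c)^[n] w = w}.Finite := by
  obtain ⟨P, -, h2, -⟩ := t1323_poly e n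
  have h0 : P.map (evalRingHom c) - X ≠ 0 := by
    intro h
    have a1 := t57_esc' he (c := c) (w := ((‖c‖ + 2 : ℝ) : ℂ))
      (by rw [Complex.norm_real, Real.norm_eq_abs]; exact le_abs_self _) n
    have a2 : (0 : ℝ) < n := Nat.cast_pos.2 hn
    rw [← h2, sub_eq_zero.1 h, eval_X] at a1
    linarith
  refine ((P.map (evalRingHom c) - X).roots.finite_toSet).subset fun w hw => ?_
  refine (mem_roots h0).2 ?_
  have hw : (fq e c)^[n] w = w := hw
  rw [IsRoot, eval_sub, h2, eval_X, hw, sub_self]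

/-- A parabolic cycle can be perturbed to a cycle of the same period with multiplier `≠ 1`. -/
theorem perturb_one {e : ℕ} (he : 1 ≤ e) {c z : ℂ} {n : ℕ} (hn : 0 < n)
    (hper : Function.minimalPeriod (fq e c) z = n) {η : ℝ} (hη : 0 < η) :
    ∃ c' z' : ℂ, ‖c' - c‖ ≤ η ∧ Function.minimalPeriod (fq e c') z' = n ∧ Pd e c' z' n ≠ 1 ∧
      ‖Pd e c' z' n - Pd e c z n‖ ≤ η := by
  obtain ⟨Q, q1, -, q3⟩ := t57_div (e := e) n
  obtain ⟨h1, h2⟩ := (t57_per hn).1 hper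
  have a1 : ∀ᶠ p : ℂ × ℂ in 𝓝 (c, z), ∀ d ∈ Ioo 0 n, (fq e p.1)^[d] p.2 ≠ p.2 :=
    (eventually_all_finite (finite_Ioo 0 n)).2 fun d hd =>
      (isOpen_ne_fun (t57_cont d) continuous_snd).mem_nhds (h2 d hd)
  have a2 : ∀ᶠ p : ℂ × ℂ in 𝓝 (c, z), ‖Pd e p.1 p.2 n - Pd e c z n‖ < η := by
    have b1 : Continuous fun p : ℂ × ℂ => ‖Q (p.1, p.2, p.2) - Pd e c z n‖ := by fun_prop
    simp only [q3] at b1
    exact (isOpen_lt b1 continuous_const).mem_nhds (by simpa using hη)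
  obtain ⟨δ, hδ, hd⟩ := Metric.eventually_nhds_iff.1 (a1.and a2)
  obtain ⟨r, hr, hr'⟩ := (Set.Ioo_infinite hδ).exists_notMem_finite
    ((t1323_roots he hn c).image fun w => dist w z)
  have a3 : ∀ᶠ c' in 𝓝 c, ∀ w ∈ sphere z r, ‖(fq e c')^[n] z - z‖ < ‖(fq e c')^[n] w - w‖ := by
    refine (isCompact_sphere z r).eventually_forall_of_forall_eventually fun w hw => ?_
    have b1 : Continuous fun p : ℂ × ℂ => ‖(fq e p.1)^[n] z - z‖ :=
      (((t57_cont n).comp (continuous_fst.prodMk continuous_const)).sub continuous_const).norm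
    have b2 : Continuous fun p : ℂ × ℂ => ‖(fq e p.1)^[n] p.2 - p.2‖ :=
      ((t57_cont n).sub continuous_snd).norm
    refine (isOpen_lt b1 b2).mem_nhds ?_
    show ‖(fq e c)^[n] z - z‖ < ‖(fq e c)^[n] w - w‖
    rw [h1, sub_self, norm_zero, norm_pos_iff, sub_ne_zero]
    exact fun h => hr' ⟨w, h, hw⟩
  obtain ⟨c', ⟨b1, b2⟩, b3⟩ := (infinite_of_mem_nhds c (a3.and
    (ball_mem_nhds c (lt_min hδ hη)))).exists_notMem_finite (t1323_fin he hn)
  have b4 : dist c' c < min δ η := b2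
  have b5 : Differentiable ℂ fun w => (fq e c')^[n] w - w := fun w =>
    (iter_deriv (e := e) (c := c') n w).differentiableAt.sub differentiableAt_id
  obtain ⟨z', b6, b7⟩ := t37_zero_of_lt hr.1 b5.diffContOnCl b1
  have b8 : (fq e c')^[n] z' = z' := sub_eq_zero.1 b7
  obtain ⟨b9, b10⟩ := @hd (c', z') (by
    rw [Prod.dist_eq]
    exact max_lt (b4.trans_le (min_le_left _ _)) ((mem_ball.1 b6).trans hr.2))
  exact ⟨c', z', by rw [← dist_eq_norm]; exact (b4.trans_le (min_le_right _ _)).le,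
    (t57_per hn).2 ⟨b8, b9⟩, fun h => b3 ⟨z', b8, h⟩, b10.le⟩

/-- An attracting cycle attracts the critical point. -/
theorem fatou' {e : ℕ} (he : 1 ≤ e) {c z : ℂ} {n : ℕ} (hn : 0 < n)
    (hper : Function.minimalPeriod (fq e c) z = n) (h : ‖Pd e c z n‖ < 1) :
    ∃ z' : ℂ, Function.minimalPeriod (fq e c) z' = n ∧ Pd e c z' n = Pd e c z n ∧
      Tendsto (fun k : ℕ => (fq e c)^[n * k] 0) atTop (𝓝 z') := by
  by_cases h0 : Pd e c z n = 0
  · have h1 : ∀ k, Pd e c z k = 0 → ∃ j, (fq e c)^[j] z = 0 := fun k => by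
      induction k with
      | zero => simp [Pd_zero]
      | succ k ih =>
        intro hk
        rw [Pd_succ'] at hk
        rcases mul_eq_zero.1 hk with h2 | h2
        · exact ⟨k, pow_eq_zero_iff (by omega) |>.1
            ((mul_eq_zero.1 h2).resolve_left (Nat.cast_ne_zero.mpr (Nat.succ_ne_zero e)))⟩
        · exact ih h2
    obtain ⟨j, hj⟩ := h1 n h0
    have h2 : Function.minimalPeriod (fq e c) 0 = n := by
      rw [← hj, Function.minimalPeriod_apply_iterate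
        (Function.minimalPeriod_pos_iff_mem_periodicPts.1 (hper ▸ hn)), hper]
    refine ⟨0, h2, ?_, ?_⟩
    · obtain ⟨m, rfl⟩ : ∃ m, n = m + 1 := ⟨n - 1, by omega⟩
      rw [h0, Pd_succ, zero_pow (by omega), mul_zero, mul_zero]
    · have h3 : Function.IsPeriodicPt (fq e c) n 0 := h2 ▸ Function.isPeriodicPt_minimalPeriod _ _
      exact tendsto_const_nhds.congr fun k => (h3.mul_const k).eq.symm
  · exact fatou he hn hper h0 h

end Pool.Agent.MP_28f8a1_an.H42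



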