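import Pool.Agent.MP_28f8a1_an.H42.Defs

/-! Harnack, Montel, Hurwitz and the alignment lemma. -/

set_option autoImplicit false

namespace Pool.Agent.MP_28f8a1_an.H42

open MeasureTheory Metric Set Real Filter Topology Polynomial
open scoped ENNReal

theorem t35_den {a z : ℂ} (ha : 0 < a.re) (hz : 0 ≤ z.re) : z + starRingEnd ℂ a ≠ 0 := by
  intro h
  have := congrArg Complex.re h
  simp only [Complex.add_re, Complex.conj_re, Complex.zero_re] at this
  linarith

theorem t35_cayley {P : ℂ → ℂ} {c : ℂ} {R : ℝ} (hP : DifferentiableOn ℂ P (ball c R))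
    (hpos : ∀ w ∈ ball c R, 0 ≤ (P w).re) (hc : 0 < (P c).re) :
    DifferentiableOn ℂ (fun w => (P w - P c) / (P w + starRingEnd ℂ (P c))) (ball c R) ∧
    MapsTo (fun w => (P w - P c) / (P w + starRingEnd ℂ (P c))) (ball c R)
      (closedBall ((fun w => (P w - P c) / (P w + starRingEnd ℂ (P c))) c) 1) := by
  refine ⟨(hP.sub_const _).div (hP.add_const _) fun w hw => t35_den hc (hpos w hw),
    fun w hw => ?_⟩
  simp only [sub_self, zero_div, mem_closedBall_zero_iff, norm_div]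
  rw [div_le_one (norm_pos_iff.mpr (t35_den hc (hpos w hw))),
    ← sq_le_sq₀ (norm_nonneg _) (norm_nonneg _)]
  simp only [Complex.sq_norm, Complex.normSq_apply, Complex.sub_re, Complex.sub_im,
    Complex.add_re, Complex.add_im, Complex.conj_re, Complex.conj_im]
  nlinarith [mul_nonneg hc.le (hpos w hw)]

theorem t35_pos {P : ℂ → ℂ} {c : ℂ} {R : ℝ} (hP : DifferentiableOn ℂ P (ball c R))
    (hpos : ∀ w ∈ ball c R, 0 ≤ (P w).re) (hc : 0 < (P c).re) {w : ℂ} (hw : w ∈ ball c R) :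
    (1 - ‖w - c‖ / R) * ‖P w‖ ≤ (1 + ‖w - c‖ / R) * ‖P c‖ := by
  obtain ⟨h1, h2⟩ := t35_cayley hP hpos hc
  have h3 := Complex.dist_le_div_mul_dist_of_mapsTo_ball h1 h2 hw
  simp only [sub_self, zero_div, dist_eq_norm, sub_zero] at h3
  have hφ : ‖(P w - P c) / (P w + starRingEnd ℂ (P c))‖ ≤ ‖w - c‖ / R := h3.trans_eq (by ring)
  have h : P w * (1 - (P w - P c) / (P w + starRingEnd ℂ (P c))) =
      P c + (P w - P c) / (P w + starRingEnd ℂ (P c)) * starRingEnd ℂ (P c) := by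
    have := t35_den hc (hpos w hw)
    field_simp
    ring
  generalize (P w - P c) / (P w + starRingEnd ℂ (P c)) = φ at hφ h
  have hn := congrArg norm h
  rw [norm_mul] at hn
  have h4 : 1 - ‖φ‖ ≤ ‖1 - φ‖ := by simpa using norm_sub_norm_le 1 φ
  have h5 : ‖P c + φ * starRingEnd ℂ (P c)‖ ≤ ‖P c‖ + ‖φ‖ * ‖P c‖ := by
    simpa using norm_add_le (P c) (φ * starRingEnd ℂ (P c))
  linarith [mul_le_mul_of_nonneg_left h4 (norm_nonneg (P w)),
    mul_le_mul_of_nonneg_right hφ (norm_nonneg (P c)),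
    mul_le_mul_of_nonneg_right hφ (norm_nonneg (P w))]

theorem t35_lim (f g : ℝ → ℝ) (hf : Continuous f) (hg : Continuous g)
    (h : ∀ η, 0 < η → f η ≤ g η) : f 0 ≤ g 0 :=
  le_of_tendsto_of_tendsto (b := 𝓝[>] 0)
    (hf.tendsto 0 |>.mono_left nhdsWithin_le_nhds) (hg.tendsto 0 |>.mono_left nhdsWithin_le_nhds)
    (by filter_upwards [self_mem_nhdsWithin] with η hη using h η hη)

/-- Harnack's inequality for holomorphic functions with non-negative real part. -/
theorem harnack {P : ℂ → ℂ} {c : ℂ} {R : ℝ} (hP : DifferentiableOn ℂ P (ball c R))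
    (hpos : ∀ w ∈ ball c R, 0 ≤ (P w).re) {w : ℂ} (hw : w ∈ ball c R) :
    (R - ‖w - c‖) * ‖P w‖ ≤ (R + ‖w - c‖) * ‖P c‖ := by
  have hR : 0 < R := pos_of_mem_ball hw
  have hc : c ∈ ball c R := mem_ball_self hR
  have key : ∀ η : ℝ, 0 < η →
      (1 - ‖w - c‖ / R) * ‖P w + η‖ ≤ (1 + ‖w - c‖ / R) * ‖P c + η‖ := fun η hη =>
    t35_pos (P := fun w => P w + η) (hP.add_const _)
      (fun x hx => by simpa using add_nonneg (hpos x hx) hη.le)
      (by simpa using add_pos_of_nonneg_of_pos (hpos c hc) hη) hw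
  have e1 : R - ‖w - c‖ = R * (1 - ‖w - c‖ / R) := by field_simp
  have e2 : R + ‖w - c‖ = R * (1 + ‖w - c‖ / R) := by field_simp
  rw [e1, e2, mul_assoc, mul_assoc]
  refine mul_le_mul_of_nonneg_left ?_ hR.le
  simpa using t35_lim _ _ (by fun_prop) (by fun_prop) key

theorem t35_deriv {P : ℂ → ℂ} {c : ℂ} {R : ℝ} (hR : 0 < R) (hP : DifferentiableOn ℂ P (ball c R))
    (hpos : ∀ w ∈ ball c R, 0 ≤ (P w).re) (hc : 0 < (P c).re) :
    ‖deriv P c‖ ≤ 2 * (P c).re / R := by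
  obtain ⟨h1, h2⟩ := t35_cayley hP hpos hc
  have h3 := Complex.norm_deriv_le_div_of_mapsTo_ball h1 h2 hR
  have hd := (hP.differentiableAt (ball_mem_nhds c hR)).hasDerivAt
  have hne := t35_den hc hc.le
  have h4 : HasDerivAt (fun w => (P w - P c) / (P w + starRingEnd ℂ (P c))) _ c :=
    (hd.sub_const (P c)).div (hd.add_const (starRingEnd ℂ (P c))) hne
  rw [h4.deriv, sub_self, zero_mul, sub_zero, pow_two, mul_div_mul_right _ _ hne, norm_div,
    Complex.add_conj, Complex.norm_real, Real.norm_eq_abs, abs_of_pos (by linarith),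
    div_le_iff₀ (by linarith)] at h3
  refine h3.trans_eq ?_
  ring

theorem harnack_deriv {P : ℂ → ℂ} {c : ℂ} {R : ℝ} (hR : 0 < R)
    (hP : DifferentiableOn ℂ P (ball c R)) (hpos : ∀ w ∈ ball c R, 0 ≤ (P w).re) :
    ‖deriv P c‖ ≤ 2 * (P c).re / R := by
  have key : ∀ η : ℝ, 0 < η → ‖deriv P c‖ ≤ 2 * ((P c).re + η) / R := fun η hη => by
    have h := t35_deriv (P := fun w => P w + η) hR (hP.add_const _)
      (fun x hx => by simpa using add_nonneg (hpos x hx) hη.le)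
      (by simpa using add_pos_of_nonneg_of_pos (hpos c (mem_ball_self hR)) hη)
    rwa [deriv_add_const, Complex.add_re, Complex.ofReal_re] at h
  simpa using t35_lim (fun _ => ‖deriv P c‖) (fun η => 2 * ((P c).re + η) / R) (by fun_prop)
    (by fun_prop) key

/-- Maximum principle on a disc. -/
theorem max_disc {F : ℂ → ℂ} {x : ℂ} {s R m : ℝ} (hs : 0 < s) (hsR : s < R)
    (hF : DifferentiableOn ℂ F (ball x R)) (h : ∀ y, ‖y - x‖ = s → ‖F y‖ ≤ m) :
    ∀ y, ‖y - x‖ ≤ s → ‖F y‖ ≤ m := fun y hy =>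
  Complex.norm_le_of_forall_mem_frontier_norm_le isBounded_ball
    (hF.diffContOnCl_ball (closedBall_subset_ball hsR))
    (fun z hz => h z (by rwa [frontier_ball x hs.ne', mem_sphere_iff_norm] at hz))
    (by rwa [closure_ball x hs.ne', mem_closedBall_iff_norm])

/-- Montel's theorem on the plane along an ultrafilter. -/
theorem montel (𝒰 : Ultrafilter ℕ) {u : ℕ → ℂ → ℂ}
    (h : ∀ L : ℝ, ∃ m : ℝ, ∀ᶠ n in (𝒰 : Filter ℕ), DifferentiableOn ℂ (u n) (ball 0 L) ∧
      ∀ y ∈ ball (0 : ℂ) L, ‖u n y‖ ≤ m) :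
    ∃ U : ℂ → ℂ, Differentiable ℂ U ∧ ∀ L η : ℝ, 0 < η → ∀ᶠ n in (𝒰 : Filter ℕ),
      ∀ y ∈ ball (0 : ℂ) L, ‖u n y - U y‖ ≤ η := by
  have hlim : ∀ x, ∃ y, Tendsto (fun k => u k x) 𝒰 (𝓝 y) := by
    intro x
    obtain ⟨M, hM⟩ := h (‖x‖ + 1)
    have h1 : (↑(𝒰.map fun k => u k x) : Filter ℂ) ≤ 𝓟 (closedBall (0 : ℂ) M) := by
      rw [le_principal_iff, Ultrafilter.coe_map, mem_map]
      filter_upwards [hM] with k hk
      simpa using hk.2 x (by simp)
    obtain ⟨y, -, hy⟩ := (isCompact_closedBall (0 : ℂ) M).ultrafilter_le_nhds _ h1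
    exact ⟨y, hy⟩
  choose g hg using hlim
  have key : TendstoLocallyUniformlyOn u g 𝒰 univ := by
    rw [Metric.tendstoLocallyUniformlyOn_iff]
    intro ε hε x _
    obtain ⟨M, hM⟩ := h (‖x‖ + 1)
    have hsU : ball x 1 ⊆ ball 0 (‖x‖ + 1) := ball_subset_ball' (by simp [add_comm])
    have hlip : ∀ᶠ k in (𝒰 : Filter ℕ), ∀ y ∈ ball x 1,
        dist (u k y) (u k x) ≤ 2 * M / 1 * dist y x := by
      filter_upwards [hM] with k hk y hy
      refine Complex.dist_le_div_mul_dist_of_mapsTo_ball (hk.1.mono hsU) ?_ hy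
      intro z hz
      have a1 := hk.2 z (hsU hz)
      have a2 := hk.2 x (hsU (mem_ball_self one_pos))
      rw [mem_closedBall, dist_eq_norm]
      exact (norm_sub_le _ _).trans (by linarith)
    have hglip : ∀ y ∈ ball x 1, dist (g y) (g x) ≤ 2 * M / 1 * dist y x := by
      intro y hy
      refine le_of_tendsto ((hg y).dist (hg x)) ?_
      filter_upwards [hlip] with k hk using hk y hy
    have hc : ContinuousAt (fun y : ℂ => 2 * M / 1 * dist y x) x := by fun_prop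
    have hev : ∀ᶠ y in 𝓝 x, 2 * M / 1 * dist y x < ε / 3 :=
      hc.eventually (gt_mem_nhds (by simpa using hε))
    refine ⟨{y | 2 * M / 1 * dist y x < ε / 3} ∩ ball x 1,
      mem_nhdsWithin_of_mem_nhds (inter_mem hev (ball_mem_nhds _ one_pos)), ?_⟩
    have h3 := (Metric.tendsto_nhds.1 (hg x)) (ε / 3) (by positivity)
    filter_upwards [hlip, h3] with k h1 h2 y hy
    have b1 := h1 y hy.2
    have b2 := hglip y hy.2
    have b3 : 2 * M / 1 * dist y x < ε / 3 := hy.1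
    have := dist_triangle4 (g y) (g x) (u k x) (u k y)
    rw [dist_comm (g x), dist_comm (u k x) (u k y)] at this
    linarith
  refine ⟨g, fun x => ?_, fun L η hη => ?_⟩
  · obtain ⟨M, hM⟩ := h (‖x‖ + 1)
    exact ((key.mono (subset_univ _)).differentiableOn (hM.mono fun k hk => hk.1)
      isOpen_ball).differentiableAt (isOpen_ball.mem_nhds (by simp))
  · have hu : TendstoUniformlyOn u g 𝒰 (closedBall 0 L) :=
      (tendstoLocallyUniformlyOn_iff_tendstoUniformlyOn_of_compact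
        (isCompact_closedBall 0 L)).1 (key.mono (subset_univ _))
    filter_upwards [Metric.tendstoUniformlyOn_iff.1 hu η hη] with k hk y hy
    rw [← dist_eq_norm, dist_comm]
    exact (hk y (ball_subset_closedBall hy)).le

/-- A function which is smaller at the centre than on the circle has a zero. -/
theorem t37_zero_of_lt {g : ℂ → ℂ} {c : ℂ} {r : ℝ} (hr : 0 < r) (hg : DiffContOnCl ℂ g (ball c r))
    (h : ∀ w ∈ sphere c r, ‖g c‖ < ‖g w‖) : ∃ w ∈ ball c r, g w = 0 := by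
  by_contra hne
  push Not at hne
  obtain ⟨w₀, hw₀, hmin⟩ := (isCompact_sphere c r).exists_isMinOn
    (NormedSpace.sphere_nonempty.2 hr.le)
    ((hg.continuousOn_ball.mono sphere_subset_closedBall).norm)
  have hm := h w₀ hw₀
  have hc0 : 0 < ‖g c‖ := norm_pos_iff.2 (hne c (mem_ball_self hr))
  have hnz : ∀ w ∈ closure (ball c r), g w ≠ 0 := by
    intro w hw
    rw [closure_ball c hr.ne', ← ball_union_sphere] at hw
    rcases hw with hw | hw
    · exact hne w hw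
    · exact norm_pos_iff.1 (hc0.trans (h w hw))
  have hd : DiffContOnCl ℂ g⁻¹ (ball c r) := hg.inv hnz
  have := Complex.norm_le_of_forall_mem_frontier_norm_le (C := ‖g w₀‖⁻¹) isBounded_ball hd
    (fun z hz => by
      rw [frontier_ball c hr.ne'] at hz
      rw [Pi.inv_apply, norm_inv]
      exact inv_anti₀ (hc0.trans hm) (hmin hz)) (subset_closure (mem_ball_self hr))
  rw [Pi.inv_apply, norm_inv] at this
  exact absurd this (not_le.2 (inv_strictAnti₀ hc0 hm))

/-- Zeros of a non-zero entire function are stable. -/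
theorem t37_stab {G : ℂ → ℂ} (hG : Differentiable ℂ G) (h0 : G 0 ≠ 0) (x : ℂ) {ε : ℝ}
    (hε : 0 < ε) : ∃ m > 0, ∀ g : ℂ → ℂ, DifferentiableOn ℂ g (ball 0 (‖x‖ + 2)) →
      (∀ y : ℂ, ‖y‖ ≤ ‖x‖ + 1 / 2 → ‖g y - G y‖ ≤ m) → G x = 0 → ∃ y ∈ ball x ε, g y = 0 := by
  have hA : AnalyticOnNhd ℂ G univ := fun z _ => hG.analyticAt z
  have h1 : ∀ᶠ z in 𝓝[≠] x, G z ≠ 0 :=
    (hA x trivial).eventually_eq_zero_or_eventually_ne_zero.resolve_left fun h =>
      h0 (hA.eqOn_zero_of_preconnected_of_eventuallyEq_zero isPreconnected_univ (mem_univ x) h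
        (mem_univ 0))
  obtain ⟨δ, hδ, h2⟩ := Metric.eventually_nhds_iff.1 (eventually_nhdsWithin_iff.1 h1)
  obtain ⟨r, hr, h3⟩ := exists_between (lt_min hδ (lt_min hε one_half_pos))
  rw [lt_min_iff, lt_min_iff] at h3
  obtain ⟨w₀, hw₀, hmin⟩ := (isCompact_sphere x r).exists_isMinOn
    (NormedSpace.sphere_nonempty.2 hr.le) hG.continuous.continuousOn.norm
  have hm : 0 < ‖G w₀‖ := norm_pos_iff.2 (h2 ((mem_sphere.1 hw₀).trans_lt h3.1) fun h => by
    rw [mem_singleton_iff.1 h, mem_sphere, dist_self] at hw₀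
    exact hr.ne hw₀)
  have hn : ∀ y ∈ closedBall x r, ‖y‖ ≤ ‖x‖ + 1 / 2 := fun y hy => by
    have := norm_le_norm_add_norm_sub' y x
    rw [mem_closedBall, dist_eq_norm] at hy
    linarith [h3.2.2]
  refine ⟨‖G w₀‖ / 3, by positivity, fun g hg hc hx => ?_⟩
  obtain ⟨y, hy, hy0⟩ := t37_zero_of_lt hr (hg.diffContOnCl_ball fun y hy =>
    mem_ball_zero_iff.2 (by linarith [hn y hy])) fun w hw => by
      have a1 := hc x (by linarith)
      have a2 := hc w (hn w (sphere_subset_closedBall hw))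
      have a3 : ‖G w₀‖ ≤ ‖G w‖ := hmin hw
      have a4 := norm_sub_norm_le (G w) (g w)
      rw [norm_sub_rev] at a4
      rw [hx, sub_zero] at a1
      linarith
  exact ⟨y, ball_subset_ball h3.2.1.le hy, hy0⟩

theorem t37_Eu_diff {u : ℂ → ℂ} {R : ℝ} (hu : DifferentiableOn ℂ u (ball 0 R)) :
    DifferentiableOn ℂ (Eu u) (ball 0 R) :=
  (differentiableOn_id.mul (hu.deriv isOpen_ball)).sub (hu.const_mul 2)

theorem t37_Eu_close {u U : ℂ → ℂ} {R η s : ℝ} (hu : DifferentiableOn ℂ u (ball 0 R))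
    (hU : DifferentiableOn ℂ U (ball 0 R)) (h : ∀ y ∈ ball (0 : ℂ) R, ‖u y - U y‖ ≤ η) {y : ℂ}
    (hs : 0 < s) (hy : ‖y‖ + s < R) : ‖Eu u y - Eu U y‖ ≤ (‖y‖ / s + 2) * η := by
  have hsub : closedBall y s ⊆ ball 0 R := fun z hz => by
    have := norm_le_norm_add_norm_sub' z y
    rw [mem_closedBall, dist_eq_norm] at hz
    exact mem_ball_zero_iff.2 (by linarith)
  have hy' : y ∈ ball (0 : ℂ) R := hsub (mem_closedBall_self hs.le)
  have h1 := Complex.norm_deriv_le_of_forall_mem_sphere_norm_le hs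
    ((hu.sub hU).diffContOnCl_ball hsub) fun z hz => h z (hsub (sphere_subset_closedBall hz))
  rw [deriv_sub (hu.differentiableAt (isOpen_ball.mem_nhds hy'))
    (hU.differentiableAt (isOpen_ball.mem_nhds hy'))] at h1
  have e : Eu u y - Eu U y = y * (deriv u y - deriv U y) - 2 * (u y - U y) := by
    unfold Eu; ring
  rw [e]
  refine (norm_sub_le _ _).trans ?_
  rw [norm_mul, norm_mul, Complex.norm_two]
  have h2 := mul_le_mul_of_nonneg_left h1 (norm_nonneg y)
  have h3 := h y hy'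
  have h4 : ‖y‖ * (η / s) = ‖y‖ / s * η := by ring
  linarith

/-- Hurwitz: the equations `u = 0` and `(Eu u) ^ 2 = w u ^ 3` keep their solutions. -/
theorem hurwitz {U : ℂ → ℂ} (hU : Differentiable ℂ U) (h0 : U 0 = 1) {w : ℂ} (hw : w ≠ 4)
    (x : ℂ) {ε : ℝ} (hε : 0 < ε) : ∃ η > 0, ∀ u : ℂ → ℂ,
      DifferentiableOn ℂ u (ball 0 (‖x‖ + 2)) → (∀ y ∈ ball (0 : ℂ) (‖x‖ + 2), ‖u y - U y‖ ≤ η) →
      (U x = 0 → ∃ y ∈ ball x ε, u y = 0) ∧
        (Eu U x ^ 2 = w * U x ^ 3 → ∃ y ∈ ball x ε, Eu u y ^ 2 = w * u y ^ 3) := by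
  have hE : Differentiable ℂ (Eu U) :=
    (differentiable_id.mul (differentiableOn_univ.1
      (hU.differentiableOn.deriv isOpen_univ))).sub (hU.const_mul 2)
  obtain ⟨m₁, hm₁, H₁⟩ := t37_stab hU (by rw [h0]; exact one_ne_zero) x hε
  obtain ⟨m₂, hm₂, H₂⟩ := t37_stab (G := fun y => Eu U y ^ 2 - w * U y ^ 3)
    ((hE.pow 2).sub ((hU.pow 3).const_mul w)) (by
      intro h
      simp only [Eu, h0] at h
      exact hw (by linear_combination -h)) x hε
  obtain ⟨M, hM⟩ := (isCompact_closedBall (0 : ℂ) (‖x‖ + 1 / 2)).exists_bound_of_continuousOn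
    (f := fun y => (Eu U y, U y)) (hE.continuous.prodMk hU.continuous).continuousOn
  obtain ⟨K, hK⟩ : ∃ K, K = ‖x‖ + 3 := ⟨_, rfl⟩
  have hK0 : 0 < K := by rw [hK]; positivity
  have hM0 : 0 ≤ M := (norm_nonneg _).trans (hM 0 (mem_closedBall_self (by positivity)))
  obtain ⟨C, hC⟩ : ∃ C, C = K * (K + 2 * M) + ‖w‖ * (3 * (M + 1) ^ 2) := ⟨_, rfl⟩
  have hC0 : 0 < C := by rw [hC]; positivity
  refine ⟨min 1 (min m₁ (m₂ / C)), by positivity, fun u hu hc => ?_⟩
  obtain ⟨η, hη⟩ : ∃ η, η = min 1 (min m₁ (m₂ / C)) := ⟨_, rfl⟩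
  have hη0 : 0 < η := by rw [hη]; positivity
  have hη1 : η ≤ 1 := hη ▸ min_le_left _ _
  have hη2 : η ≤ m₁ := hη ▸ (min_le_right _ _).trans (min_le_left _ _)
  have hη3 : η * C ≤ m₂ := (le_div_iff₀ hC0).1 (hη ▸ (min_le_right _ _).trans (min_le_right _ _))
  rw [← hη] at hc
  refine ⟨H₁ u hu fun y hy => (hc y (mem_ball_zero_iff.2 (by linarith))).trans hη2, fun hx => ?_⟩
  obtain ⟨y, hy, hy0⟩ := H₂ (fun y => Eu u y ^ 2 - w * u y ^ 3)
    (((t37_Eu_diff hu).pow 2).sub ((hu.pow 3).const_mul w)) (fun y hy => by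
      have a1 := t37_Eu_close hu hU.differentiableOn hc (y := y) one_pos (by linarith)
      have a2 := hc y (mem_ball_zero_iff.2 (by linarith))
      have a3 := hM y (mem_closedBall_zero_iff.2 hy)
      have a4 : ‖Eu U y‖ ≤ M := (norm_fst_le (Eu U y, U y)).trans a3
      have a5 : ‖U y‖ ≤ M := (norm_snd_le (Eu U y, U y)).trans a3
      have a6 : ‖Eu u y - Eu U y‖ ≤ K * η :=
        a1.trans (mul_le_mul_of_nonneg_right (by rw [div_one]; linarith) hη0.le)
      generalize Eu u y = a' at *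
      generalize Eu U y = a at *
      generalize u y = b' at *
      generalize U y = b at *
      have e : a' ^ 2 - w * b' ^ 3 - (a ^ 2 - w * b ^ 3) =
          (a' - a) * ((a' - a) + 2 * a) - w * ((b' - b) * (b' ^ 2 + b' * b + b ^ 2)) := by ring
      have b1 : ‖b'‖ ≤ M + 1 := by linarith [norm_le_norm_add_norm_sub' b' b]
      have b2 : ‖(a' - a) + 2 * a‖ ≤ K + 2 * M := by
        refine (norm_add_le _ _).trans ?_
        rw [norm_mul, Complex.norm_two]
        linarith [mul_le_of_le_one_right hK0.le hη1]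
      have b3 : ‖b' ^ 2 + b' * b + b ^ 2‖ ≤ 3 * (M + 1) ^ 2 := by
        refine norm_add₃_le.trans ?_
        rw [norm_pow, norm_pow, norm_mul]
        have c1 := pow_le_pow_left₀ (norm_nonneg _) b1 2
        have c2 := pow_le_pow_left₀ (norm_nonneg b) (show ‖b‖ ≤ M + 1 by linarith) 2
        have c3 := mul_le_mul b1 (show ‖b‖ ≤ M + 1 by linarith) (norm_nonneg _) (by linarith)
        linarith
      rw [e]
      refine (norm_sub_le _ _).trans ?_
      rw [norm_mul, norm_mul, norm_mul]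
      have b4 := mul_le_mul a6 b2 (norm_nonneg _) (by positivity)
      have b5 := mul_le_mul_of_nonneg_left (mul_le_mul a2 b3 (norm_nonneg _) hη0.le) (norm_nonneg w)
      rw [hC] at hη3
      linarith) (sub_eq_zero.2 hx)
  exact ⟨y, hy, sub_eq_zero.1 hy0⟩

/-- Functions close to `1` solve none of the three equations. -/
theorem near_one : ∃ η > 0, ∀ u : ℂ → ℂ, DifferentiableOn ℂ u (ball 0 2) →
    (∀ y ∈ ball (0 : ℂ) 2, ‖u y - 1‖ ≤ η) → ∀ y : ℂ, ‖y‖ = 1 →
      u y ≠ 0 ∧ Eu u y ≠ 0 ∧ Eu u y ^ 2 ≠ u y ^ 3 := by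
  refine ⟨1 / 10, by norm_num, fun u hu h y hy => ?_⟩
  have h1 := t37_Eu_close (U := fun _ => 1) hu (differentiableOn_const 1) h (y := y)
    one_half_pos (by rw [hy]; norm_num)
  have h2 := h y (mem_ball_zero_iff.2 (by rw [hy]; norm_num))
  have e : Eu (fun _ => (1 : ℂ)) y = -2 := by simp [Eu]
  rw [e, hy] at h1
  have h3 := norm_sub_norm_le (-2 : ℂ) (Eu u y)
  rw [norm_sub_rev, norm_neg, Complex.norm_two] at h3
  have h4 := norm_sub_norm_le (1 : ℂ) (u y)
  rw [norm_sub_rev, norm_one] at h4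
  have h5 := norm_sub_norm_le (u y) (1 : ℂ)
  rw [norm_one] at h5
  refine ⟨norm_pos_iff.1 (by linarith), norm_pos_iff.1 (by linarith), fun h6 => ?_⟩
  have h7 := congrArg norm h6
  rw [norm_pow, norm_pow] at h7
  have h8 := pow_le_pow_left₀ (by norm_num) (show (3 / 2 : ℝ) ≤ ‖Eu u y‖ by linarith) 2
  have h9 := pow_le_pow_left₀ (norm_nonneg _) (show ‖u y‖ ≤ 11 / 10 by linarith) 3
  norm_num at h8 h9
  linarith

/-- Area mean value inequality for the real part. -/
theorem t37_mean {Ψ : ℂ → ℂ} {x : ℂ} {R : ℝ} (hR : 0 < R) (hΨ : DifferentiableOn ℂ Ψ (ball x R))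
    {u : ℂ → ℝ} (hu : ContinuousOn u (ball x R)) (h : ∀ z ∈ ball x R, (Ψ z).re ≤ u z) :
    ENNReal.ofReal (π * R ^ 2 * (Ψ x).re) ≤ LI (ball x R) u := by
  classical
  rcases le_or_gt (Ψ x).re 0 with h0 | h0
  · rw [ENNReal.ofReal_of_nonpos (mul_nonpos_of_nonneg_of_nonpos (by positivity) h0)]
    exact zero_le
  have hv : Measurable ((ball x R).piecewise u fun _ => 0) :=
    hu.measurable_piecewise continuousOn_const measurableSet_ball
  refine le_trans ?_ (LI_mono (u := (ball x R).piecewise u fun _ => 0) measurableSet_ball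
    fun z hz => (piecewise_eq_of_mem _ _ _ hz).le)
  have h1 : ENNReal.ofReal (π * R ^ 2 * (Ψ x).re) = LI (ball x R) (fun _ => (Ψ x).re) := by
    rw [LI_ball_const x hR.le h0.le, mul_comm]
  rw [h1, LI_punct, LI_punct, LI_polar hv x measurableSet_Ioo Ioo_subset_Ioi_self,
    LI_polar measurable_const x measurableSet_Ioo Ioo_subset_Ioi_self]
  refine setLIntegral_mono' measurableSet_Ioo fun r hr => ?_
  refine mul_le_mul_right ?_ _
  refine le_trans (le_of_eq ?_) (circ_lower hr.1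
    (hΨ.diffContOnCl_ball (closedBall_subset_ball hr.2)) fun z hz => ?_)
  · simp only [lintegral_const, MeasurableSet.univ, Measure.restrict_apply, univ_inter,
      Real.volume_Ioo]
    rw [← ENNReal.ofReal_mul h0.le]
    congr 1
    ring
  · have hz' : z ∈ ball x R := by simpa [dist_eq_norm, hz] using hr.2
    rw [piecewise_eq_of_mem _ _ _ hz']
    exact h z hz'

theorem t37_local {l : Filter ℕ} {α : ℕ → ℂ → ℂ} {x : ℂ} {ε : ℝ} (hε : 0 < ε)
    (h : ∀ η > 0, ∀ᶠ n in l, DifferentiableOn ℂ (α n) (ball x ε) ∧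
      LI (ball x ε) (fun y => ‖α n y‖ - (α n y).re) ≤ ENNReal.ofReal η)
    {c : ℂ} (hc : c ∈ ball x (ε / 8)) (h0 : ∀ η > 0, ∀ᶠ n in l, ‖α n c‖ ≤ η) :
    ∀ η > 0, ∀ᶠ n in l, ∀ y ∈ ball x (ε / 8), ‖α n y‖ ≤ η := by
  intro η hη
  have hA : 0 < π * (ε / 2) ^ 2 := by positivity
  filter_upwards [h (π * (ε / 2) ^ 2 * (η / 11)) (by positivity), h0 (η / 11) (by positivity)]
    with n ⟨hd, hL⟩ hn y hy
  rw [mem_ball] at hc hy
  have h1 : ∀ z ∈ ball c (3 * ε / 8), 0 ≤ (α n z + (η / 11 : ℝ)).re := fun z hz => by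
    have hsub : ball z (ε / 2) ⊆ ball x ε := fun v hv => by
      rw [mem_ball] at *
      linarith [dist_triangle4 v z c x]
    have hd' := hd.mono hsub
    have a1 := (t37_mean (Ψ := fun v => -α n v) (u := fun v => ‖α n v‖ - (α n v).re)
      (half_pos hε) hd'.neg (hd'.continuousOn.norm.sub
        (Complex.continuous_re.comp_continuousOn hd'.continuousOn))
      fun v _ => by rw [Complex.neg_re]; linarith [norm_nonneg (α n v)]).trans
      ((LI_mono_set hsub _).trans hL)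
    rw [ENNReal.ofReal_le_ofReal_iff (by positivity), Complex.neg_re] at a1
    have a2 := le_of_mul_le_mul_left a1 hA
    rw [Complex.add_re, Complex.ofReal_re]
    linarith
  have h2 : ‖y - c‖ < ε / 4 := by
    rw [← dist_eq_norm]
    linarith [dist_triangle_right y c x]
  have h3 := harnack (P := fun z => α n z + (η / 11 : ℝ)) (c := c) (R := 3 * ε / 8)
    ((hd.mono fun v hv => by
      rw [mem_ball] at *
      linarith [dist_triangle v c x]).add_const _) h1 (w := y)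
    (by rw [mem_ball, dist_eq_norm]; linarith)
  have h4 : ‖((η / 11 : ℝ) : ℂ)‖ = η / 11 := by
    rw [Complex.norm_real, Real.norm_of_nonneg (by positivity)]
  have h5 := norm_add_le (α n c) ((η / 11 : ℝ) : ℂ)
  have h6 := norm_sub_le (α n y + (η / 11 : ℝ)) ((η / 11 : ℝ) : ℂ)
  rw [add_sub_cancel_right] at h6
  have h7 : ε / 8 * ‖α n y + (η / 11 : ℝ)‖ ≤ ε / 8 * (10 * (η / 11)) :=
    calc _ ≤ (3 * ε / 8 - ‖y - c‖) * ‖α n y + (η / 11 : ℝ)‖ :=
          mul_le_mul_of_nonneg_right (by linarith) (norm_nonneg _)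
      _ ≤ _ := h3
      _ ≤ 5 * ε / 8 * (2 * (η / 11)) :=
          mul_le_mul (by linarith) (by linarith) (norm_nonneg _) (by positivity)
      _ = _ := by ring
  have h8 := le_of_mul_le_mul_left h7 (by positivity)
  linarith

/-- Almost non-negative holomorphic functions that tend to zero at one point tend to zero. -/
theorem align {l : Filter ℕ} {O : Set ℂ} (hO : IsPreconnected O) {α : ℕ → ℂ → ℂ}
    (h : ∀ x ∈ O, ∃ ε > 0, ∀ η > 0, ∀ᶠ n in l, DifferentiableOn ℂ (α n) (ball x ε) ∧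
      LI (ball x ε) (fun y => ‖α n y‖ - (α n y).re) ≤ ENNReal.ofReal η)
    {x₀ : ℂ} (hx₀ : x₀ ∈ O) (h0 : ∀ᶠ n in l, α n x₀ = 0) :
    ∀ x ∈ O, ∃ ε > 0, ∀ η > 0, ∀ᶠ n in l, ∀ y ∈ ball x ε, ‖α n y‖ ≤ η := by
  intro x hx
  have key := hO.induction₂' (fun a b => (∀ η > 0, ∀ᶠ n in l, ‖α n a‖ ≤ η) →
      ∀ η > 0, ∀ᶠ n in l, ‖α n b‖ ≤ η) (fun a ha => by
    obtain ⟨ε, hε, H⟩ := h a ha
    have hm : a ∈ ball a (ε / 8) := mem_ball_self (by positivity)
    filter_upwards [mem_nhdsWithin_of_mem_nhds (ball_mem_nhds a (show 0 < ε / 8 by positivity))]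
      with b hb
    exact ⟨fun h1 η hη => (t37_local hε H hm h1 η hη).mono fun n hn => hn b hb,
      fun h1 η hη => (t37_local hε H hb h1 η hη).mono fun n hn => hn a hm⟩)
    (fun _ _ _ _ _ _ h1 h2 h3 => h2 (h1 h3)) hx₀ hx
    fun η hη => h0.mono fun n hn => by rw [hn, norm_zero]; exact hη.le
  obtain ⟨ε, hε, H⟩ := h x hx
  exact ⟨ε / 8, by positivity, t37_local hε H (mem_ball_self (by positivity)) key⟩

/-- From local to uniform statements on compact sets. -/
theorem ev_compact {l : Filter ℕ} {K : Set ℂ} (hK : IsCompact K) {Q : ℕ → ℂ → Prop}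
    (h : ∀ x ∈ K, ∃ ε > 0, ∀ᶠ n in l, ∀ y ∈ ball x ε, Q n y) : ∀ᶠ n in l, ∀ y ∈ K, Q n y := by
  refine hK.induction_on (p := fun S => ∀ᶠ n in l, ∀ y ∈ S, Q n y) (by simp)
    (fun _ _ hst ht => ht.mono fun n hn y hy => hn y (hst hy))
    (fun _ _ hs ht => (hs.and ht).mono fun n hn y hy => hy.elim (hn.1 y) (hn.2 y)) ?_
  intro x hx
  obtain ⟨ε, hε, hx'⟩ := h x hx
  exact ⟨ball x ε, mem_nhdsWithin_of_mem_nhds (ball_mem_nhds x hε), hx'⟩

end Pool.Agent.MP_28f8a1_an.H42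

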