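import Pool.Agent.MP_28f8a1_an.H42.Schottky
import Pool.Agent.MP_28f8a1_an.H42.Cx

/-! Two-sided local bounds and the entire limit. -/

set_option autoImplicit false

namespace Pool.Agent.MP_28f8a1_an.H42

open MeasureTheory Metric Set Real Filter Topology Polynomial
open scoped ENNReal

/-- Propagation of eventual bounds over a preconnected set. -/
theorem t39_prop {l : Filter ℕ} {O : Set ℂ} (hO : IsPreconnected O) (h0 : (0 : ℂ) ∈ O)
    {F : ℕ → ℂ → ℝ} (hF0 : ∃ m, ∀ᶠ n in l, F n 0 ≤ m)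
    (h : ∀ x ∈ O, ∃ δ > 0, ∀ y₀ ∈ ball x δ, (∃ m, ∀ᶠ n in l, F n y₀ ≤ m) →
      ∃ m, ∀ᶠ n in l, ∀ y ∈ ball x δ, F n y ≤ m) :
    ∀ x ∈ O, ∃ δ > 0, ∃ m, ∀ᶠ n in l, ∀ y ∈ ball x δ, F n y ≤ m := by
  choose! δ hδ hp using h
  let A : Set ℂ := {y | ∃ m, ∀ᶠ n in l, F n y ≤ m}
  have hsub : O ⊆ interior A := by
    refine hO.subset_left_of_subset_union isOpen_interior (isOpen_interior (s := Aᶜ)) ?_ ?_ ?_
    · exact Disjoint.mono interior_subset interior_subset disjoint_compl_right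
    · intro x hx
      by_cases hc : ∃ y₀ ∈ ball x (δ x), y₀ ∈ A
      · obtain ⟨y₀, hy₀, hA⟩ := hc
        obtain ⟨m, hm⟩ := hp x hx y₀ hy₀ hA
        have hb : ball x (δ x) ⊆ A := fun y hy => ⟨m, hm.mono fun n hn => hn y hy⟩
        exact Or.inl (interior_maximal hb isOpen_ball (mem_ball_self (hδ x hx)))
      · refine Or.inr (interior_maximal (fun y hy hA => hc ⟨y, hy, hA⟩)
          isOpen_ball (mem_ball_self (hδ x hx)))
    · obtain ⟨m, hm⟩ := hp 0 h0 0 (mem_ball_self (hδ 0 h0)) hF0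
      have hb : ball 0 (δ 0) ⊆ A := fun y hy => ⟨m, hm.mono fun n hn => hn y hy⟩
      exact ⟨0, h0, interior_maximal hb isOpen_ball (mem_ball_self (hδ 0 h0))⟩
  intro x hx
  have hA : x ∈ A := interior_subset (hsub hx)
  exact ⟨δ x, hδ x hx, hp x hx x (mem_ball_self (hδ x hx)) hA⟩

theorem t39_diffEu {u : ℂ → ℂ} {x : ℂ} {ε : ℝ} (hu : DifferentiableOn ℂ u (ball x ε)) :
    DifferentiableOn ℂ (Eu u) (ball x ε) :=
  (differentiableOn_id.mul (hu.deriv isOpen_ball)).sub ((differentiableOn_const _).mul hu)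

/-- Step 1: the quotient `Eu u ^ 2 / u ^ 3` is locally bounded. -/
theorem t39_phi {l : Filter ℕ} {O : Set ℂ} (hO : IsPreconnected O) (h0 : (0 : ℂ) ∈ O)
    {u : ℕ → ℂ → ℂ} (hu0 : ∀ n, u n 0 = 1)
    (h : ∀ x ∈ O, ∃ ε > 0, ∀ᶠ n in l, DifferentiableOn ℂ (u n) (ball x ε) ∧
      ∀ y ∈ ball x ε, u n y ≠ 0 ∧ Eu (u n) y ≠ 0 ∧ Eu (u n) y ^ 2 ≠ u n y ^ 3) :
    ∀ x ∈ O, ∃ δ > 0, ∃ m, ∀ᶠ n in l, ∀ y ∈ ball x δ,
      |Real.log ‖Eu (u n) y ^ 2 / u n y ^ 3‖| ≤ m := by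
  refine t39_prop hO h0 (F := fun n y => |Real.log ‖Eu (u n) y ^ 2 / u n y ^ 3‖|)
    ⟨|Real.log ‖((0 - 2 * 1 : ℂ)) ^ 2 / 1 ^ 3‖|, Eventually.of_forall fun n => ?_⟩ ?_
  · simp only [Eu, hu0 n, zero_mul, le_refl]
  intro x hx
  obtain ⟨ε, hε, hev⟩ := h x hx
  refine ⟨ε / 5, by positivity, fun y₀ hy₀ ⟨m, hm⟩ => ?_⟩
  obtain ⟨M, hM⟩ := schottky m
  refine ⟨M, (hev.and hm).mono fun n ⟨⟨hd, hn⟩, hb⟩ y hy => ?_⟩
  have hsub : ball y₀ (4 * ε / 5) ⊆ ball x ε := by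
    apply ball_subset_ball'
    have := mem_ball.1 hy₀
    linarith
  refine hM (fun z => Eu (u n) z ^ 2 / u n z ^ 3) y₀ (4 * ε / 5) (by positivity) ?_ ?_ hb y ?_
  · exact (((t39_diffEu hd).pow 2).div (hd.pow 3) fun z hz => pow_ne_zero 3 (hn z hz).1).mono hsub
  · intro z hz
    obtain ⟨h1, h2, h3⟩ := hn z (hsub hz)
    refine ⟨div_ne_zero (pow_ne_zero 2 h2) (pow_ne_zero 3 h1), fun h4 => h3 ?_⟩
    rwa [div_eq_one_iff_eq (pow_ne_zero 3 h1)] at h4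
  · have h1 := mem_ball.1 hy
    have h2 := mem_ball.1 hy₀
    have h3 := dist_triangle_right y y₀ x
    rw [mem_ball]
    linarith

/-- A differential inequality bounds a function on a small closed disc. -/
theorem t39_gron {G : ℂ → ℂ} {x y₀ : ℂ} {s K m : ℝ} (hs : s ≤ 1 / 2) (hK : 0 ≤ K)
    (hG : ∀ y ∈ closedBall x s, DifferentiableAt ℂ G y)
    (hd : ∀ y ∈ closedBall x s, ‖deriv G y‖ ^ 2 ≤ K * ‖G y‖) (hy₀ : y₀ ∈ closedBall x s)
    (hm : ‖G y₀‖ ≤ m) : ∀ y ∈ closedBall x s, ‖G y‖ ≤ 2 * m + K := by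
  have hc : ContinuousOn (fun y => ‖G y‖) (closedBall x s) :=
    fun y hy => (hG y hy).continuousAt.norm.continuousWithinAt
  obtain ⟨z, hz, hmax⟩ := (isCompact_closedBall x s).exists_isMaxOn ⟨y₀, hy₀⟩ hc
  have hb : ∀ y ∈ closedBall x s, ‖deriv G y‖ ≤ (K + ‖G z‖) / 2 := by
    intro y hy
    have h1 : ‖G y‖ ≤ ‖G z‖ := hmax hy
    have h2 := hd y hy
    have h3 : K * ‖G y‖ ≤ K * ‖G z‖ := mul_le_mul_of_nonneg_left h1 hK
    have h4 := norm_nonneg (G z)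
    refine abs_le_of_sq_le_sq' ?_ (by positivity) |>.2
    nlinarith [sq_nonneg (K - ‖G z‖)]
  have h1 := (convex_closedBall x s).norm_image_sub_le_of_norm_deriv_le hG hb hy₀ hz
  have h2 : ‖z - y₀‖ ≤ 1 := by
    have h3 := mem_closedBall.1 hz
    have h4 := mem_closedBall.1 hy₀
    have h5 := dist_triangle_right z y₀ x
    rw [← dist_eq_norm]
    linarith
  have h3 : ‖G z‖ ≤ ‖G z - G y₀‖ + ‖G y₀‖ := norm_le_norm_sub_add _ _
  have h4 : (K + ‖G z‖) / 2 * ‖z - y₀‖ ≤ (K + ‖G z‖) / 2 :=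
    mul_le_of_le_one_right (by positivity) h2
  intro y hy
  have h5 : ‖G y‖ ≤ ‖G z‖ := hmax hy
  linarith

theorem t39_deriv {u : ℂ → ℂ} {y : ℂ} (hu : DifferentiableAt ℂ u y) (h : u y ≠ 0) :
    deriv (fun z => z ^ 2 / u z) y ^ 2 = Eu u y ^ 2 / u y ^ 3 * (y ^ 2 / u y) := by
  have h1 : HasDerivAt (fun z : ℂ => z ^ 2 / u z)
      ((((2 : ℕ) : ℂ) * y ^ (2 - 1) * u y - y ^ 2 * deriv u y) / u y ^ 2) y :=
    (hasDerivAt_pow 2 y).div hu.hasDerivAt h
  rw [h1.deriv]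
  simp only [Eu]
  field_simp
  push_cast
  ring

/-- Step 2: `y ^ 2 / u` is locally bounded. -/
theorem t39_G {l : Filter ℕ} {O : Set ℂ} (hO : IsPreconnected O) (h0 : (0 : ℂ) ∈ O)
    {u : ℕ → ℂ → ℂ} (hu0 : ∀ n, u n 0 = 1)
    (h : ∀ x ∈ O, ∃ ε > 0, ∀ᶠ n in l, DifferentiableOn ℂ (u n) (ball x ε) ∧
      ∀ y ∈ ball x ε, u n y ≠ 0 ∧ Eu (u n) y ≠ 0 ∧ Eu (u n) y ^ 2 ≠ u n y ^ 3) :
    ∀ x ∈ O, ∃ δ > 0, ∃ m, ∀ᶠ n in l, ∀ y ∈ ball x δ, ‖y ^ 2 / u n y‖ ≤ m := by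
  refine t39_prop hO h0 (F := fun n y => ‖y ^ 2 / u n y‖)
    ⟨0, Eventually.of_forall fun n => by simp⟩ ?_
  intro x hx
  obtain ⟨ε, hε, hev⟩ := h x hx
  obtain ⟨δ, hδ, M, hM⟩ := t39_phi hO h0 hu0 h x hx
  refine ⟨min (min ε δ / 2) (1 / 2), by positivity, fun y₀ hy₀ ⟨m, hm⟩ => ?_⟩
  refine ⟨2 * m + Real.exp M, (hev.and (hM.and hm)).mono fun n ⟨⟨hd, hn⟩, hb, hc⟩ y hy => ?_⟩
  have hlt : min (min ε δ / 2) (1 / 2) < min ε δ :=
    (min_le_left _ _).trans_lt (half_lt_self (by positivity))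
  have s1 : closedBall x (min (min ε δ / 2) (1 / 2)) ⊆ ball x ε :=
    closedBall_subset_ball (hlt.trans_le (min_le_left _ _))
  have s2 : closedBall x (min (min ε δ / 2) (1 / 2)) ⊆ ball x δ :=
    closedBall_subset_ball (hlt.trans_le (min_le_right _ _))
  have hat : ∀ z ∈ ball x ε, DifferentiableAt ℂ (u n) z := fun z hz =>
    hd.differentiableAt (isOpen_ball.mem_nhds hz)
  refine t39_gron (G := fun z => z ^ 2 / u n z) (min_le_right _ _) (Real.exp_pos M).le ?_ ?_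
    (ball_subset_closedBall hy₀) hc y (ball_subset_closedBall hy)
  · intro z hz
    exact (differentiableAt_id.pow 2).div (hat z (s1 hz)) (hn z (s1 hz)).1
  · intro z hz
    rw [← norm_pow, t39_deriv (hat z (s1 hz)) (hn z (s1 hz)).1, norm_mul]
    refine mul_le_mul_of_nonneg_right ?_ (norm_nonneg _)
    exact (Real.le_exp_log _).trans (Real.exp_le_exp.2 ((le_abs_self _).trans (hb z (s2 hz))))

/-- Step 3: `1 / u` is locally bounded. -/
theorem t39_low {l : Filter ℕ} {O : Set ℂ} (hO : IsPreconnected O) (h0 : (0 : ℂ) ∈ O)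
    {u : ℕ → ℂ → ℂ} (hu0 : ∀ n, u n 0 = 1)
    (h : ∀ x ∈ O, ∃ ε > 0, ∀ᶠ n in l, DifferentiableOn ℂ (u n) (ball x ε) ∧
      ∀ y ∈ ball x ε, u n y ≠ 0 ∧ Eu (u n) y ≠ 0 ∧ Eu (u n) y ^ 2 ≠ u n y ^ 3) :
    ∀ x ∈ O, ∃ δ > 0, ∃ m > 0, ∀ᶠ n in l, DifferentiableOn ℂ (u n) (ball x δ) ∧
      ∀ y ∈ ball x δ, u n y ≠ 0 ∧ ‖(u n y)⁻¹‖ ≤ m := by
  intro x hx
  obtain ⟨ε, hε, hev⟩ := h x hx
  obtain ⟨δ, hδ, M, hM⟩ := t39_G hO h0 hu0 h x hx
  have key : ∀ (v y : ℂ) (s : ℝ), 0 < s → s ≤ ‖y‖ → ‖y ^ 2 / v‖ ≤ M →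
      ‖v⁻¹‖ ≤ (|M| + 1) / s ^ 2 := by
    intro v y s hs hy hb
    rw [div_eq_mul_inv, norm_mul, norm_pow] at hb
    rw [le_div_iff₀ (by positivity)]
    have h1 : s ^ 2 ≤ ‖y‖ ^ 2 := pow_le_pow_left₀ hs.le hy 2
    have h2 := mul_le_mul_of_nonneg_left h1 (norm_nonneg v⁻¹)
    have h3 := le_abs_self M
    linarith
  by_cases hx0 : x = 0
  · subst hx0
    have hr : 0 < min ε δ := by positivity
    refine ⟨min ε δ / 2, by positivity, (|M| + 1) / (min ε δ / 2) ^ 2, by positivity,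
      (hev.and hM).mono fun n ⟨⟨hd, hn⟩, hb⟩ => ?_⟩
    have s1 : ball (0 : ℂ) (min ε δ) ⊆ ball 0 ε := ball_subset_ball (min_le_left _ _)
    have s2 : ball (0 : ℂ) (min ε δ) ⊆ ball 0 δ := ball_subset_ball (min_le_right _ _)
    have s3 : ball (0 : ℂ) (min ε δ / 2) ⊆ ball 0 (min ε δ) :=
      ball_subset_ball (half_lt_self hr).le
    refine ⟨hd.mono (s3.trans s1), fun y hy => ⟨(hn y (s1 (s3 hy))).1, ?_⟩⟩
    refine max_disc (F := fun z => (u n z)⁻¹) (x := 0) (half_pos hr) (half_lt_self hr)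
      ((hd.mono s1).inv fun z hz => (hn z (s1 hz)).1) (fun z hz => ?_) y ?_
    · rw [sub_zero] at hz
      refine key _ z _ (half_pos hr) hz.ge (hb z (s2 ?_))
      rw [mem_ball_zero_iff, hz]
      exact half_lt_self hr
    · rw [sub_zero]
      exact (mem_ball_zero_iff.1 hy).le
  · have hx1 : 0 < ‖x‖ := norm_pos_iff.2 hx0
    refine ⟨min (min ε δ) (‖x‖ / 2), by positivity, (|M| + 1) / (‖x‖ / 2) ^ 2, by positivity,
      (hev.and hM).mono fun n ⟨⟨hd, hn⟩, hb⟩ => ?_⟩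
    have s1 : ball x (min (min ε δ) (‖x‖ / 2)) ⊆ ball x ε :=
      ball_subset_ball ((min_le_left _ _).trans (min_le_left _ _))
    have s2 : ball x (min (min ε δ) (‖x‖ / 2)) ⊆ ball x δ :=
      ball_subset_ball ((min_le_left _ _).trans (min_le_right _ _))
    refine ⟨hd.mono s1, fun y hy => ⟨(hn y (s1 hy)).1, key _ y _ (half_pos hx1) ?_ (hb y (s2 hy))⟩⟩
    have h1 : ‖y - x‖ < ‖x‖ / 2 := (mem_ball_iff_norm.1 hy).trans_le (min_le_right _ _)
    have h2 : ‖x‖ ≤ ‖y‖ + ‖y - x‖ := norm_le_norm_add_norm_sub _ _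
    linarith

/-- Harnack's inequality for a zero-free function that is bounded below. -/
theorem t39_har {v : ℂ → ℂ} {x y₀ : ℂ} {δ m b : ℝ} (hδ : 0 < δ) (hm : 0 < m)
    (hd : DifferentiableOn ℂ v (ball x δ)) (hn : ∀ y ∈ ball x δ, v y ≠ 0 ∧ ‖(v y)⁻¹‖ ≤ m)
    (hy₀ : y₀ ∈ ball x (δ / 4)) (hb : ‖v y₀‖ ≤ b) : ∀ y ∈ ball x (δ / 4),
      ‖v y‖ ≤ Real.exp (5 * (Real.log b + Real.log m) - Real.log m) := by
  obtain ⟨L, hL, he⟩ := exists_log hd fun z hz => (hn z hz).1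
  have hre : ∀ z ∈ ball x δ, (L z).re = Real.log ‖v z‖ := by
    intro z hz
    rw [← he z hz, Complex.norm_exp, Real.log_exp]
  have hlow : ∀ z ∈ ball x δ, 0 ≤ Real.log ‖v z‖ + Real.log m := by
    intro z hz
    have h1 : 0 < ‖v z‖ := norm_pos_iff.2 (hn z hz).1
    rw [← Real.log_mul h1.ne' hm.ne']
    refine Real.log_nonneg ?_
    have h2 := (hn z hz).2
    rw [norm_inv, inv_le_iff_one_le_mul₀' h1] at h2
    exact h2
  have s0 : ball x (δ / 4) ⊆ ball x δ := ball_subset_ball (by linarith)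
  have s1 : ball y₀ (3 * δ / 4) ⊆ ball x δ := by
    apply ball_subset_ball'
    have := mem_ball.1 hy₀
    linarith
  intro y hy
  have hr : ‖y - y₀‖ < δ / 2 := by
    have h1 := mem_ball.1 hy
    have h2 := mem_ball.1 hy₀
    have h3 := dist_triangle_right y y₀ x
    rw [← dist_eq_norm]
    linarith
  let P : ℂ → ℂ := fun z => L z - L y₀ + ((Real.log ‖v y₀‖ + Real.log m : ℝ) : ℂ)
  have hP : ∀ z ∈ ball x δ, (P z).re = Real.log ‖v z‖ + Real.log m := by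
    intro z hz
    simp only [P, Complex.add_re, Complex.sub_re, Complex.ofReal_re, hre z hz, hre y₀ (s0 hy₀)]
    ring
  have h1 := harnack (P := P) (c := y₀) (R := 3 * δ / 4)
    (((hL.mono s1).sub_const _).add_const _) (fun z hz => by
      rw [hP z (s1 hz)]; exact hlow z (s1 hz)) (w := y) (mem_ball_iff_norm.2 (by linarith))
  have h2 : ‖P y₀‖ = Real.log ‖v y₀‖ + Real.log m := by
    simp only [P, sub_self, zero_add, Complex.norm_real, Real.norm_eq_abs]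
    exact abs_of_nonneg (hlow y₀ (s0 hy₀))
  have h3 : Real.log ‖v y‖ + Real.log m ≤ ‖P y‖ := by
    rw [← hP y (s0 hy)]
    exact Complex.re_le_norm _
  have h4 : Real.log ‖v y₀‖ ≤ Real.log b :=
    Real.log_le_log (norm_pos_iff.2 (hn y₀ (s0 hy₀)).1) hb
  have h5 : ‖P y‖ ≤ 5 * ‖P y₀‖ := by
    have h6 := norm_nonneg (P y)
    have h7 := norm_nonneg (P y₀)
    have h8 : δ / 4 * ‖P y‖ ≤ δ / 4 * (5 * ‖P y₀‖) := by nlinarith
    exact le_of_mul_le_mul_left h8 (by positivity)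
  refine (Real.le_exp_log _).trans (Real.exp_le_exp.2 ?_)
  linarith

/-- Two-sided local bounds for functions that omit three differential equations. -/
theorem two_sided {l : Filter ℕ} {O : Set ℂ} (hO : IsPreconnected O) (h0 : (0 : ℂ) ∈ O)
    {u : ℕ → ℂ → ℂ} (hu0 : ∀ n, u n 0 = 1)
    (h : ∀ x ∈ O, ∃ ε > 0, ∀ᶠ n in l, DifferentiableOn ℂ (u n) (ball x ε) ∧
      ∀ y ∈ ball x ε, u n y ≠ 0 ∧ Eu (u n) y ≠ 0 ∧ Eu (u n) y ^ 2 ≠ u n y ^ 3) :
    ∀ x ∈ O, ∃ ε > 0, ∃ m > 0, ∀ᶠ n in l, ∀ y ∈ ball x ε, m⁻¹ ≤ ‖u n y‖ ∧ ‖u n y‖ ≤ m := by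
  intro x hx
  have hlow := t39_low hO h0 hu0 h
  obtain ⟨δ, hδ, m, hm, h1⟩ := hlow x hx
  obtain ⟨δ', hδ', m', h2⟩ := t39_prop hO h0 (F := fun n y => ‖u n y‖)
    ⟨1, Eventually.of_forall fun n => by simp [hu0 n]⟩ (fun z hz => by
      obtain ⟨r, hr, a, ha, h3⟩ := hlow z hz
      refine ⟨r / 4, by positivity, fun y₀ hy₀ ⟨b, hb⟩ => ⟨_, (h3.and hb).mono
        fun n ⟨⟨hd, hn⟩, hc⟩ => t39_har hr ha hd hn hy₀ hc⟩⟩) x hx
  refine ⟨min δ δ', by positivity, max m m', lt_max_of_lt_left hm,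
    (h1.and h2).mono fun n ⟨⟨_, hn⟩, hb⟩ y hy => ⟨?_, ?_⟩⟩
  · obtain ⟨h3, h4⟩ := hn y (ball_subset_ball (min_le_left _ _) hy)
    rw [norm_inv] at h4
    exact inv_le_of_inv_le₀ (norm_pos_iff.2 h3) (h4.trans (le_max_left _ _))
  · exact (hb y (ball_subset_ball (min_le_right _ _) hy)).trans (le_max_right _ _)

/-- polynomial growth -/
def t40_PG (F : ℂ → ℂ) : Prop := ∃ (C : ℝ) (m : ℕ), 1 ≤ C ∧ ∀ x, ‖F x‖ ≤ C * (1 + ‖x‖) ^ m

theorem t40_const {W : ℂ → ℂ} (hW : Differentiable ℂ W) (hne : ∀ x, W x ≠ 0) (h : t40_PG W)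
    (x y : ℂ) : W x = W y := by
  obtain ⟨C, m, hC, h⟩ := h
  refine is_const_of_deriv_eq_zero hW (fun x₀ => ?_) x y
  have hC0 : 0 < C := by linarith
  have key : ∀ R : ℝ, 0 < R → ‖deriv W x₀ / W x₀‖ ≤
      2 * (Real.log C - Real.log ‖W x₀‖) / R + 2 * m * (Real.log (1 + ‖x₀‖ + R) / R) := by
    intro R hR
    obtain ⟨L, hL, hLW⟩ := exists_log (x := x₀) (R := R) hW.differentiableOn (fun z _ => hne z)
    have hre : ∀ z ∈ ball x₀ R, (L z).re = Real.log ‖W z‖ := fun z hz => by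
      rw [← hLW z hz, Complex.norm_exp, Real.log_exp]
    have ha : 0 < 1 + ‖x₀‖ + R := by positivity
    set K : ℝ := Real.log C + m * Real.log (1 + ‖x₀‖ + R) with hK
    have hP : DifferentiableOn ℂ (fun z => (K : ℂ) - L z) (ball x₀ R) := hL.const_sub _
    have hpos : ∀ w ∈ ball x₀ R, 0 ≤ ((K : ℂ) - L w).re := fun w hw => by
      rw [Complex.sub_re, Complex.ofReal_re, hre w hw, sub_nonneg, hK, ← Real.log_pow,
        ← Real.log_mul hC0.ne' (pow_pos ha m).ne']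
      refine Real.log_le_log (norm_pos_iff.2 (hne w)) ((h w).trans ?_)
      have h1 : ‖w‖ ≤ ‖x₀‖ + R := by
        have := norm_le_norm_add_norm_sub' w x₀
        have h2 : ‖w - x₀‖ < R := by rwa [mem_ball, dist_eq_norm] at hw
        linarith
      exact mul_le_mul_of_nonneg_left (pow_le_pow_left₀ (by positivity) (by linarith) m) hC0.le
    have h1 := harnack_deriv hR hP hpos
    have hx₀ := mem_ball_self (x := x₀) hR
    have hLd : HasDerivAt L (deriv L x₀) x₀ :=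
      (hL.differentiableAt (isOpen_ball.mem_nhds hx₀)).hasDerivAt
    have h2 : HasDerivAt W (Complex.exp (L x₀) * deriv L x₀) x₀ :=
      hLd.cexp.congr_of_eventuallyEq (by
        filter_upwards [isOpen_ball.mem_nhds hx₀] with z hz using (hLW z hz).symm)
    have h3 : deriv W x₀ / W x₀ = deriv L x₀ := by
      rw [h2.deriv, hLW x₀ hx₀, mul_div_cancel_left₀ _ (hne x₀)]
    rw [(hLd.const_sub (K : ℂ)).deriv, norm_neg, Complex.sub_re, Complex.ofReal_re,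
      hre x₀ hx₀] at h1
    rw [h3]
    refine h1.trans (le_of_eq ?_)
    rw [hK]
    ring
  have t1 : Tendsto (fun R : ℝ => Real.log (1 + ‖x₀‖ + R) / R) atTop (𝓝 0) := by
    have := (Real.tendsto_pow_log_div_mul_add_atTop 1 (-(1 + ‖x₀‖)) 1 one_ne_zero).comp
      (tendsto_atTop_add_const_left atTop (1 + ‖x₀‖) tendsto_id)
    refine this.congr fun R => ?_
    simp only [Function.comp, id, pow_one, one_mul]
    congr 1
    ring
  have t2 : Tendsto (fun R : ℝ => 2 * (Real.log C - Real.log ‖W x₀‖) / R +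
      2 * m * (Real.log (1 + ‖x₀‖ + R) / R)) atTop (𝓝 (0 + 2 * m * 0)) :=
    (tendsto_id.const_div_atTop _).add (t1.const_mul _)
  have h4 : ‖deriv W x₀ / W x₀‖ ≤ 0 + 2 * m * 0 :=
    ge_of_tendsto t2 (by filter_upwards [eventually_gt_atTop 0] with R hR using key R hR)
  rw [mul_zero, add_zero, norm_le_zero_iff, div_eq_zero_iff] at h4
  exact h4.resolve_right (hne x₀)

theorem t40_factor {F : ℂ → ℂ} (hF : Differentiable ℂ F) (h : ∃ x, F x ≠ 0) (t : ℂ) :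
    ∃ (n : ℕ) (H : ℂ → ℂ), Differentiable ℂ H ∧ H t ≠ 0 ∧ ∀ x, F x = (x - t) ^ n * H x := by
  obtain ⟨p, hp⟩ := hF.analyticAt t
  have hp0 : p ≠ 0 := by
    intro h0
    obtain ⟨x, hx⟩ := h
    have h1 := hp.locally_zero_iff.2 h0
    have h2 : AnalyticOnNhd ℂ F univ := fun z _ => hF.analyticAt z
    exact hx (h2.eqOn_zero_of_preconnected_of_eventuallyEq_zero isPreconnected_univ (mem_univ t) h1
      (mem_univ x))
  refine ⟨p.order, _, ?_, hp.iterate_dslope_fslope_ne_zero hp0, fun x =>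
    hp.eq_pow_order_mul_iterate_dslope x⟩
  induction p.order with
  | zero => exact hF
  | succ n ih =>
    rw [Function.iterate_succ_apply']
    exact differentiableOn_univ.1
      ((Complex.differentiableOn_dslope univ_mem).2 (differentiableOn_univ.2 ih))

theorem t40_zeros (T : Finset ℂ) : ∀ F : ℂ → ℂ, Differentiable ℂ F → (∀ x, F x = 0 → x ∈ T) →
    (∃ (R c : ℝ) (m : ℕ), 0 < c ∧ ∀ x, R ≤ ‖x‖ → c ≤ ‖F x‖ * (1 + ‖x‖) ^ m) → t40_PG F := by
  classical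
  induction T using Finset.induction_on with
  | empty =>
    rintro F hF hz ⟨R, c, m, hc, h⟩
    have hne : ∀ x, F x ≠ 0 := fun x hx => by simpa using hz x hx
    have hW : Differentiable ℂ fun x => (F x)⁻¹ := hF.inv hne
    obtain ⟨B, hB⟩ := (isCompact_closedBall (0 : ℂ) R).exists_bound_of_continuousOn
      hW.continuous.continuousOn
    have hPG : t40_PG fun x => (F x)⁻¹ := by
      refine ⟨max 1 (max B c⁻¹), m, le_max_left _ _, fun x => ?_⟩
      have h1 : (1 : ℝ) ≤ (1 + ‖x‖) ^ m := one_le_pow₀ (by linarith [norm_nonneg x])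
      have h0 : (0 : ℝ) ≤ max 1 (max B c⁻¹) := le_max_of_le_left zero_le_one
      rcases le_total R ‖x‖ with hx | hx
      · have h2 := h x hx
        have h3 : 0 < ‖F x‖ := norm_pos_iff.2 (hne x)
        have h4 : ‖(F x)⁻¹‖ ≤ c⁻¹ * (1 + ‖x‖) ^ m := by
          rw [norm_inv, inv_mul_eq_div, le_div_iff₀ hc, inv_mul_eq_div, div_le_iff₀ h3]
          linarith
        exact h4.trans (mul_le_mul_of_nonneg_right
          ((le_max_right _ _).trans (le_max_right _ _)) (by positivity))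
      · have h2 := hB x (mem_closedBall_zero_iff.2 hx)
        exact (h2.trans ((le_max_left _ _).trans (le_max_right _ _))).trans
          (le_mul_of_one_le_right h0 h1)
    refine ⟨max 1 ‖F 0‖, 0, le_max_left _ _, fun x => ?_⟩
    have := t40_const hW (fun x => inv_ne_zero (hne x)) hPG x 0
    rw [inv_inj.1 this, pow_zero, mul_one]
    exact le_max_right _ _
  | insert t T ht ih =>
    rintro F hF hz ⟨R, c, m, hc, h⟩
    have hex : ∃ x, F x ≠ 0 := by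
      refine ⟨(|R| : ℝ), fun h0 => ?_⟩
      have := h (|R| : ℝ) (by rw [Complex.norm_real, Real.norm_eq_abs, abs_abs]; exact le_abs_self R)
      rw [h0, norm_zero, zero_mul] at this
      linarith
    obtain ⟨n, H, hH, hHt, hFH⟩ := t40_factor hF hex t
    have hb : ∀ x : ℂ, ‖(x - t) ^ n‖ ≤ (1 + ‖t‖) ^ n * (1 + ‖x‖) ^ n := fun x => by
      rw [norm_pow, ← mul_pow]
      refine pow_le_pow_left₀ (norm_nonneg _) ((norm_sub_le _ _).trans ?_) n
      nlinarith [norm_nonneg x, norm_nonneg t]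
    have ht1 : (1 : ℝ) ≤ (1 + ‖t‖) ^ n := one_le_pow₀ (by linarith [norm_nonneg t])
    obtain ⟨C, k, hC, hk⟩ := ih H hH (fun x hx => by
        rcases Finset.mem_insert.1 (hz x (by rw [hFH, hx, mul_zero])) with h1 | h1
        · exact absurd (h1 ▸ hx) hHt
        · exact h1)
      ⟨R, c / (1 + ‖t‖) ^ n, n + m, by positivity, fun x hx => by
        have h1 := h x hx
        rw [hFH, norm_mul] at h1
        rw [div_le_iff₀ (by positivity)]
        refine h1.trans ?_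
        have h2 := mul_le_mul_of_nonneg_right (hb x)
          (show 0 ≤ ‖H x‖ * (1 + ‖x‖) ^ m by positivity)
        calc _ = ‖(x - t) ^ n‖ * (‖H x‖ * (1 + ‖x‖) ^ m) := by ring
          _ ≤ _ := h2
          _ = _ := by ring⟩
    refine ⟨(1 + ‖t‖) ^ n * C, n + k, one_le_mul_of_one_le_of_one_le ht1 hC, fun x => ?_⟩
    rw [hFH, norm_mul]
    calc _ ≤ (1 + ‖t‖) ^ n * (1 + ‖x‖) ^ n * (C * (1 + ‖x‖) ^ k) :=
          mul_le_mul (hb x) (hk x) (norm_nonneg _) (by positivity)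
      _ = _ := by ring

theorem t40_val {Φ : ℂ → ℂ} (hΦ : Differentiable ℂ Φ)
    (h : ∀ w : ℂ, w ≠ 4 → ∀ T : Finset ℂ, (∀ x ∈ T, Φ x = w) → T.card ≤ 5) : t40_PG Φ := by
  classical
  have han : AnalyticOnNhd ℂ Φ univ := fun z _ => hΦ.analyticAt z
  rcases han.is_constant_or_isOpenMap with ⟨w, hw⟩ | hop
  · exact ⟨max 1 ‖w‖, 0, le_max_left _ _, fun x => by simp [hw]⟩
  set S : Set ℕ := {n | ∃ w : ℂ, w ≠ 4 ∧ ∃ T : Finset ℂ, (∀ x ∈ T, Φ x = w) ∧ T.card = n} with hS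
  have hSb : BddAbove S := ⟨5, by
    rintro n ⟨w, hw, T, hT, rfl⟩
    exact h w hw T hT⟩
  have hSn : S.Nonempty := ⟨0, 0, by norm_num, ∅, by simp, rfl⟩
  obtain ⟨w₀, hw₀, T, hT, hTc⟩ := Nat.sSup_mem hSn hSb
  have hmax : ∀ w : ℂ, w ≠ 4 → ∀ T' : Finset ℂ, (∀ x ∈ T', Φ x = w) → T'.card ≤ T.card :=
    fun w hw T' hT' => hTc ▸ le_csSup hSb ⟨w, hw, T', hT', rfl⟩
  obtain ⟨V, hV, hVd⟩ := T.finite_toSet.t2_separation
  have hev : ∀ᶠ w in 𝓝 w₀, w ≠ 4 ∧ ∀ t ∈ T, w ∈ Φ '' (V t ∩ ball t 1) := by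
    refine (eventually_ne_nhds hw₀).and ((Filter.eventually_all_finset T).2 fun t ht => ?_)
    exact (hop _ ((hV t).2.inter isOpen_ball)).mem_nhds
      ⟨t, ⟨(hV t).1, mem_ball_self one_pos⟩, hT t ht⟩
  obtain ⟨δ, hδ, hball⟩ := Metric.eventually_nhds_iff.1 hev
  obtain ⟨R, hR⟩ := T.finite_toSet.isBounded.exists_norm_le
  have hfar : ∀ x, R + 1 ≤ ‖x‖ → δ ≤ ‖Φ x - w₀‖ := by
    intro x hx
    by_contra hlt
    obtain ⟨h4, hall⟩ := hball (y := Φ x) (by rw [dist_eq_norm]; exact not_le.1 hlt)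
    choose! g hg hgw using hall
    have hinj : Set.InjOn g T := fun a ha b hb hab => by
      by_contra hne
      exact Set.disjoint_left.1 (hVd ha hb hne) (hg a ha).1 (hab ▸ (hg b hb).1)
    have hx' : x ∉ T.image g := by
      intro hm
      obtain ⟨t, ht, rfl⟩ := Finset.mem_image.1 hm
      have h1 : ‖g t - t‖ < 1 := by simpa [dist_eq_norm] using (hg t ht).2
      have h2 := norm_le_norm_add_norm_sub' (g t) t
      linarith [hR t ht]
    have := hmax (Φ x) h4 (insert x (T.image g)) (fun y hy => by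
      rcases Finset.mem_insert.1 hy with rfl | hy
      · rfl
      · obtain ⟨t, ht, rfl⟩ := Finset.mem_image.1 hy
        exact hgw t ht)
    rw [Finset.card_insert_of_notMem hx', Finset.card_image_of_injOn hinj] at this
    omega
  obtain ⟨C, m, hC, hb⟩ := t40_zeros T (fun x => Φ x - w₀) (hΦ.sub_const _) (fun x hx => by
      by_contra hxT
      have := hmax w₀ hw₀ (insert x T) (fun y hy => by
        rcases Finset.mem_insert.1 hy with rfl | hy
        · exact sub_eq_zero.1 hx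
        · exact hT y hy)
      rw [Finset.card_insert_of_notMem hxT] at this
      omega)
    ⟨R + 1, δ, 0, hδ, fun x hx => by simpa using hfar x hx⟩
  refine ⟨C + ‖w₀‖, m, by linarith [norm_nonneg w₀], fun x => ?_⟩
  have h1 : (1 : ℝ) ≤ (1 + ‖x‖) ^ m := one_le_pow₀ (by linarith [norm_nonneg x])
  have h2 := norm_le_norm_add_norm_sub' (Φ x) w₀
  have h3 := le_mul_of_one_le_right (norm_nonneg w₀) h1
  have h4 := hb x
  rw [add_mul]
  linarith

theorem t40_ode {G Φ : ℂ → ℂ} (hG : Differentiable ℂ G) (h0 : G 0 = 0) {C : ℝ} {m : ℕ}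
    (hC : 0 ≤ C) (hΦ : ∀ x, ‖Φ x‖ ≤ C * (1 + ‖x‖) ^ m) (h : ∀ x, deriv G x ^ 2 = Φ x * G x)
    (x : ℂ) : ‖G x‖ ≤ ‖x‖ ^ 2 * (C * (1 + ‖x‖) ^ m) := by
  set s := ‖x‖ with hs
  have hs0 : 0 ≤ s := norm_nonneg x
  set A := C * (1 + s) ^ m with hA
  have hA0 : 0 ≤ A := by positivity
  obtain ⟨y, hy, hmax⟩ := (isCompact_closedBall (0 : ℂ) s).exists_isMaxOn
    ⟨0, mem_closedBall_self hs0⟩ hG.continuous.norm.continuousOn
  set M := ‖G y‖ with hM
  have hM0 : 0 ≤ M := norm_nonneg _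
  have hd : ∀ z ∈ closedBall (0 : ℂ) s, ‖deriv G z‖ ≤ √(A * M) := fun z hz => by
    refine Real.le_sqrt_of_sq_le ?_
    rw [← norm_pow, h z, norm_mul]
    refine mul_le_mul ((hΦ z).trans ?_) (hmax hz) (norm_nonneg _) hA0
    have := mem_closedBall_zero_iff.1 hz
    exact mul_le_mul_of_nonneg_left (pow_le_pow_left₀ (by positivity) (by linarith) m) hC
  have h1 := (convex_closedBall (0 : ℂ) s).norm_image_sub_le_of_norm_deriv_le
    (fun z _ => hG z) hd (mem_closedBall_self hs0) hy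
  rw [h0, sub_zero, sub_zero] at h1
  have h2 : M ≤ √(A * M) * s :=
    h1.trans (mul_le_mul_of_nonneg_left (mem_closedBall_zero_iff.1 hy) (Real.sqrt_nonneg _))
  have h3 : M ^ 2 ≤ A * M * s ^ 2 := by
    have := pow_le_pow_left₀ hM0 h2 2
    rwa [mul_pow, Real.sq_sqrt (mul_nonneg hA0 hM0)] at this
  have h4 : M ≤ s ^ 2 * A := by
    rcases hM0.eq_or_lt with h5 | h5
    · rw [← h5]; positivity
    · nlinarith
  exact (hmax (mem_closedBall_zero_iff.2 le_rfl)).trans h4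

/-- A zero-free entire function of bounded valence in the sense below is constant. -/
theorem entire_one {U : ℂ → ℂ} (hU : Differentiable ℂ U) (h0 : U 0 = 1) (hne : ∀ x, U x ≠ 0)
    (h : ∀ w : ℂ, w ≠ 4 → ∀ T : Finset ℂ, (∀ x ∈ T, Eu U x ^ 2 = w * U x ^ 3) → T.card ≤ 5) :
    ∀ x, U x = 1 := by
  have hU' : Differentiable ℂ (deriv U) :=
    differentiableOn_univ.1 (hU.differentiableOn.deriv isOpen_univ)
  have hE : Differentiable ℂ (Eu U) := (differentiable_id.mul hU').sub (hU.const_mul 2)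
  have hΦ : Differentiable ℂ fun x => Eu U x ^ 2 / U x ^ 3 :=
    (hE.pow 2).div (hU.pow 3) fun x => pow_ne_zero 3 (hne x)
  obtain ⟨C, m, hC, hb⟩ := t40_val hΦ fun w hw T hT => h w hw T fun x hx =>
    (div_eq_iff (pow_ne_zero 3 (hne x))).1 (hT x hx)
  have hG : ∀ x : ℂ, HasDerivAt (fun x => x ^ 2 / U x)
      ((((2 : ℕ) : ℂ) * x ^ (2 - 1) * U x - x ^ 2 * deriv U x) / U x ^ 2) x := fun x =>
    (hasDerivAt_pow 2 x).div (hU x).hasDerivAt (hne x)
  have key := t40_ode (G := fun x => x ^ 2 / U x) (fun x => (hG x).differentiableAt) (by simp)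
    (by linarith) hb (fun x => by
      rw [(hG x).deriv]
      have := hne x
      simp only [Eu]
      push_cast
      field_simp
      ring)
  have hW : Differentiable ℂ fun x => (U x)⁻¹ := hU.inv hne
  have hPG : t40_PG fun x => (U x)⁻¹ := by
    refine ⟨C, m, hC, fun x => ?_⟩
    rcases eq_or_ne x 0 with rfl | hx
    · simpa [h0] using hC
    · have h1 := key x
      have h2 : 0 < ‖x‖ ^ 2 := by positivity
      rw [div_eq_mul_inv, norm_mul, norm_pow] at h1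
      exact le_of_mul_le_mul_left h1 h2
  intro x
  have := t40_const hW (fun x => inv_ne_zero (hne x)) hPG x 0
  rw [inv_inj.1 this, h0]

end Pool.Agent.MP_28f8a1_an.H42

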