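import Pool.Agent.MP_28f8a1_an.H42.Defs

/-! Limit sets of zero length. -/

set_option autoImplicit false

namespace Pool.Agent.MP_28f8a1_an.H42

open MeasureTheory Metric Set Real Filter Topology Polynomial
open scoped ENNReal

theorem limSet_closed (l : Filter ℕ) (Z : ℕ → Set ℂ) : IsClosed (limSet l Z) := by
  refine isClosed_of_closure_subset fun x hx ε hε => ?_
  obtain ⟨y, hy, hxy⟩ := Metric.mem_closure_iff.1 hx (ε / 2) (half_pos hε)
  filter_upwards [hy (ε / 2) (half_pos hε)] with n ⟨z, hz, h⟩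
  refine ⟨z, hz, ?_⟩
  rw [← dist_eq_norm] at h ⊢
  linarith [dist_triangle_right z x y]

theorem limSet_away (𝒰 : Ultrafilter ℕ) {Z : ℕ → Set ℂ} {x : ℂ} (hx : x ∉ limSet 𝒰 Z) :
    ∃ ε > 0, ∀ᶠ n in (𝒰 : Filter ℕ), ∀ y ∈ ball x ε, y ∉ Z n := by
  by_contra hc
  refine hx fun ε hε => ?_
  have h1 : ¬ ∀ᶠ n in (𝒰 : Filter ℕ), ∀ y ∈ ball x ε, y ∉ Z n := fun h => hc ⟨ε, hε, h⟩
  filter_upwards [Ultrafilter.eventually_not.2 h1] with n hn
  by_contra h2
  exact hn fun y hy hz => h2 ⟨y, hz, mem_ball_iff_norm.1 hy⟩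

theorem t42_cover {l : Filter ℕ} [l.NeBot] {Z : ℕ → Set ℂ} {m k : ℕ} {η : ℝ} (h0 : 0 < η)
    (h1 : η ≤ 1) (h : ∀ n : ℕ, ∃ T : Finset ℂ, T.card ≤ m ∧ ∀ z ∈ Z n, ‖z‖ < k + 1 →
      ∃ p ∈ T, ‖z - p‖ < η) :
    ∃ T : Finset ℂ, T.card ≤ m ∧ limSet l Z ∩ closedBall 0 k ⊆ ⋃ p : T, ball (p : ℂ) (3 * η) := by
  obtain ⟨F, hF, hfin, hcov⟩ := finite_cover_balls_of_compact
    ((isCompact_closedBall (0 : ℂ) k).inter_left (limSet_closed l Z)) h0
  obtain ⟨n, hn⟩ := ((eventually_all_finite hfin).2 fun x hx => (hF hx).1 η h0).exists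
  obtain ⟨T, hT, hT'⟩ := h n
  refine ⟨T, hT, fun y hy => ?_⟩
  obtain ⟨x, hx, hyx⟩ := mem_iUnion₂.1 (hcov hy)
  obtain ⟨z, hz, hzx⟩ := hn x hx
  have hxk : ‖x‖ ≤ k := mem_closedBall_zero_iff.1 (hF hx).2
  obtain ⟨p, hp, hzp⟩ := hT' z hz (by linarith [norm_sub_norm_le z x])
  refine mem_iUnion.2 ⟨⟨p, hp⟩, ?_⟩
  rw [← dist_eq_norm] at hzx hzp
  have := dist_triangle4 y x z p
  rw [dist_comm x z] at this
  have hyx' : dist y x < η := hyx
  show dist y p < 3 * η
  linarith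

theorem limSet_null {l : Filter ℕ} [l.NeBot] {Z : ℕ → Set ℂ} (s : ℕ → ℕ)
    (h : ∀ n k : ℕ, ∃ T : Finset ℂ, T.card ≤ s k ∧ ∀ z ∈ Z n, ‖z‖ < k + 1 →
      ∃ p ∈ T, ‖z - p‖ * ((k + 1) * (s k + 1)) < 1) : μH[1] (limSet l Z) = 0 := by
  have hpos : ∀ k : ℕ, (0 : ℝ) < (k + 1) * (s k + 1) := fun k => by positivity
  have hone : ∀ k : ℕ, (1 : ℝ) ≤ (k + 1) * (s k + 1) := fun k => by
    have a : (0 : ℝ) ≤ k := Nat.cast_nonneg _
    have b : (0 : ℝ) ≤ s k := Nat.cast_nonneg _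
    nlinarith [mul_nonneg a b]
  choose T hT hcov using fun k : ℕ => t42_cover (l := l) (Z := Z) (m := s k) (k := k)
    (η := 1 / ((k + 1) * (s k + 1))) (one_div_pos.2 (hpos k)) ((div_le_one (hpos k)).2 (hone k))
    fun n => by
      obtain ⟨T, h1, h2⟩ := h n k
      refine ⟨T, h1, fun z hz hk => ?_⟩
      obtain ⟨p, hp, h3⟩ := h2 z hz hk
      exact ⟨p, hp, (lt_div_iff₀ (hpos k)).2 h3⟩
  have hd : ∀ (k : ℕ) (p : ℂ), ediam (ball p (3 * (1 / (((k : ℝ) + 1) * (s k + 1))))) ≤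
      ENNReal.ofReal (6 * (1 / (((k : ℝ) + 1) * (s k + 1)))) := fun k p =>
    ediam_le_of_forall_dist_le fun x hx y hy => by
      have := dist_triangle_right x y p
      linarith [mem_ball.1 hx, mem_ball.1 hy]
  have hle : ∀ k : ℕ, ∀ c : ℝ, c ≤ s k + 1 →
      c * (6 * (1 / (((k : ℝ) + 1) * (s k + 1)))) ≤ 6 * (1 / ((k : ℝ) + 1)) := fun k c hc => by
    refine (mul_le_mul_of_nonneg_right hc (by positivity)).trans (le_of_eq ?_)
    field_simp
  have hlim : Tendsto (fun k : ℕ => ENNReal.ofReal (6 * (1 / ((k : ℝ) + 1)))) atTop (𝓝 0) := by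
    have := ENNReal.tendsto_ofReal
      ((tendsto_one_div_add_atTop_nhds_zero_nat (𝕜 := ℝ)).const_mul 6)
    simpa using this
  have hR : ∀ R : ℕ, μH[1] (limSet l Z ∩ closedBall 0 R) = 0 := fun R => by
    have h1 := Measure.hausdorffMeasure_le_liminf_sum 1 (limSet l Z ∩ closedBall 0 R)
      (fun k : ℕ => ENNReal.ofReal (6 * (1 / ((k : ℝ) + 1)))) hlim
      (fun (k : ℕ) (p : T k) => ball (p : ℂ) (3 * (1 / (((k : ℝ) + 1) * (s k + 1)))))
      (Eventually.of_forall fun k p => (hd k p).trans (ENNReal.ofReal_le_ofReal (by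
        have := hle k 1 (by linarith [(Nat.cast_nonneg (s k) : (0 : ℝ) ≤ s k)])
        linarith)))
      (by
        filter_upwards [eventually_ge_atTop R] with k hk
        exact (inter_subset_inter_right _
          (closedBall_subset_closedBall (by exact_mod_cast hk))).trans (hcov k))
    refine le_antisymm (h1.trans ?_) zero_le
    rw [← hlim.liminf_eq]
    refine liminf_le_liminf (Eventually.of_forall fun k => ?_)
    simp only [ENNReal.rpow_one]
    refine (Finset.sum_le_card_nsmul _ _ _ fun (p : T k) _ => hd k (p : ℂ)).trans ?_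
    rw [nsmul_eq_mul, ← ENNReal.ofReal_natCast, ← ENNReal.ofReal_mul (Nat.cast_nonneg _)]
    refine ENNReal.ofReal_le_ofReal (hle k _ ?_)
    rw [Finset.card_univ, Fintype.card_coe]
    exact_mod_cast (hT k).trans (Nat.le_succ _)
  refine measure_mono_null (fun x hx => ?_) (measure_iUnion_null hR)
  obtain ⟨R, hR⟩ := exists_nat_ge ‖x‖
  exact mem_iUnion.2 ⟨R, hx, mem_closedBall_zero_iff.2 hR⟩

theorem t42_avoid {E : Set ℂ} (h : μH[1] E = 0) {f : ℂ → ℝ} {K : NNReal} (hf : LipschitzWith K f)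
    {a b : ℝ} (hab : a < b) : ∃ s ∈ Ioo a b, ∀ x ∈ E, f x ≠ s := by
  have h1 := hf.hausdorffMeasure_image_le zero_le_one E
  rw [h, mul_zero, hausdorffMeasure_real] at h1
  by_contra hc
  have h2 : Ioo a b ⊆ f '' E := fun s hs => by
    by_contra h3
    exact hc ⟨s, hs, fun x hx e => h3 ⟨x, hx, e⟩⟩
  have h3 := (measure_mono h2).trans h1
  rw [Real.volume_Ioo, nonpos_iff_eq_zero, ENNReal.ofReal_eq_zero] at h3
  linarith

theorem t42_conv {O E : Set ℂ} (hO : IsOpen O) (hc : Convex ℝ O) (hE : IsClosed E)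
    (h : μH[1] E = 0) : IsPreconnected (O \ E) := by
  refine isPreconnected_of_forall_pair fun x hx y hy => ?_
  rcases eq_or_ne x y with rfl | hxy
  · exact ⟨{x}, singleton_subset_iff.2 hx, rfl, rfl, isPreconnected_singleton⟩
  obtain ⟨a, ha, ha'⟩ := Metric.isOpen_iff.1 (hO.sdiff hE) x hx
  obtain ⟨b, hb, hb'⟩ := Metric.isOpen_iff.1 (hO.sdiff hE) y hy
  have hv : y - x ≠ 0 := sub_ne_zero.2 hxy.symm
  have hv' : 0 < ‖y - x‖ := norm_pos_iff.2 hv
  obtain ⟨s, hs, hs'⟩ := t42_avoid h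
    (Complex.imCLM.comp (ContinuousLinearMap.mul ℝ ℂ (y - x)⁻¹)).lipschitz
    (a := ((y - x)⁻¹ * x).im) (b := ((y - x)⁻¹ * x).im + min a b / ‖y - x‖)
    (lt_add_of_pos_right _ (div_pos (lt_min ha hb) hv'))
  obtain ⟨t, ht⟩ : ∃ t : ℝ, t = s - ((y - x)⁻¹ * x).im := ⟨_, rfl⟩
  have ht0 : 0 < t := by linarith [hs.1]
  have ht1 : t * ‖y - x‖ < min a b := (lt_div_iff₀ hv').1 (by linarith [hs.2])
  have hw : ‖(t : ℂ) * Complex.I * (y - x)‖ < min a b := by
    rw [norm_mul, norm_mul, Complex.norm_I, mul_one, Complex.norm_real, Real.norm_of_nonneg ht0.le]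
    exact ht1
  have hxa : x + t * Complex.I * (y - x) ∈ ball x a := by
    rw [mem_ball_iff_norm, add_sub_cancel_left]
    exact hw.trans_le (min_le_left _ _)
  have hyb : y + t * Complex.I * (y - x) ∈ ball y b := by
    rw [mem_ball_iff_norm, add_sub_cancel_left]
    exact hw.trans_le (min_le_right _ _)
  have hseg : segment ℝ (x + t * Complex.I * (y - x)) (y + t * Complex.I * (y - x)) ⊆ O \ E :=
    fun z hz => by
      refine ⟨hc.segment_subset (ha' hxa).1 (hb' hyb).1 hz, fun hzE => hs' z hzE ?_⟩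
      rw [segment_eq_image'] at hz
      obtain ⟨θ, -, rfl⟩ := hz
      have e : (y - x)⁻¹ * (x + t * Complex.I * (y - x) +
          θ • (y + t * Complex.I * (y - x) - (x + t * Complex.I * (y - x)))) =
          (y - x)⁻¹ * x + t * Complex.I + θ := by
        rw [Complex.real_smul]
        field_simp
        ring
      simp only [ContinuousLinearMap.comp_apply, ContinuousLinearMap.mul_apply',
        Complex.imCLM_apply]
      rw [e]
      simp only [Complex.add_im, Complex.ofReal_im, Complex.mul_I_im, Complex.ofReal_re]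
      linarith
  refine ⟨ball x a ∪ segment ℝ (x + t * Complex.I * (y - x)) (y + t * Complex.I * (y - x)) ∪
    ball y b, union_subset (union_subset ha' hseg) hb', Or.inl (Or.inl (mem_ball_self ha)),
    Or.inr (mem_ball_self hb), ?_⟩
  exact IsPreconnected.union _ (Or.inr (right_mem_segment _ _ _)) hyb
    (IsPreconnected.union _ hxa (left_mem_segment _ _ _) (convex_ball _ _).isPreconnected
      (convex_segment _ _).isPreconnected) (convex_ball _ _).isPreconnected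

theorem preconn_diff {O E : Set ℂ} (hO : IsOpen O) (hc : IsPreconnected O) (hE : IsClosed E)
    (h : μH[1] E = 0) : IsPreconnected (O \ E) := by
  intro u v hu hv huv ⟨x, hx, hxu⟩ ⟨y, hy, hyv⟩
  by_contra hn
  have ho := hO.sdiff hE
  have hd : Disjoint ((O \ E) ∩ u) ((O \ E) ∩ v) :=
    Set.disjoint_left.2 fun z h1 h2 => hn ⟨z, h1.1, h1.2, h2.2⟩
  obtain ⟨z, -, h1, h2⟩ := hc (interior ((O \ E) ∩ u ∪ E)) (interior ((O \ E) ∩ v ∪ E))
    isOpen_interior isOpen_interior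
    (fun z hz => by
      obtain ⟨r, hr, hr'⟩ := Metric.isOpen_iff.1 hO z hz
      have key : ∀ w : Set ℂ, ball z r \ E ⊆ w → z ∈ interior (w ∪ E) := fun w hw =>
        mem_interior.2 ⟨ball z r, fun p hp => (em (p ∈ E)).elim Or.inr fun q => Or.inl (hw ⟨hp, q⟩),
          isOpen_ball, mem_ball_self hr⟩
      refine ((t42_conv isOpen_ball (convex_ball z r) hE h).subset_or_subset (ho.inter hu)
        (ho.inter hv) hd fun p hp => ?_).imp (key _) (key _)
      have hp' : p ∈ O \ E := ⟨hr' hp.1, hp.2⟩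
      exact (huv hp').imp (fun q => ⟨hp', q⟩) fun q => ⟨hp', q⟩)
    ⟨x, hx.1, interior_maximal subset_union_left (ho.inter hu) ⟨hx, hxu⟩⟩
    ⟨y, hy.1, interior_maximal subset_union_left (ho.inter hv) ⟨hy, hyv⟩⟩
  obtain ⟨r, hr, hr'⟩ := Metric.isOpen_iff.1 (isOpen_interior.inter isOpen_interior) z ⟨h1, h2⟩
  obtain ⟨s, hs, hs'⟩ := t42_avoid h Complex.reCLM.lipschitz (a := z.re) (b := z.re + r)
    (by linarith)
  have hb : z + ((s - z.re : ℝ) : ℂ) ∈ ball z r := by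
    rw [mem_ball_iff_norm, add_sub_cancel_left, Complex.norm_real, Real.norm_eq_abs, abs_lt]
    constructor <;> linarith [hs.1, hs.2]
  have hnE : z + ((s - z.re : ℝ) : ℂ) ∉ E := fun q => hs' _ q (by simp)
  exact Set.disjoint_left.1 hd ((interior_subset (hr' hb).1).resolve_right hnE)
    ((interior_subset (hr' hb).2).resolve_right hnE)

theorem good_radius {E : Set ℂ} (h : μH[1] E = 0) {a b : ℝ} (hab : a < b) :
    ∃ s ∈ Ioo a b, ∀ x ∈ E, ‖x‖ ≠ s :=
  t42_avoid h lipschitzWith_one_norm hab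

/-- The domain used for a branched pull-back is connected. -/
theorem preconn_branch {E : Set ℂ} (hE : IsClosed E) (h : μH[1] E = 0) (h0 : (0 : ℂ) ∉ E) (e : ℕ)
    {x : ℂ} {L : ℝ} (hx : ‖x‖ < L) :
    IsPreconnected {τ : ℂ | τ ≠ 0 ∧ ‖x * (1 - τ ^ (e + 1))‖ < L ∧ x * (1 - τ ^ (e + 1)) ∉ E} := by
  have hg : Continuous fun τ : ℂ => x * (1 - τ ^ (e + 1)) := by fun_prop
  have hO : IsOpen {τ : ℂ | ‖x * (1 - τ ^ (e + 1))‖ < L} := isOpen_lt hg.norm continuous_const
  have hst : StarConvex ℝ (0 : ℂ) {τ : ℂ | ‖x * (1 - τ ^ (e + 1))‖ < L} := by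
    intro τ hτ a b _ hb hab
    have hb1 : b ^ (e + 1) ≤ 1 := pow_le_one₀ hb (by linarith)
    have := convex_ball (0 : ℂ) L (mem_ball_zero_iff.2 hx) (mem_ball_zero_iff.2 hτ)
      (sub_nonneg.2 hb1) (pow_nonneg hb _) (sub_add_cancel _ _)
    rw [mem_ball_zero_iff] at this
    have e1 : x * (1 - (a • (0 : ℂ) + b • τ) ^ (e + 1)) =
        (1 - b ^ (e + 1)) • x + b ^ (e + 1) • (x * (1 - τ ^ (e + 1))) := by
      simp only [smul_zero, zero_add, Complex.real_smul]
      push_cast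
      ring
    show ‖x * (1 - (a • (0 : ℂ) + b • τ) ^ (e + 1))‖ < L
    rw [e1]
    exact this
  have hn : μH[1] ((fun τ : ℂ => x * (1 - τ ^ (e + 1))) ⁻¹' E \ {0}) = 0 := by
    refine measure_null_of_locally_null _ fun τ hτ => ?_
    have hx0 : x ≠ 0 := by
      rintro rfl
      exact h0 (by simpa using hτ.1)
    have hτ0 : τ ≠ 0 := hτ.2
    have hd := ((hasStrictDerivAt_pow (e + 1) τ).const_sub 1).const_mul x
    have hd0 : x * -(((e + 1 : ℕ) : ℂ) * τ ^ (e + 1 - 1)) ≠ 0 :=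
      mul_ne_zero hx0 (neg_ne_zero.2 (mul_ne_zero (Nat.cast_ne_zero.2 (Nat.succ_ne_zero e))
        (pow_ne_zero _ hτ0)))
    obtain ⟨K, s, hs, hK⟩ := (hd.to_localInverse hd0).hasStrictFDerivAt.exists_lipschitzOnWith
    have h1 := (hK.mono (inter_subset_left (t := E))).hausdorffMeasure_image_le zero_le_one
    rw [measure_mono_null inter_subset_right h, mul_zero] at h1
    refine ⟨_, ?_, le_antisymm h1 zero_le⟩
    filter_upwards [self_mem_nhdsWithin, mem_nhdsWithin_of_mem_nhds (hd.eventually_left_inverse hd0),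
      mem_nhdsWithin_of_mem_nhds (hg.continuousAt.preimage_mem_nhds hs)] with w w1 w2 w3
    exact ⟨_, ⟨w3, w1.1⟩, w2⟩
  have := Measure.nullSingletonClass_hausdorff ℂ one_pos
  have key := preconn_diff hO (hst.isPathConnected (by simpa using hx)).isConnected.isPreconnected
    ((hE.preimage hg).union (isClosed_singleton (x := (0 : ℂ))))
    (by rw [← sdiff_union_self]; exact measure_union_null hn (measure_singleton _))
  refine (congrArg IsPreconnected (Set.ext fun τ => ?_)).mp key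
  exact ⟨fun q => ⟨fun w => q.2 (Or.inr w), q.1, fun w => q.2 (Or.inl w)⟩,
    fun q => ⟨q.2.1, fun w => w.elim q.2.2 q.1⟩⟩

end Pool.Agent.MP_28f8a1_an.H42
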