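import Pool.Agent.MP_28f8a1_an.Transfer

/-! Cycles of `z ^ (e + 1) + c` with their quadratic differentials. -/

set_option autoImplicit false

namespace Pool.Agent.MP_28f8a1_an.H42

open MeasureTheory Metric Set Real Filter Topology Polynomial
open scoped ENNReal

/-- The derivative of `fq e c` at `z`. -/
noncomputable def lam (e : ℕ) (z : ℂ) : ℂ := ((e + 1 : ℕ) : ℂ) * z ^ e

/-- A cycle `B` of `fq e c` with multiplier `ρ` and residues `a`. -/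
structure Cyc (e : ℕ) where
  c : ℂ
  B : Finset ℂ
  a : ℂ → ℂ
  ρ : ℂ
  ne : B.Nonempty
  maps : ∀ b ∈ B, fq e c b ∈ B
  inj : ∀ b ∈ B, ∀ b' ∈ B, fq e c b = fq e c b' → b = b'
  ne0 : ∀ b ∈ B, b ≠ 0
  rc : ∀ b ∈ B, a (fq e c b) = a b / lam e b - e / (b * lam e b)
  fix : ∀ b ∈ B, (fq e c)^[B.card] b = b
  mult : ∀ b ∈ B, Pd e c b B.card = ρ
  orb : ∀ b ∈ B, ∃ p : ℕ → ℂ, p 0 = b ∧ (∀ k, p k ∈ B) ∧ (∀ k, fq e c (p (k + 1)) = p k) ∧
    ∀ i < B.card, ∀ j < B.card, p i = p j → i = j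

namespace Cyc

variable {e : ℕ} (Y : Cyc e)

/-- The sum of the residues. -/
noncomputable def S : ℂ := ∑ b ∈ Y.B, Y.a b

/-- The quadratic differential. -/
noncomputable def q (z : ℂ) : ℂ := ∑ b ∈ Y.B, (((z - b) ^ 2)⁻¹ + Y.a b * (z - b)⁻¹)

noncomputable def D : ℂ[X] := ∏ b ∈ Y.B, (X - C b)

noncomputable def Db (b : ℂ) : ℂ[X] := ∏ b' ∈ Y.B.erase b, (X - C b')

noncomputable def N : ℂ[X] := ∑ b ∈ Y.B, (1 + C (Y.a b) * (X - C b)) * Y.Db b ^ 2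

noncomputable def M : ℂ[X] := 2 * derivative Y.D * Y.N - Y.D * derivative Y.N

/-- `(z - b) ^ 2 * q z`, extended over `b`. -/
noncomputable def U (b z : ℂ) : ℂ := Y.N.eval z / (Y.Db b).eval z ^ 2

/-- The error density of one pull-back step. -/
noncomputable def err (y : ℂ) : ℝ := loss e Y.c Y.q y + 2 * ‖Y.S‖ * gk Y.c y

/-- The error density of the pull-back along a branch `h` of order `k`. -/
noncomputable def Err (k : ℕ) (h : ℂ → ℂ) (z : ℂ) : ℝ :=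
  ∑ j ∈ Finset.range (k + 1),
    ‖deriv (fun v => (fq e Y.c)^[j] (h v)) z‖ ^ 2 * Y.err ((fq e Y.c)^[j] (h z))

end Cyc

/-- The operator `u ↦ x u' - 2 u`. -/
noncomputable def Eu (u : ℂ → ℂ) (x : ℂ) : ℂ := x * deriv u x - 2 * u x

/-- The set of limits of points of `Z n` along a filter. -/
def limSet (l : Filter ℕ) (Z : ℕ → Set ℂ) : Set ℂ :=
  {x | ∀ ε > 0, ∀ᶠ n in l, ∃ z ∈ Z n, ‖z - x‖ < ε}

end Pool.Agent.MP_28f8a1_an.H42
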