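import Pool.Agent.MP_28f8a1_an.H42.Thin
import Pool.Agent.MP_28f8a1_an.H42.Cx

/-! Maps close to the identity that almost preserve a differential. -/

set_option autoImplicit false

namespace Pool.Agent.MP_28f8a1_an.H42

open MeasureTheory Metric Set Real Filter Topology Polynomial
open scoped ENNReal

theorem t1277_cauchy {f : ℂ → ℂ} {x z : ℂ} {R s M : ℝ} (hs : 0 < s)
    (hf : DifferentiableOn ℂ f (ball x R)) (hM : ∀ y ∈ ball x R, ‖f y‖ ≤ M)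
    (hz : z ∈ ball x (R - s)) : ‖deriv f z‖ ≤ M / s := by
  have hsub : closedBall z s ⊆ ball x R := closedBall_subset_ball' (by
    rw [mem_ball] at hz
    linarith)
  exact Complex.norm_deriv_le_of_forall_mem_sphere_norm_le hs (hf.diffContOnCl_ball hsub)
    fun w hw => hM w (hsub (sphere_subset_closedBall hw))

theorem t1277_taylor {f : ℂ → ℂ} {x y v : ℂ} {s M : ℝ} (hs : 0 < s)
    (hf : DifferentiableOn ℂ f (ball x (4 * s))) (hM : ∀ y ∈ ball x (4 * s), ‖f y‖ ≤ M)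
    (hy : y ∈ ball x s) (hv : ‖v‖ ≤ s) :
    ‖deriv f y‖ ≤ M / s ∧ ‖f (y + v) - f y - deriv f y * v‖ ≤ M / s / s * ‖v‖ ^ 2 := by
  have h1 : ∀ z ∈ ball x (3 * s), ‖deriv f z‖ ≤ M / s := fun z hz =>
    t1277_cauchy hs hf hM (by rwa [show 4 * s - s = 3 * s by ring])
  have hd : DifferentiableOn ℂ (deriv f) (ball x (3 * s)) :=
    (hf.deriv isOpen_ball).mono (ball_subset_ball (by linarith))
  have h2 : ∀ z ∈ ball x (2 * s), ‖deriv (deriv f) z‖ ≤ M / s / s := fun z hz =>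
    t1277_cauchy hs hd h1 (by rwa [show 3 * s - s = 2 * s by ring])
  have hsub : closedBall y ‖v‖ ⊆ ball x (2 * s) := closedBall_subset_ball' (by
    rw [mem_ball] at hy
    linarith)
  have hsub3 : closedBall y ‖v‖ ⊆ ball x (3 * s) := hsub.trans (ball_subset_ball (by linarith))
  have hsub4 : closedBall y ‖v‖ ⊆ ball x (4 * s) := hsub.trans (ball_subset_ball (by linarith))
  have hy0 : y ∈ closedBall y ‖v‖ := mem_closedBall_self (norm_nonneg _)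
  have hK : 0 ≤ M / s / s := (norm_nonneg _).trans (h2 y (hsub hy0))
  refine ⟨h1 y (hsub3 hy0), ?_⟩
  have h3 : ∀ z ∈ closedBall y ‖v‖, ‖deriv f z - deriv f y‖ ≤ M / s / s * ‖v‖ := fun z hz =>
    ((convex_closedBall y ‖v‖).norm_image_sub_le_of_norm_deriv_le (𝕜 := ℂ)
      (fun w hw => hd.differentiableAt (isOpen_ball.mem_nhds (hsub3 hw)))
      (fun w hw => h2 w (hsub hw)) hy0 hz).trans
      (mul_le_mul_of_nonneg_left (mem_closedBall_iff_norm.1 hz) hK)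
  have h4 := (convex_closedBall y ‖v‖).norm_image_sub_le_of_norm_hasDerivWithin_le (𝕜 := ℂ)
    (f := fun z => f z - deriv f y * z) (f' := fun z => deriv f z - deriv f y)
    (fun w hw => (((hf.differentiableAt (isOpen_ball.mem_nhds (hsub4 hw))).hasDerivAt.sub
      (by simpa using (hasDerivAt_id w).const_mul (deriv f y))).hasDerivWithinAt)) h3 hy0
    (show y + v ∈ closedBall y ‖v‖ by simp)
  rw [add_sub_cancel_left] at h4
  calc ‖f (y + v) - f y - deriv f y * v‖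
      = ‖f (y + v) - deriv f y * (y + v) - (f y - deriv f y * y)‖ := by congr 1; ring
    _ ≤ M / s / s * ‖v‖ * ‖v‖ := h4
    _ = M / s / s * ‖v‖ ^ 2 := by ring

theorem t1277_alg {q q₁ v v₁ R a : ℂ} {K η β : ℝ}
    (h : q = a * (q + q₁ * v + R) * (1 + v₁) ^ 2) (hq : ‖q‖ ≤ K) (hq₁ : ‖q₁‖ ≤ K)
    (hR : ‖R‖ ≤ K * ‖v‖ ^ 2) (hv : ‖v‖ ≤ η) (hv₁ : ‖v₁‖ ≤ η) (hη : η ≤ 1) (ha : ‖1 - a‖ ≤ β)
    (hβ : β ≤ 1 / 2) : ‖2 * q * v₁ + q₁ * v‖ ≤ 2 * K * β + 4 * K * η * (‖v‖ + ‖v₁‖) := by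
  have hK : 0 ≤ K := (norm_nonneg _).trans hq
  have h0 := norm_nonneg v
  have h1 := norm_nonneg v₁
  have ha' : 1 / 2 ≤ ‖a‖ := by
    have := norm_sub_norm_le (1 : ℂ) a
    rw [norm_one] at this
    linarith
  have ha0 : a ≠ 0 := norm_pos_iff.1 (by linarith)
  have e : 2 * q * v₁ + q₁ * v = (1 - a) * q / a -
      (q * (v₁ * v₁) + q₁ * (v * (v₁ * (2 + v₁))) + R * (1 + v₁) ^ 2) := by
    field_simp
    linear_combination -h
  have b1 : ‖(1 - a) * q / a‖ ≤ 2 * K * β := by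
    rw [norm_div, norm_mul, div_le_iff₀ (by linarith)]
    have := mul_le_mul ha hq (norm_nonneg _) ((norm_nonneg _).trans ha)
    have h2 : 0 ≤ K * β := mul_nonneg hK ((norm_nonneg _).trans ha)
    nlinarith
  have b2 : ‖q * (v₁ * v₁)‖ ≤ K * (η * ‖v₁‖) := by
    rw [norm_mul, norm_mul]
    gcongr
  have c1 : ‖2 + v₁‖ ≤ 3 := by
    have := norm_add_le (2 : ℂ) v₁
    rw [Complex.norm_two] at this
    linarith
  have c2 : ‖1 + v₁‖ ≤ 2 := by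
    have := norm_add_le (1 : ℂ) v₁
    rw [norm_one] at this
    linarith
  have hη0 : 0 ≤ η := h0.trans hv
  have b3 : ‖q₁ * (v * (v₁ * (2 + v₁)))‖ ≤ K * (η * (‖v₁‖ * 3)) := by
    rw [norm_mul, norm_mul, norm_mul]
    gcongr
  have b4 : ‖R * (1 + v₁) ^ 2‖ ≤ K * (η * ‖v‖) * 2 ^ 2 := by
    rw [norm_mul, norm_pow]
    have : K * ‖v‖ ^ 2 ≤ K * (η * ‖v‖) := by
      rw [pow_two]
      gcongr
    gcongr
    exact hR.trans this
  rw [e]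
  refine (norm_sub_le _ _).trans ?_
  have b5 := norm_add₃_le (a := q * (v₁ * v₁)) (b := q₁ * (v * (v₁ * (2 + v₁))))
    (c := R * (1 + v₁) ^ 2)
  linarith

/-- the local estimate at a point different from the origin -/
def t1277_Loc (l : Filter ℕ) (h q : ℕ → ℂ → ℂ) (τ : ℕ → ℂ) (x : ℂ) : Prop :=
  ∃ ε > 0, ∃ K > 0, ∀ θ > 0, ∀ᶠ n in l, DifferentiableOn ℂ (q n) (ball x ε) ∧ ∀ y ∈ ball x ε,
    K⁻¹ ≤ ‖q n y‖ ∧ ‖deriv (q n) y‖ ≤ K ∧
      ‖2 * q n y * deriv (h n) y + deriv (q n) y * h n y‖ ≤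
        θ * (‖τ n‖ + ‖h n y‖ + ‖deriv (h n) y‖)

theorem t1277_key {l : Filter ℕ} {h q : ℕ → ℂ → ℂ} {τ : ℕ → ℂ} {x : ℂ}
    (hd : ∀ n, Differentiable ℂ (h n)) (h1 : ∀ n, deriv (h n) 0 = τ n)
    (hs : ∀ L η : ℝ, 0 < η → ∀ᶠ n in l, ∀ y ∈ ball (0 : ℂ) L, ‖h n y‖ ≤ η)
    {ε m : ℝ} (hε : 0 < ε) (hm : 0 < m)
    (hq : ∀ δ > 0, ∀ᶠ n in l, DifferentiableOn ℂ (q n) (ball x ε) ∧ ∀ y ∈ ball x ε,
      m⁻¹ ≤ ‖q n y‖ ∧ ‖q n y‖ ≤ m ∧ ∃ a : ℂ, ‖1 - a‖ ≤ δ * ‖τ n‖ ∧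
        q n y = a * q n (y + h n y) * (1 + deriv (h n) y) ^ 2) : t1277_Loc l h q τ x := by
  obtain ⟨s, hs4⟩ : ∃ s, ε = 4 * s := ⟨ε / 4, by ring⟩
  subst hs4
  have hs0 : 0 < s := by linarith
  have p1 : 0 < m / s := by positivity
  have p2 : 0 < m / s / s := by positivity
  obtain ⟨K, hK⟩ : ∃ K, K = m + m / s + m / s / s := ⟨_, rfl⟩
  have hK0 : 0 < K := by linarith
  refine ⟨s, hs0, K, hK0, fun θ hθ => ?_⟩
  obtain ⟨η, hη0, hη1, hηs, hηθ⟩ : ∃ η : ℝ, 0 < η ∧ η ≤ 1 / 2 ∧ η ≤ s ∧ η ≤ θ / (4 * K) :=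
    ⟨min (1 / 2) (min s (θ / (4 * K))), by positivity, min_le_left _ _,
      (min_le_right _ _).trans (min_le_left _ _), (min_le_right _ _).trans (min_le_right _ _)⟩
  rw [le_div_iff₀ (by positivity)] at hηθ
  filter_upwards [hq η hη0, hs (‖x‖ + s + 1) η hη0] with n ⟨hqd, hqn⟩ hn
  have hder : ∀ z ∈ ball (0 : ℂ) (‖x‖ + s), ‖deriv (h n) z‖ ≤ η := fun z hz => by
    have := t1277_cauchy one_pos (hd n).differentiableOn hn (by rwa [add_sub_cancel_right])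
    rwa [div_one] at this
  have hτ : ‖τ n‖ ≤ 1 := by
    have := hder 0 (mem_ball_self (by positivity))
    rw [h1] at this
    linarith
  have hsub : ball x s ⊆ ball x (4 * s) := ball_subset_ball (by linarith)
  refine ⟨hqd.mono hsub, fun y hy => ?_⟩
  have hy1 : y ∈ ball (0 : ℂ) (‖x‖ + s) := by
    have := norm_le_norm_add_norm_sub' y x
    rw [mem_ball_iff_norm] at hy
    exact mem_ball_zero_iff.2 (by linarith)
  have hv := hn y (ball_subset_ball (by linarith) hy1)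
  obtain ⟨c1, c2, a, ha, he⟩ := hqn y (hsub hy)
  obtain ⟨d1, d2⟩ := t1277_taylor hs0 hqd (fun z hz => (hqn z hz).2.1) hy (hv.trans hηs)
  refine ⟨le_trans (inv_anti₀ hm (by linarith)) c1, by linarith, ?_⟩
  have hβ : η * ‖τ n‖ ≤ 1 / 2 := by nlinarith [norm_nonneg (τ n)]
  have key := t1277_alg (K := K) (q₁ := deriv (q n) y) (v := h n y)
    (R := q n (y + h n y) - q n y - deriv (q n) y * h n y) (by
      rw [show q n y + deriv (q n) y * h n y +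
        (q n (y + h n y) - q n y - deriv (q n) y * h n y) = q n (y + h n y) by ring]
      exact he) (by linarith) (by linarith)
    (d2.trans (mul_le_mul_of_nonneg_right (by linarith) (by positivity))) hv (hder y hy1)
    (by linarith) ha hβ
  refine key.trans ?_
  have e1 := mul_le_mul_of_nonneg_right hηθ (norm_nonneg (τ n))
  have e2 := mul_le_mul_of_nonneg_right hηθ
    (add_nonneg (norm_nonneg (h n y)) (norm_nonneg (deriv (h n) y)))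
  have e3 : 0 ≤ η * K * ‖τ n‖ := by positivity
  nlinarith

theorem t1277_der {l : Filter ℕ} {h q : ℕ → ℂ → ℂ} {τ : ℕ → ℂ} {x : ℂ} {ε K : ℝ} (hK : 0 < K)
    (H : ∀ θ > 0, ∀ᶠ n in l, DifferentiableOn ℂ (q n) (ball x ε) ∧ ∀ y ∈ ball x ε,
      K⁻¹ ≤ ‖q n y‖ ∧ ‖deriv (q n) y‖ ≤ K ∧
        ‖2 * q n y * deriv (h n) y + deriv (q n) y * h n y‖ ≤
          θ * (‖τ n‖ + ‖h n y‖ + ‖deriv (h n) y‖)) :
    ∀ᶠ n in l, ∀ y ∈ ball x ε, ‖deriv (h n) y‖ ≤ (K ^ 2 + 1) * (‖τ n‖ + ‖h n y‖) := by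
  filter_upwards [H K⁻¹ (by positivity)] with n hn y hy
  obtain ⟨c1, c2, c3⟩ := hn.2 y hy
  have a1 := norm_sub_le (2 * q n y * deriv (h n) y + deriv (q n) y * h n y) (deriv (q n) y * h n y)
  rw [add_sub_cancel_right, norm_mul, norm_mul, norm_mul, Complex.norm_two] at a1
  have a2 := mul_le_mul_of_nonneg_right c1 (norm_nonneg (deriv (h n) y))
  have a3 := mul_le_mul_of_nonneg_right c2 (norm_nonneg (h n y))
  have a4 : K⁻¹ * ‖deriv (h n) y‖ ≤ K⁻¹ * (‖τ n‖ + ‖h n y‖) + K * ‖h n y‖ := by linarith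
  have a5 := mul_le_mul_of_nonneg_left a4 hK.le
  rw [mul_add, ← mul_assoc, ← mul_assoc, mul_inv_cancel₀ hK.ne', one_mul, one_mul] at a5
  have a6 : 0 ≤ K ^ 2 * ‖τ n‖ := by positivity
  nlinarith

theorem t1277_gron {G : ℂ → ℂ} {x y₀ : ℂ} {s K t : ℝ} (hK : 0 ≤ K) (ht : 0 ≤ t)
    (hs : 4 * s * K ≤ 1) (hG : Differentiable ℂ G)
    (hd : ∀ y ∈ closedBall x s, ‖deriv G y‖ ≤ K * (t + ‖G y‖)) (hy₀ : y₀ ∈ closedBall x s) :
    ∀ y ∈ closedBall x s, ‖G y‖ ≤ 2 * ‖G y₀‖ + t := by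
  obtain ⟨z, hz, hmax⟩ := (isCompact_closedBall x s).exists_isMaxOn ⟨y₀, hy₀⟩
    hG.continuous.norm.continuousOn
  have hb : ∀ y ∈ closedBall x s, ‖deriv G y‖ ≤ K * (t + ‖G z‖) := fun y hy =>
    (hd y hy).trans (mul_le_mul_of_nonneg_left (add_le_add le_rfl (hmax hy)) hK)
  have h1 := (convex_closedBall x s).norm_image_sub_le_of_norm_deriv_le (𝕜 := ℂ)
    (fun w _ => hG w) hb hy₀ hz
  have h2 : ‖z - y₀‖ ≤ 2 * s := by
    have := norm_sub_le_norm_sub_add_norm_sub z x y₀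
    rw [mem_closedBall_iff_norm] at hz
    rw [mem_closedBall_iff_norm'] at hy₀
    linarith
  have h3 : 0 ≤ t + ‖G z‖ := by positivity
  have h4 := mul_le_mul_of_nonneg_left h2 (mul_nonneg hK h3)
  have h5 := mul_le_mul_of_nonneg_right hs h3
  have h6 := norm_sub_norm_le (G z) (G y₀)
  intro y hy
  have h7 : ‖G y‖ ≤ ‖G z‖ := hmax hy
  nlinarith

theorem t1277_prop {O : Set ℂ} (hO : IsPreconnected O) {A : ℂ → Prop}
    (h : ∀ x ∈ O, ∃ δ > 0, ∀ y ∈ ball x δ, ∀ y' ∈ ball x δ, A y → A y') {x₀ : ℂ} (hx₀ : x₀ ∈ O)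
    (h0 : A x₀) : ∀ x ∈ O, A x := fun x hx =>
  hO.induction₂' (fun a b => A a → A b) (fun a ha => by
    obtain ⟨δ, hδ, H⟩ := h a ha
    filter_upwards [mem_nhdsWithin_of_mem_nhds (ball_mem_nhds a hδ)] with b hb
    exact ⟨H a (mem_ball_self hδ) b hb, H b hb a (mem_ball_self hδ)⟩)
    (fun _ _ _ _ _ _ h1 h2 h3 => h2 (h1 h3)) hx₀ hx h0

theorem t1277_cpt {l : Filter ℕ} {K : Set ℂ} (hK : IsCompact K) {F : ℕ → ℂ → ℝ}
    (h : ∀ x ∈ K, ∃ ε > 0, ∃ m, ∀ᶠ n in l, ∀ y ∈ ball x ε, F n y ≤ m) :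
    ∃ m, ∀ᶠ n in l, ∀ y ∈ K, F n y ≤ m := by
  refine hK.induction_on (p := fun S => ∃ m, ∀ᶠ n in l, ∀ y ∈ S, F n y ≤ m) ⟨0, by simp⟩
    (fun _ _ hst ⟨m, ht⟩ => ⟨m, ht.mono fun n hn y hy => hn y (hst hy)⟩)
    (fun _ _ ⟨m, hs⟩ ⟨m', ht⟩ => ⟨max m m', (hs.and ht).mono fun n hn y hy =>
      hy.elim (fun h => (hn.1 y h).trans (le_max_left _ _))
        (fun h => (hn.2 y h).trans (le_max_right _ _))⟩) ?_
  intro x hx
  obtain ⟨ε, hε, hx'⟩ := h x hx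
  exact ⟨ball x ε, mem_nhdsWithin_of_mem_nhds (ball_mem_nhds x hε), hx'⟩

theorem t1277_bdd {l : Filter ℕ} {O : Set ℂ} (hO : IsPreconnected O) {h q : ℕ → ℂ → ℂ}
    {τ μ : ℕ → ℂ} (hd : ∀ n, Differentiable ℂ (h n)) (hL : ∀ x ∈ O, t1277_Loc l h q τ x)
    (hμ : ∀ n, μ n ≠ 0) {c : ℝ} (hτ : ∀ᶠ n in l, ‖τ n / μ n‖ ≤ c) {y₀ : ℂ} (hy₀ : y₀ ∈ O)
    (h0 : ∃ m, ∀ᶠ n in l, ‖h n y₀ / μ n‖ ≤ m) :
    ∀ x ∈ O, ∃ δ > 0, ∃ m, ∀ᶠ n in l, ∀ y ∈ ball x δ, ‖h n y / μ n‖ ≤ m := by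
  have loc : ∀ x ∈ O, ∃ δ > 0, ∀ y ∈ ball x δ, (∃ m, ∀ᶠ n in l, ‖h n y / μ n‖ ≤ m) →
      ∃ m, ∀ᶠ n in l, ∀ y ∈ ball x δ, ‖h n y / μ n‖ ≤ m := by
    intro x hx
    obtain ⟨ε, hε, K, hK, H⟩ := hL x hx
    obtain ⟨s, hs0, hs1, hs2⟩ : ∃ s : ℝ, 0 < s ∧ s < ε ∧ s ≤ 1 / (4 * (K ^ 2 + 1)) :=
      ⟨min (ε / 2) (1 / (4 * (K ^ 2 + 1))), by positivity,
        (min_le_left _ _).trans_lt (half_lt_self hε), min_le_right _ _⟩
    rw [le_div_iff₀ (by positivity)] at hs2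
    refine ⟨s, hs0, fun y hy ⟨m, hm⟩ => ⟨2 * m + c, ?_⟩⟩
    filter_upwards [t1277_der hK H, hm, hτ] with n hn a1 a2 z hz
    have := t1277_gron (by positivity) (norm_nonneg (τ n)) (by linarith) (hd n)
      (fun w hw => hn w (closedBall_subset_ball hs1 hw)) (ball_subset_closedBall hy) z
      (ball_subset_closedBall hz)
    have hp := norm_pos_iff.2 (hμ n)
    rw [norm_div, div_le_iff₀ hp] at a1 a2 ⊢
    linarith
  have all := t1277_prop hO (A := fun y => ∃ m, ∀ᶠ n in l, ‖h n y / μ n‖ ≤ m) (fun x hx => by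
    obtain ⟨δ, hδ, H⟩ := loc x hx
    refine ⟨δ, hδ, fun y hy y' hy' hA => ?_⟩
    obtain ⟨m, hm⟩ := H y hy hA
    exact ⟨m, hm.mono fun n hn => hn y' hy'⟩) hy₀ h0
  intro x hx
  obtain ⟨δ, hδ, H⟩ := loc x hx
  exact ⟨δ, hδ, H x (mem_ball_self hδ) (all x hx)⟩

theorem t1277_osc {l : Filter ℕ} {h q : ℕ → ℂ → ℂ} {τ μ : ℕ → ℂ} {x : ℂ}
    (hd : ∀ n, Differentiable ℂ (h n)) (hL : t1277_Loc l h q τ x) (hμ : ∀ n, μ n ≠ 0) {c : ℝ}
    (hτ : ∀ᶠ n in l, ‖τ n / μ n‖ ≤ c)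
    (hb : ∃ δ > 0, ∃ m, ∀ᶠ n in l, ∀ y ∈ ball x δ, ‖h n y / μ n‖ ≤ m) :
    ∃ δ > 0, ∀ η > 0, ∀ᶠ n in l, ∀ y ∈ ball x δ, ∀ y' ∈ ball x δ,
      ‖(h n y' / μ n) ^ 2 * q n y' - (h n y / μ n) ^ 2 * q n y‖ ≤ η := by
  obtain ⟨ε, hε, K, hK, H⟩ := hL
  obtain ⟨δ, hδ, m, hm⟩ := hb
  obtain ⟨s, hs0, hs1, hs2, hs3⟩ : ∃ s : ℝ, 0 < s ∧ s ≤ ε ∧ s ≤ δ ∧ s ≤ 1 / 2 :=
    ⟨min ε (min δ (1 / 2)), by positivity, min_le_left _ _,
      (min_le_right _ _).trans (min_le_left _ _), (min_le_right _ _).trans (min_le_right _ _)⟩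
  refine ⟨s, hs0, fun η hη => ?_⟩
  obtain ⟨B, hB⟩ : ∃ B, B = |m| * ((K ^ 2 + 2) * (|c| + |m|)) + 1 := ⟨_, rfl⟩
  have hB0 : 0 < B := by rw [hB]; positivity
  filter_upwards [H (η / B) (by positivity), t1277_der hK H, hm, hτ] with n ⟨hq, a1⟩ a2 a3 a4 y hy
    y' hy'
  have hp := norm_pos_iff.2 (hμ n)
  have key := (convex_ball x s).norm_image_sub_le_of_norm_hasDerivWithin_le (𝕜 := ℂ) (C := η)
    (f := fun z => (h n z / μ n) ^ 2 * q n z)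
    (f' := fun z => h n z / μ n *
      ((2 * q n z * deriv (h n) z + deriv (q n) z * h n z) / μ n))
    (fun w hw => by
      have d1 := (((hd n w).hasDerivAt.div_const (μ n)).pow 2).mul
        (hq.differentiableAt (isOpen_ball.mem_nhds (ball_subset_ball hs1 hw))).hasDerivAt
      refine (d1.congr_deriv ?_).hasDerivWithinAt
      simp only [Pi.pow_apply]
      push_cast
      ring)
    (fun w hw => by
      have b1 := (a1 w (ball_subset_ball hs1 hw)).2.2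
      have b2 := a2 w (ball_subset_ball hs1 hw)
      have b3 := (a3 w (ball_subset_ball hs2 hw)).trans (le_abs_self m)
      have b4 := a4.trans (le_abs_self c)
      have b5 : ‖(2 * q n w * deriv (h n) w + deriv (q n) w * h n w) / μ n‖ ≤
          η / B * ((K ^ 2 + 2) * (|c| + |m|)) := by
        rw [norm_div, div_le_iff₀ hp] at b3 b4 ⊢
        refine b1.trans ?_
        rw [mul_assoc]
        refine mul_le_mul_of_nonneg_left ?_ (by positivity)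
        have b6 : (K ^ 2 + 2) * (‖τ n‖ + ‖h n w‖) ≤ (K ^ 2 + 2) * ((|c| + |m|) * ‖μ n‖) :=
          mul_le_mul_of_nonneg_left (by linarith) (by positivity)
        linarith
      rw [norm_mul]
      calc _ ≤ |m| * (η / B * ((K ^ 2 + 2) * (|c| + |m|))) :=
            mul_le_mul b3 b5 (norm_nonneg _) (abs_nonneg _)
        _ = η / B * (B - 1) := by rw [hB]; ring
        _ ≤ η / B * B := mul_le_mul_of_nonneg_left (by linarith) (by positivity)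
        _ = η := by field_simp) hy hy'
  refine key.trans ?_
  have h2 : ‖y' - y‖ ≤ 1 := by
    have := norm_sub_le_norm_sub_add_norm_sub y' x y
    rw [mem_ball_iff_norm] at hy'
    rw [mem_ball_iff_norm'] at hy
    linarith
  exact mul_le_of_le_one_right hη.le h2

theorem t1277_const {l : Filter ℕ} {O : Set ℂ} (hO : IsPreconnected O) {h u : ℕ → ℂ → ℂ}
    {τ μ : ℕ → ℂ} (hd : ∀ n, Differentiable ℂ (h n)) (h0 : ∀ n, h n 0 = 0)
    (h1 : ∀ n, deriv (h n) 0 = τ n) (u0 : ∀ n, u n 0 = 1)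
    (hL : ∀ x ∈ O, t1277_Loc l h (fun n y => u n y / y ^ 2) τ x)
    (hμ : ∀ n, μ n ≠ 0) {c : ℝ} (hτ : ∀ᶠ n in l, ‖τ n / μ n‖ ≤ c) {r R : ℝ} (hr : 0 < r)
    (hR : r < R) (hS : sphere (0 : ℂ) r ⊆ O)
    (hu : ∀ᶠ n in l, DifferentiableOn ℂ (u n) (ball 0 R))
    (hb : ∃ m, ∀ᶠ n in l, ‖h n r / μ n‖ ≤ m) :
    ∀ x ∈ O, ∃ δ > 0, ∀ η > 0, ∀ᶠ n in l, ∀ y ∈ ball x δ,
      ‖(h n y / μ n) ^ 2 * (u n y / y ^ 2) - (τ n / μ n) ^ 2‖ ≤ η := by
  have hy₀ : (r : ℂ) ∈ O := hS (by simp [abs_of_pos hr])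
  have loc := fun x hx => t1277_osc hd (hL x hx) hμ hτ (t1277_bdd hO hd hL hμ hτ hy₀ hb x hx)
  obtain ⟨C, hC⟩ : ∃ C : ℕ → ℂ, ∀ n, C n = (h n r / μ n) ^ 2 * (u n r / (r : ℂ) ^ 2) :=
    ⟨_, fun _ => rfl⟩
  have all := t1277_prop hO
    (A := fun y => ∀ η > 0, ∀ᶠ n in l, ‖(h n y / μ n) ^ 2 * (u n y / y ^ 2) - C n‖ ≤ η)
    (fun x hx => by
      obtain ⟨δ, hδ, H⟩ := loc x hx
      refine ⟨δ, hδ, fun y hy y' hy' hA η hη => ?_⟩
      filter_upwards [H (η / 2) (half_pos hη), hA (η / 2) (half_pos hη)] with n a1 a2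
      exact (norm_sub_le_norm_sub_add_norm_sub _ _ _).trans
        ((add_le_add (a1 y hy y' hy') a2).trans_eq (add_halves η))) hy₀
    (fun η hη => Eventually.of_forall fun n => by rw [hC, sub_self, norm_zero]; exact hη.le)
  have loc2 : ∀ x ∈ O, ∃ δ > 0, ∀ η > 0, ∀ᶠ n in l, ∀ y ∈ ball x δ,
      ‖(h n y / μ n) ^ 2 * (u n y / y ^ 2) - C n‖ ≤ η := fun x hx => by
    obtain ⟨δ, hδ, H⟩ := loc x hx
    refine ⟨δ, hδ, fun η hη => ?_⟩
    filter_upwards [H (η / 2) (half_pos hη), all x hx (η / 2) (half_pos hη)] with n a1 a2 y hy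
    exact (norm_sub_le_norm_sub_add_norm_sub _ _ _).trans
      ((add_le_add (a1 x (mem_ball_self hδ) y hy) a2).trans_eq (add_halves η))
  have zero : ∀ η > 0, ∀ᶠ n in l, ‖(τ n / μ n) ^ 2 - C n‖ ≤ η := fun η hη => by
    have a1 := ev_compact (l := l) (isCompact_sphere (0 : ℂ) r)
      (Q := fun n y => ‖(h n y / μ n) ^ 2 * (u n y / y ^ 2) - C n‖ ≤ η) (fun x hx => by
        obtain ⟨δ, hδ, H⟩ := loc2 x (hS hx)
        exact ⟨δ, hδ, H η hη⟩)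
    filter_upwards [a1, hu] with n a2 a3
    have hds : DifferentiableOn ℂ (dslope (h n) 0) (ball 0 R) :=
      (Complex.differentiableOn_dslope (ball_mem_nhds 0 (hr.trans hR))).2 (hd n).differentiableOn
    have a4 := max_disc (F := fun y => (dslope (h n) 0 y / μ n) ^ 2 * u n y - C n) (m := η) hr hR
      ((((hds.div_const _).pow 2).mul a3).sub_const _) (fun y hy => by
        rw [sub_zero] at hy
        have hy0 : y ≠ 0 := norm_pos_iff.1 (by rw [hy]; exact hr)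
        have e := sub_smul_dslope (h n) 0 y
        rw [sub_zero, h0, sub_zero, smul_eq_mul] at e
        have a5 := a2 y (mem_sphere_zero_iff_norm.2 hy)
        rw [← e] at a5
        refine le_trans (le_of_eq ?_) a5
        congr 2
        field_simp) 0 (by simp [hr.le])
    simpa only [dslope_same, h1, u0, mul_one] using a4
  intro x hx
  obtain ⟨δ, hδ, H⟩ := loc2 x hx
  refine ⟨δ, hδ, fun η hη => ?_⟩
  filter_upwards [H (η / 2) (half_pos hη), zero (η / 2) (half_pos hη)] with n a1 a2 y hy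
  rw [norm_sub_rev] at a2
  exact (norm_sub_le_norm_sub_add_norm_sub _ _ _).trans
    ((add_le_add (a1 y hy) a2).trans_eq (add_halves η))

theorem vector_field (𝒰 : Ultrafilter ℕ) {E : Set ℂ} (hE : IsClosed E) (hE0 : μH[1] E = 0)
    (hE1 : (0 : ℂ) ∉ E) {h u : ℕ → ℂ → ℂ} {τ : ℕ → ℂ} (hτ : ∀ n, τ n ≠ 0)
    (hd : ∀ n, Differentiable ℂ (h n)) (h0 : ∀ n, h n 0 = 0) (h1 : ∀ n, deriv (h n) 0 = τ n)
    (hs : ∀ L η : ℝ, 0 < η → ∀ᶠ n in (𝒰 : Filter ℕ), ∀ y ∈ ball (0 : ℂ) L, ‖h n y‖ ≤ η)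
    (u0 : ∀ n, u n 0 = 1)
    (hu : ∀ x ∉ E, ∃ ε > 0, ∃ m > 0, ∀ δ > 0, ∀ᶠ n in (𝒰 : Filter ℕ),
      DifferentiableOn ℂ (u n) (ball x ε) ∧ ∀ y ∈ ball x ε, m⁻¹ ≤ ‖u n y‖ ∧ ‖u n y‖ ≤ m ∧
        (y ≠ 0 → ∃ a : ℂ, ‖1 - a‖ ≤ δ * ‖τ n‖ ∧
          u n y / y ^ 2 = a * (u n (y + h n y) / (y + h n y) ^ 2) * (1 + deriv (h n) y) ^ 2)) :
    ∃ W : ℂ → ℂ, Differentiable ℂ W ∧
      (∀ L η : ℝ, 0 < η → ∀ᶠ n in (𝒰 : Filter ℕ), ∀ y ∈ ball (0 : ℂ) L,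
        ‖h n y / τ n - W y‖ ≤ η) ∧
      ∀ x ∉ E, x ≠ 0 → ∃ ε > 0, ∀ η > 0, ∀ᶠ n in (𝒰 : Filter ℕ), ∀ y ∈ ball x ε,
        ‖(h n y / τ n) ^ 2 * (u n y / y ^ 2) - 1‖ ≤ η := by
  have hO : IsPreconnected (({0}ᶜ : Set ℂ) \ E) := preconn_diff isOpen_compl_singleton
    (isConnected_compl_singleton_of_one_lt_rank (by simp) 0).isPreconnected hE hE0
  have hL : ∀ x ∈ ({0}ᶜ : Set ℂ) \ E, t1277_Loc 𝒰 h (fun n y => u n y / y ^ 2) τ x := by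
    intro x hx
    obtain ⟨ε, hε, m, hm, H⟩ := hu x hx.2
    have hx0 : 0 < ‖x‖ := norm_pos_iff.2 hx.1
    have hb : ∀ y ∈ ball x (min ε (‖x‖ / 2)), ‖x‖ / 2 ≤ ‖y‖ ∧ ‖y‖ ≤ 2 * ‖x‖ := fun y hy => by
      have a1 := (mem_ball_iff_norm.1 hy).trans_le (min_le_right _ _)
      have a2 := norm_sub_norm_le y x
      have a3 := norm_sub_norm_le x y
      rw [norm_sub_rev] at a3
      constructor <;> linarith
    have hsub : ball x (min ε (‖x‖ / 2)) ⊆ ball x ε := ball_subset_ball (min_le_left _ _)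
    have p1 : 0 < m * (2 * ‖x‖) ^ 2 := by positivity
    have p2 : 0 < m / (‖x‖ / 2) ^ 2 := by positivity
    refine t1277_key hd h1 hs (ε := min ε (‖x‖ / 2))
      (m := m * (2 * ‖x‖) ^ 2 + m / (‖x‖ / 2) ^ 2) (by positivity) (by positivity) fun δ hδ => ?_
    filter_upwards [H δ hδ] with n ⟨a1, a2⟩
    have hne : ∀ y ∈ ball x (min ε (‖x‖ / 2)), y ≠ 0 := fun y hy =>
      norm_pos_iff.1 (by linarith [(hb y hy).1])
    refine ⟨(a1.mono hsub).div (differentiableOn_pow 2) fun y hy => pow_ne_zero 2 (hne y hy),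
      fun y hy => ?_⟩
    obtain ⟨b1, b2, b3⟩ := a2 y (hsub hy)
    obtain ⟨c1, c2⟩ := hb y hy
    have hy0 := norm_pos_iff.2 (hne y hy)
    refine ⟨?_, ?_, b3 (hne y hy)⟩
    · rw [norm_div, norm_pow]
      calc (m * (2 * ‖x‖) ^ 2 + m / (‖x‖ / 2) ^ 2)⁻¹ ≤ (m * (2 * ‖x‖) ^ 2)⁻¹ :=
            inv_anti₀ p1 (by linarith)
        _ = m⁻¹ / (2 * ‖x‖) ^ 2 := by rw [mul_inv, div_eq_mul_inv]
        _ ≤ ‖u n y‖ / ‖y‖ ^ 2 := by gcongr
    · rw [norm_div, norm_pow]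
      have : ‖u n y‖ / ‖y‖ ^ 2 ≤ m / (‖x‖ / 2) ^ 2 := by gcongr
      linarith
  obtain ⟨ε, hε, m, hm, H⟩ := hu 0 hE1
  obtain ⟨ρ, hρ, hρE⟩ := Metric.isOpen_iff.1 hE.isOpen_compl 0 hE1
  obtain ⟨r, hr, hr1⟩ := exists_between (lt_min hε hρ)
  rw [lt_min_iff] at hr1
  have hS : sphere (0 : ℂ) r ⊆ ({0}ᶜ : Set ℂ) \ E := fun y hy => by
    rw [mem_sphere_zero_iff_norm] at hy
    exact ⟨norm_pos_iff.1 (by rw [hy]; exact hr), hρE (mem_ball_zero_iff.2 (by rw [hy]; exact hr1.2))⟩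
  have hud : ∀ᶠ n in (𝒰 : Filter ℕ), DifferentiableOn ℂ (u n) (ball 0 ε) :=
    (H 1 one_pos).mono fun n hn => hn.1
  have hrS : (r : ℂ) ∈ sphere (0 : ℂ) r := by simp [abs_of_pos hr]
  choose z hz hmax using fun n => (isCompact_sphere (0 : ℂ) r).exists_isMaxOn ⟨r, hrS⟩
    (hd n).continuous.norm.continuousOn
  have hcau : ∀ n, ‖τ n‖ ≤ ‖h n (z n)‖ / r := fun n => by
    rw [← h1]
    exact Complex.norm_deriv_le_of_forall_mem_sphere_norm_le hr (hd n).diffContOnCl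
      fun w hw => hmax n hw
  have hμ : ∀ n, h n (z n) ≠ 0 := fun n h0 => by
    have := hcau n
    rw [h0, norm_zero, zero_div] at this
    exact hτ n (norm_le_zero_iff.1 this)
  have c1 := t1277_const hO hd h0 h1 u0 hL hμ (c := 1 / r) (Eventually.of_forall fun n => by
    rw [norm_div, div_le_iff₀ (norm_pos_iff.2 (hμ n)), one_div, ← div_eq_inv_mul]
    exact hcau n) hr hr1.1 hS hud ⟨1, Eventually.of_forall fun n => by
      rw [norm_div, div_le_one (norm_pos_iff.2 (hμ n))]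
      exact hmax n hrS⟩
  obtain ⟨c, hc⟩ : ∃ c : ℝ, c = m⁻¹ / r ^ 2 / 2 := ⟨_, rfl⟩
  have hc0 : 0 < c := by rw [hc]; positivity
  have c2 := ev_compact (l := 𝒰) (isCompact_sphere (0 : ℂ) r)
    (Q := fun n y => ‖(h n y / h n (z n)) ^ 2 * (u n y / y ^ 2) - (τ n / h n (z n)) ^ 2‖ ≤ c)
    (fun x hx => by
      obtain ⟨δ, hδ, H⟩ := c1 x (hS hx)
      exact ⟨δ, hδ, H c hc0⟩)
  have hb : ∃ M, ∀ᶠ n in (𝒰 : Filter ℕ), ‖h n r / τ n‖ ≤ M := by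
    refine ⟨1 + c⁻¹, ?_⟩
    filter_upwards [c2, H 1 one_pos] with n a1 a2
    have a3 := a1 (z n) (hz n)
    have a4 := mem_sphere_zero_iff_norm.1 (hz n)
    have a5 := (a2.2 (z n) (mem_ball_zero_iff.2 (by rw [a4]; exact hr1.1))).1
    rw [div_self (hμ n), one_pow, one_mul] at a3
    have a6 := norm_sub_norm_le (u n (z n) / z n ^ 2) ((τ n / h n (z n)) ^ 2)
    rw [norm_div, norm_pow, a4, norm_pow, norm_div] at a6
    have a7 : m⁻¹ / r ^ 2 ≤ ‖u n (z n)‖ / r ^ 2 := by gcongr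
    have a8 : c ≤ (‖τ n‖ / ‖h n (z n)‖) ^ 2 := by linarith
    have p1 := norm_pos_iff.2 (hμ n)
    have p2 := norm_pos_iff.2 (hτ n)
    have a9 : (‖h n (z n)‖ / ‖τ n‖) ^ 2 ≤ c⁻¹ := by
      rw [← inv_div, inv_pow]
      exact inv_anti₀ hc0 a8
    have a10 : ‖h n r‖ / ‖τ n‖ ≤ ‖h n (z n)‖ / ‖τ n‖ :=
      div_le_div_of_nonneg_right (hmax n hrS) p2.le
    rw [norm_div]
    nlinarith [sq_nonneg (‖h n (z n)‖ / ‖τ n‖ - 1)]
  have hone : ∀ᶠ n in (𝒰 : Filter ℕ), ‖τ n / τ n‖ ≤ 1 := Eventually.of_forall fun n => by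
    rw [div_self (hτ n), norm_one]
  have c3 := t1277_const hO hd h0 h1 u0 hL hτ hone hr hr1.1 hS hud hb
  have c4 := t1277_bdd hO hd hL hτ hone (hS hrS) hb
  obtain ⟨W, hW, hW'⟩ := montel 𝒰 (u := fun n y => h n y / τ n) fun L => by
    obtain ⟨s, hs, hsE⟩ := good_radius hE0 (show |L| < |L| + 1 by linarith)
    have hs0 : 0 < s := (abs_nonneg L).trans_lt hs.1
    obtain ⟨M, hM⟩ := t1277_cpt (isCompact_sphere (0 : ℂ) s) (F := fun n y => ‖h n y / τ n‖)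
      fun x hx => by
        rw [mem_sphere_zero_iff_norm] at hx
        exact c4 x ⟨norm_pos_iff.1 (by rw [hx]; exact hs0), fun hxE => hsE x hxE hx⟩
    refine ⟨M, hM.mono fun n hn => ⟨((hd n).div_const _).differentiableOn, fun y hy => ?_⟩⟩
    refine max_disc (F := fun y => h n y / τ n) (x := 0) (R := s + 1) hs0 (by linarith)
      ((hd n).div_const _).differentiableOn
      (fun w hw => hn w (mem_sphere_iff_norm.2 hw)) y ?_
    rw [sub_zero]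
    exact ((mem_ball_zero_iff.1 hy).trans_le (le_abs_self L)).le.trans hs.1.le
  refine ⟨W, hW, hW', fun x hx hx0 => ?_⟩
  obtain ⟨δ, hδ, H⟩ := c3 x ⟨hx0, hx⟩
  refine ⟨δ, hδ, fun η hη => (H η hη).mono fun n hn y hy => ?_⟩
  have := hn y hy
  rwa [div_self (hτ n), one_pow] at this

end Pool.Agent.MP_28f8a1_an.H42
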