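import Pool.Agent.MP_28f8a1_an.H42.Defs

/-! A point of bounded local complexity, and bounded overlap of univalent images. -/

set_option autoImplicit false

namespace Pool.Agent.MP_28f8a1_an.H42

open MeasureTheory Metric Set Real Filter Topology Polynomial
open scoped ENNReal

/-- the grid cell of mesh `1 / u` -/
noncomputable def t44_cell (u : ℝ) (z : ℂ) : ℤ × ℤ := (⌊u * z.re⌋, ⌊u * z.im⌋)

theorem t44_close {u : ℝ} (hu : 0 < u) {z w : ℂ} (h : t44_cell u z = t44_cell u w) :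
    ‖z - w‖ * u < 2 := by
  have h1 := Int.abs_sub_lt_one_of_floor_eq_floor (congrArg Prod.fst h)
  have h2 := Int.abs_sub_lt_one_of_floor_eq_floor (congrArg Prod.snd h)
  rw [← mul_sub, abs_mul, abs_of_pos hu] at h1 h2
  have h3 := Complex.norm_le_abs_re_add_abs_im (z - w)
  rw [Complex.sub_re, Complex.sub_im] at h3
  nlinarith

theorem t44_near1 {u x y : ℝ} {M : ℕ} (h : |x - y| * u ≤ M) (hu : 0 < u) :
    ⌊u * x⌋ ∈ Finset.Icc (⌊u * y⌋ - M) (⌊u * y⌋ + M) := by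
  have h1 : |u * x - u * y| ≤ M := by
    rw [← mul_sub, abs_mul, abs_of_pos hu, mul_comm]; exact h
  rw [abs_le] at h1
  rw [Finset.mem_Icc]
  constructor
  · rw [← Int.floor_sub_natCast]
    exact Int.floor_le_floor (by linarith)
  · rw [← Int.floor_add_natCast]
    exact Int.floor_le_floor (by linarith)

/-- the block of cells around `q` -/
noncomputable def t44_blk (M : ℕ) (q : ℤ × ℤ) : Finset (ℤ × ℤ) :=
  Finset.Icc (q.1 - M) (q.1 + M) ×ˢ Finset.Icc (q.2 - M) (q.2 + M)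

theorem t44_blk_card (M : ℕ) (q : ℤ × ℤ) : (t44_blk M q).card = (2 * M + 1) * (2 * M + 1) := by
  rw [t44_blk, Finset.card_product, Int.card_Icc, Int.card_Icc]
  congr 1 <;> omega

theorem t44_near {u : ℝ} {z w : ℂ} {M : ℕ} (h : ‖z - w‖ * u ≤ M) (hu : 0 < u) :
    t44_cell u z ∈ t44_blk M (t44_cell u w) := by
  rw [t44_blk, Finset.mem_product]
  constructor
  · refine t44_near1 (le_trans (mul_le_mul_of_nonneg_right ?_ hu.le) h) hu
    rw [← Complex.sub_re]; exact Complex.abs_re_le_norm _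
  · refine t44_near1 (le_trans (mul_le_mul_of_nonneg_right ?_ hu.le) h) hu
    rw [← Complex.sub_im]; exact Complex.abs_im_le_norm _

/-- Packing bound. -/
theorem pack {κ : ℝ} (hκ : 0 < κ) : ∃ m : ℕ, ∀ (T : Finset ℂ) (y : ℂ) (R : ℝ), 0 < R →
    (∀ p ∈ T, ‖p - y‖ ≤ R) → (∀ p ∈ T, ∀ p' ∈ T, p ≠ p' → κ * R ≤ ‖p - p'‖) → T.card ≤ m := by
  obtain ⟨M, hM⟩ := exists_nat_ge (2 / κ)
  refine ⟨(2 * M + 1) * (2 * M + 1), fun T y R hR h1 h2 => ?_⟩
  have hu : 0 < 2 / (κ * R) := by positivity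
  rw [← t44_blk_card M (t44_cell (2 / (κ * R)) y)]
  refine Finset.card_le_card_of_injOn (t44_cell (2 / (κ * R))) (fun p hp => ?_) ?_
  · refine t44_near ?_ hu
    calc ‖p - y‖ * (2 / (κ * R)) ≤ R * (2 / (κ * R)) := mul_le_mul_of_nonneg_right (h1 p hp) hu.le
      _ = 2 / κ := by field_simp
      _ ≤ M := hM
  · intro p hp p' hp' h
    by_contra hne
    have h3 := t44_close hu h
    have h4 : κ * R * (2 / (κ * R)) ≤ ‖p - p'‖ * (2 / (κ * R)) :=
      mul_le_mul_of_nonneg_right (h2 p hp p' hp' hne) hu.le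
    have h5 : κ * R * (2 / (κ * R)) = 2 := by field_simp
    linarith

/-- the parent cell, `j` levels up -/
def t44_par (j : ℕ) (q : ℤ × ℤ) : ℤ × ℤ := (q.1 / (2 ^ j : ℕ), q.2 / (2 ^ j : ℕ))

theorem t44_par_cell (l : ℤ) (j : ℕ) (z : ℂ) :
    t44_par j (t44_cell (2 ^ (l + j)) z) = t44_cell (2 ^ l) z := by
  have e : ∀ x : ℝ, (2 : ℝ) ^ l * x = 2 ^ (l + j) * x / ((2 ^ j : ℕ) : ℝ) := by
    intro x
    rw [zpow_add₀ (by norm_num), zpow_natCast]
    push_cast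
    field_simp
  simp only [t44_par, t44_cell]
  rw [e z.re, e z.im, Int.floor_div_natCast, Int.floor_div_natCast]

/-- occupied cells of level `l` -/
noncomputable def t44_occ (C : Finset ℂ) (l : ℤ) : Finset (ℤ × ℤ) := C.image (t44_cell (2 ^ l))

theorem t44_occ_par (C : Finset ℂ) (l : ℤ) (j : ℕ) :
    (t44_occ C (l + j)).image (t44_par j) = t44_occ C l := by
  rw [t44_occ, t44_occ, Finset.image_image]
  congr 1
  funext z
  exact t44_par_cell l j z

theorem t44_tele1 (f : ℤ → ℝ) (hf : Monotone f) (h0 : ∀ l, 0 ≤ f l) (L : Finset ℤ) :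
    ∀ m : ℤ, (∀ l ∈ L, l < m) → ∑ l ∈ L, (f (l + 1) - f l) ≤ f m := by
  induction L using Finset.induction_on_max with
  | empty => intro m _; simpa using h0 m
  | insert a s ha ih =>
    intro m hm
    have hn : a ∉ s := fun h => lt_irrefl _ (ha a h)
    rw [Finset.sum_insert hn]
    have h1 := ih a ha
    have h2 : f (a + 1) ≤ f m := hf (by have := hm a (Finset.mem_insert_self _ _); omega)
    linarith

theorem t44_tele (f : ℤ → ℝ) (hf : Monotone f) (h0 : ∀ l, 0 ≤ f l) {c : ℝ} (hc : ∀ l, f l ≤ c)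
    (L : Finset ℤ) (j : ℕ) : ∑ l ∈ L, (f (l + j) - f l) ≤ j * c := by
  induction j with
  | zero => simp
  | succ j ih =>
    obtain ⟨m, hm⟩ := L.bddAbove
    have h1 := t44_tele1 (fun l => f (l + j)) (fun a b hab => hf (by simpa using hab))
      (fun l => h0 _) L (m + 1) (fun l hl => by have := hm hl; omega)
    have h2 : ∑ l ∈ L, (f (l + (j + 1 : ℕ)) - f l) =
        ∑ l ∈ L, (f (l + 1 + j) - f (l + j)) + ∑ l ∈ L, (f (l + j) - f l) := by
      rw [← Finset.sum_add_distrib]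
      refine Finset.sum_congr rfl fun l _ => ?_
      rw [show l + ((j + 1 : ℕ) : ℤ) = l + 1 + j by push_cast; ring]
      ring
    rw [h2]
    have h3 := hc (m + 1 + j)
    push_cast
    linarith

theorem t44_mono (C : Finset ℂ) : Monotone fun l : ℤ => ((t44_occ C l).card : ℝ) := by
  intro a b hab
  obtain ⟨j, rfl⟩ := Int.le.dest hab
  have : (t44_occ C a).card ≤ (t44_occ C (a + j)).card := by
    rw [← t44_occ_par C a j]; exact Finset.card_image_le
  simpa using this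

/-- heavy cells -/
noncomputable def t44_hv (C : Finset ℂ) (l : ℤ) (j t : ℕ) : Finset (ℤ × ℤ) :=
  (t44_occ C l).filter fun Q => t < ((t44_occ C (l + j)).filter fun q => t44_par j q = Q).card

theorem t44_hv_card (C : Finset ℂ) (l : ℤ) (j t : ℕ) :
    t * (t44_hv C l j t).card + (t44_occ C l).card ≤ (t44_occ C (l + j)).card := by
  rw [Finset.card_eq_sum_card_image (t44_par j) (t44_occ C (l + j)), t44_occ_par, t44_hv,
    Finset.card_filter, Finset.mul_sum, Finset.card_eq_sum_ones (t44_occ C l), ← Finset.sum_add_distrib]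
  refine Finset.sum_le_sum fun Q hQ => ?_
  split_ifs with h
  · omega
  · rw [← t44_occ_par C l j] at hQ
    obtain ⟨q, hq, rfl⟩ := Finset.mem_image.1 hQ
    have : 0 < ((t44_occ C (l + j)).filter fun q' => t44_par j q' = t44_par j q).card :=
      Finset.card_pos.2 ⟨q, Finset.mem_filter.2 ⟨hq, rfl⟩⟩
    omega

theorem t44_bad {C : Finset ℂ} {b : ℂ} {r : ℝ} (hr : 0 < r) {k j t : ℕ}
    (hj : 4 * (k + 1) ^ 2 * (9 * t + 1) ≤ 2 ^ j)
    (hb : ¬∃ T : Finset ℂ, T.card ≤ 9 * t ∧ ∀ z ∈ C, ‖z - b‖ < (k + 1) * r →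
      ∃ p ∈ T, ‖z - p‖ * ((k + 1) * (((9 * t : ℕ) : ℝ) + 1)) < r) :
    ∃ l : ℤ, ∃ Q ∈ t44_hv C l j t, 1 < 2 * ((k + 1) * r) * 2 ^ l ∧
      ∃ z : ℂ, t44_cell (2 ^ l) z = Q ∧ ‖z - b‖ * 2 ^ l ≤ 1 := by
  classical
  have hx : 0 < ((k : ℝ) + 1) * r := by positivity
  obtain ⟨n, hn1, hn2⟩ := exists_mem_Ioc_zpow hx (one_lt_two (α := ℝ))
  have e1 : (2 : ℝ) ^ (n + 1) * 2 ^ (-(n + 1)) = 1 := by
    rw [← zpow_add₀ (by norm_num)]; simp
  have hu : (0 : ℝ) < 2 ^ (-(n + 1)) := by positivity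
  have e2 : (2 : ℝ) ^ (n + 1) = 2 * 2 ^ n := by rw [zpow_add₀ (by norm_num)]; ring
  have hl1 : ((k : ℝ) + 1) * r * 2 ^ (-(n + 1)) ≤ 1 := by
    exact (mul_le_mul_of_nonneg_right hn2 hu.le).trans e1.le
  have hl2 : 1 < 2 * (((k : ℝ) + 1) * r) * 2 ^ (-(n + 1)) := by
    exact e1.symm.trans_lt (mul_lt_mul_of_pos_right (by linarith) hu)
  generalize -(n + 1) = l at hu hl1 hl2
  set N := C.filter fun z => ‖z - b‖ < (k + 1) * r with hN
  have hnear : ∀ z ∈ N, ‖z - b‖ * 2 ^ l ≤ 1 := fun z hz =>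
    le_trans (mul_le_mul_of_nonneg_right (Finset.mem_filter.1 hz).2.le hu.le) hl1
  have hS : 9 * t < (N.image (t44_cell (2 ^ (l + j)))).card := by
    by_contra hle
    push Not at hle
    apply hb
    obtain ⟨T, hT, hinj, him⟩ := Finset.exists_subset_injOn_image_eq_of_surjOn (N : Set ℂ)
      (N.image (t44_cell (2 ^ (l + j)))) (f := t44_cell (2 ^ (l + j))) (by
        intro q hq
        obtain ⟨z, hz, rfl⟩ := Finset.mem_image.1 hq
        exact ⟨z, hz, rfl⟩)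
    refine ⟨T, ?_, fun z hz hzb => ?_⟩
    · rw [← Finset.card_image_of_injOn hinj, him]; exact hle
    · have hzN : z ∈ N := Finset.mem_filter.2 ⟨hz, hzb⟩
      have : t44_cell (2 ^ (l + j)) z ∈ T.image (t44_cell (2 ^ (l + j))) := by
        rw [him]; exact Finset.mem_image_of_mem _ hzN
      obtain ⟨p, hp, hpz⟩ := Finset.mem_image.1 this
      refine ⟨p, hp, ?_⟩
      have h1 := t44_close (by positivity) hpz.symm
      rw [zpow_add₀ (by norm_num), zpow_natCast] at h1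
      have hj' : 4 * ((k : ℝ) + 1) ^ 2 * (((9 * t : ℕ) : ℝ) + 1) ≤ 2 ^ j := by exact_mod_cast hj
      set A : ℝ := ((9 * t : ℕ) : ℝ) + 1 with hA
      have hA0 : 0 < A := by positivity
      have hk0 : (0 : ℝ) < k + 1 := by positivity
      have h2 : ‖z - p‖ * 2 ^ l * (4 * ((k : ℝ) + 1) ^ 2 * A) < 2 := by
        refine lt_of_le_of_lt (mul_le_mul_of_nonneg_left hj' (by positivity)) ?_
        linarith [mul_assoc ‖z - p‖ (2 ^ l) (2 ^ j)]
      by_contra hc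
      push Not at hc
      have h3 : r * (4 * (k + 1) * 2 ^ l) ≤ ‖z - p‖ * ((k + 1) * A) * (4 * (k + 1) * 2 ^ l) :=
        mul_le_mul_of_nonneg_right hc (by positivity)
      nlinarith
  have hmap : ∀ q ∈ N.image (t44_cell (2 ^ (l + j))), t44_par j q ∈ t44_blk 1 (t44_cell (2 ^ l) b) := by
    intro q hq
    obtain ⟨z, hz, rfl⟩ := Finset.mem_image.1 hq
    rw [t44_par_cell]
    exact t44_near (by simpa using hnear z hz) hu
  obtain ⟨Q, -, hQ⟩ := Finset.exists_lt_card_fiber_of_mul_lt_card_of_maps_to hmap (n := t)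
    (by rw [t44_blk_card]; exact hS)
  obtain ⟨q, hq⟩ := Finset.card_pos.1 (lt_of_le_of_lt (Nat.zero_le _) hQ)
  obtain ⟨hq1, hq2⟩ := Finset.mem_filter.1 hq
  obtain ⟨z, hz, rfl⟩ := Finset.mem_image.1 hq1
  rw [t44_par_cell] at hq2
  refine ⟨l, Q, Finset.mem_filter.2 ⟨?_, lt_of_lt_of_le hQ (Finset.card_le_card ?_)⟩, hl2, z, hq2,
    hnear z hz⟩
  · rw [← hq2]; exact Finset.mem_image_of_mem _ (Finset.mem_filter.1 hz).1
  · exact Finset.filter_subset_filter _ (Finset.image_subset_image (Finset.filter_subset _ _))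

theorem t44_lin (a : ℕ) : ∃ j : ℕ, a * (j + 1) ≤ 2 ^ j := by
  refine ⟨2 * a + 2, ?_⟩
  have h1 : a + 1 < 2 ^ (a + 1) := Nat.lt_two_pow_self
  have h2 : 2 ^ (2 * a + 2) = 2 ^ (a + 1) * 2 ^ (a + 1) := by rw [← pow_add]; congr 1; ring
  have h3 : 2 ^ (a + 1) = 2 * 2 ^ a := by ring
  have h4 : a < 2 ^ a := Nat.lt_two_pow_self
  rw [h2]
  nlinarith

theorem t44_count (K k : ℕ) : ∃ s : ℕ, ∀ (B C A : Finset ℂ) (r : ℂ → ℝ), A ⊆ B →
    C.card ≤ K * B.card → (∀ b ∈ B, 0 < r b) → (∀ b ∈ B, ∀ b' ∈ B, b' ≠ b → r b ≤ ‖b' - b‖) →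
    (∀ b ∈ A, ¬∃ T : Finset ℂ, T.card ≤ s ∧ ∀ z ∈ C, ‖z - b‖ < (k + 1) * r b →
      ∃ p ∈ T, ‖z - p‖ * ((k + 1) * ((s : ℝ) + 1)) < r b) → A.card * 2 ^ (k + 2) ≤ B.card := by
  classical
  obtain ⟨F, hF⟩ := pack (κ := 1 / (8 * (k + 1))) (by positivity)
  obtain ⟨j, hj⟩ := t44_lin (4 * (k + 1) ^ 2 * (9 * (2 ^ (k + 2) * (F * K + 1)) + 1))
  set t : ℕ := 2 ^ (k + 2) * (F * j * K + 1) with ht
  have hjt : 4 * (k + 1) ^ 2 * (9 * t + 1) ≤ 2 ^ j := by
    refine le_trans ?_ hj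
    rw [mul_assoc (4 * (k + 1) ^ 2)]
    refine Nat.mul_le_mul_left _ ?_
    have h1 : F * j * K + 1 ≤ (F * K + 1) * (j + 1) := by nlinarith [Nat.zero_le (F * K)]
    have h2 : t ≤ 2 ^ (k + 2) * ((F * K + 1) * (j + 1)) := Nat.mul_le_mul_left _ h1
    nlinarith
  refine ⟨9 * t, fun B C A r hAB hC hr hsep hbad => ?_⟩
  have hch : ∀ b : ℂ, ∃ l : ℤ, ∃ Q : ℤ × ℤ, ∃ z : ℂ, b ∈ A → (Q ∈ t44_hv C l j t ∧
      1 < 2 * ((k + 1) * r b) * 2 ^ l ∧ t44_cell (2 ^ l) z = Q ∧ ‖z - b‖ * 2 ^ l ≤ 1) := by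
    intro b
    by_cases hb : b ∈ A
    · obtain ⟨l, Q, h1, h2, z, h3, h4⟩ := t44_bad (hr b (hAB hb)) hjt (hbad b hb)
      exact ⟨l, Q, z, fun _ => ⟨h1, h2, h3, h4⟩⟩
    · exact ⟨0, 0, 0, fun h => absurd h hb⟩
  choose lv Q z hz using hch
  have hlev : ∀ l : ℤ, (A.filter fun b => lv b = l).card ≤ F * (t44_hv C l j t).card := by
    intro l
    refine Finset.card_le_mul_card_image_of_maps_to (f := Q) (fun b hb => ?_) F fun q _ => ?_
    · obtain ⟨h1, h2⟩ := Finset.mem_filter.1 hb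
      rw [← h2]; exact (hz b h1).1
    · rcases ((A.filter fun b => lv b = l).filter fun b => Q b = q).eq_empty_or_nonempty with h | ⟨b0, h0⟩
      · rw [h]; simp
      have hu : (0 : ℝ) < 2 ^ l := by positivity
      have hall : ∀ b ∈ (A.filter fun b => lv b = l).filter fun b => Q b = q, b ∈ A ∧
          1 < 2 * ((k + 1) * r b) * 2 ^ l ∧ t44_cell (2 ^ l) (z b) = q ∧ ‖z b - b‖ * 2 ^ l ≤ 1 := by
        intro b hb
        obtain ⟨h1, h2⟩ := Finset.mem_filter.1 hb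
        obtain ⟨h3, h4⟩ := Finset.mem_filter.1 h1
        have := (hz b h3).2
        rw [h4, h2] at this
        exact ⟨h3, this⟩
      refine hF _ b0 (4 / 2 ^ l) (by positivity) (fun p hp => ?_) fun p hp p' hp' hne => ?_
      · obtain ⟨-, -, h1, h2⟩ := hall p hp
        obtain ⟨-, -, h3, h4⟩ := hall b0 h0
        have h5 := t44_close hu (h1.trans h3.symm)
        have h6 : ‖p - b0‖ ≤ ‖z p - p‖ + ‖z p - z b0‖ + ‖z b0 - b0‖ := by
          have e : p - b0 = -(z p - p) + (z p - z b0) + (z b0 - b0) := by ring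
          rw [e]
          refine norm_add₃_le.trans ?_
          rw [norm_neg]
        rw [le_div_iff₀ hu]
        nlinarith
      · obtain ⟨h1, h2, -⟩ := hall p' hp'
        have h3 := hsep p' (hAB h1) p (hAB (hall p hp).1) hne
        refine le_trans ?_ h3
        have hk0 : (0 : ℝ) < k + 1 := by positivity
        rw [div_mul_div_comm, div_le_iff₀ (by positivity)]
        nlinarith
  have h1 : (t : ℝ) * A.card ≤ F * (j * C.card) := by
    rw [Finset.card_eq_sum_card_image lv A]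
    push_cast
    rw [Finset.mul_sum]
    have h2 := t44_tele _ (t44_mono C) (fun l => Nat.cast_nonneg _) (c := C.card)
      (fun l => by exact_mod_cast Finset.card_image_le) (A.image lv) j
    refine le_trans ?_ (mul_le_mul_of_nonneg_left h2 (Nat.cast_nonneg F))
    rw [Finset.mul_sum]
    refine Finset.sum_le_sum fun l _ => ?_
    have h3 : ((A.filter fun b => lv b = l).card : ℝ) ≤ F * (t44_hv C l j t).card := by
      exact_mod_cast hlev l
    have h4 : (t : ℝ) * (t44_hv C l j t).card + (t44_occ C l).card ≤ (t44_occ C (l + j)).card := by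
      exact_mod_cast t44_hv_card C l j t
    have hF0 : (0 : ℝ) ≤ F := Nat.cast_nonneg F
    have ht0 : (0 : ℝ) ≤ t := Nat.cast_nonneg t
    calc (t : ℝ) * ((A.filter fun b => lv b = l).card : ℝ) ≤ t * (F * (t44_hv C l j t).card) :=
          mul_le_mul_of_nonneg_left h3 ht0
      _ = F * (t * (t44_hv C l j t).card) := by ring
      _ ≤ _ := mul_le_mul_of_nonneg_left (by linarith) hF0
  have h2 : t * A.card ≤ F * (j * C.card) := by exact_mod_cast h1
  have h3 : F * (j * C.card) ≤ (F * j * K + 1) * B.card := by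
    have := Nat.mul_le_mul_left (F * j) hC
    nlinarith
  have h4 : (F * j * K + 1) * (A.card * 2 ^ (k + 2)) ≤ (F * j * K + 1) * B.card := by
    refine le_trans (le_of_eq ?_) (h2.trans h3)
    rw [ht]; ring
  exact Nat.le_of_mul_le_mul_left h4 (Nat.succ_pos _)

/-- Some point of `B` sees the finite set `C` with bounded complexity at all scales. -/
theorem cover (K : ℕ) : ∃ s : ℕ → ℕ, ∀ (B C : Finset ℂ) (r : ℂ → ℝ), B.Nonempty →
    C.card ≤ K * B.card → (∀ b ∈ B, 0 < r b) →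
    (∀ b ∈ B, ∀ b' ∈ B, b' ≠ b → r b ≤ ‖b' - b‖) →
    ∃ b ∈ B, ∀ k : ℕ, ∃ T : Finset ℂ, T.card ≤ s k ∧ ∀ z ∈ C, ‖z - b‖ < (k + 1) * r b →
      ∃ p ∈ T, ‖z - p‖ * ((k + 1) * (s k + 1)) < r b := by
  classical
  choose s hs using t44_count K
  refine ⟨s, fun B C r hB hC hr hsep => ?_⟩
  by_contra hcon
  have hch : ∀ b : ℂ, ∃ k : ℕ, b ∈ B → ¬∃ T : Finset ℂ, T.card ≤ s k ∧ ∀ z ∈ C,
      ‖z - b‖ < (k + 1) * r b → ∃ p ∈ T, ‖z - p‖ * ((k + 1) * ((s k : ℝ) + 1)) < r b := by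
    intro b
    by_cases hb : b ∈ B
    · by_contra h
      apply hcon
      refine ⟨b, hb, fun k => ?_⟩
      by_contra h'
      exact h ⟨k, fun _ => h'⟩
    · exact ⟨0, fun h => absurd h hb⟩
  choose kk hk using hch
  have h1 : ∀ k, ((B.filter fun b => kk b = k).card : ℝ) ≤ B.card / 4 * (1 / 2) ^ k := by
    intro k
    have h2 := hs k B C (B.filter fun b => kk b = k) r (Finset.filter_subset _ _) hC hr hsep
      (fun b hb => by
        obtain ⟨h3, h4⟩ := Finset.mem_filter.1 hb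
        have := hk b h3
        rw [h4] at this
        exact this)
    have h3 : ((B.filter fun b => kk b = k).card : ℝ) * 2 ^ (k + 2) ≤ B.card := by exact_mod_cast h2
    have e : (B.card : ℝ) / 4 * (1 / 2) ^ k = B.card / 2 ^ (k + 2) := by
      rw [one_div, inv_pow, pow_add]; field_simp; norm_num
    rw [e, le_div_iff₀ (by positivity)]
    exact h3
  have h2 : (B.card : ℝ) ≤ B.card / 4 * 2 := by
    conv_lhs => rw [Finset.card_eq_sum_card_image kk B]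
    push_cast
    refine (Finset.sum_le_sum fun k _ => h1 k).trans ?_
    rw [← Finset.mul_sum]
    refine mul_le_mul_of_nonneg_left ?_ (by positivity)
    exact (summable_geometric_two.sum_le_tsum _ fun _ _ => by positivity).trans tsum_geometric_two.le
  have h3 : (0 : ℝ) < B.card := by exact_mod_cast hB.card_pos
  linarith

theorem t1046_growth {ε R : ℝ} (hε : 0 < ε) (hR : 0 < R) {b z : ℂ} {h : ℂ → ℂ}
    (hh : Univ h (ball b R)) (hz : ‖z - b‖ ≤ (1 - ε) * R) :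
    ‖h b - h z‖ * ε ≤ 2 * (‖deriv h z‖ * R) ∧ ‖h b - h z‖ * ε ^ 2 ≤ ‖deriv h b‖ * R := by
  have hR' : (R : ℂ) ≠ 0 := Complex.ofReal_ne_zero.mpr hR.ne'
  have hu : ‖(z - b) / R‖ = ‖z - b‖ / R := by simp [abs_of_pos hR]
  have hu1 : ‖(z - b) / R‖ ≤ 1 - ε := by
    rw [hu, div_le_iff₀ hR]
    exact hz
  have hu2 : ‖(z - b) / R‖ < 1 := by linarith
  have he : b + R * ((z - b) / R) = z := by field_simp; ring
  have h1 := growth_from (hh.scale hR) hu2
  have h2 := growth (hh.scale hR) hu2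
  rw [hh.scale_deriv hR (mem_ball_zero_iff.mpr hu2)] at h1
  rw [hh.scale_deriv hR (mem_ball_self one_pos), le_div_iff₀ (by have : 0 < 1 - ‖(z - b) / R‖ := by linarith
                                                                 positivity)] at h2
  simp only [he, mul_zero, add_zero, norm_mul, Complex.norm_real, Real.norm_eq_abs,
    abs_of_pos hR] at h1 h2
  rw [norm_sub_rev] at h2
  have h3 : ε ≤ 1 - ‖(z - b) / R‖ := by linarith
  refine ⟨le_trans ?_ h1, le_trans ?_ h2⟩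
  · gcongr
  · gcongr

theorem t1046_pair {ε R : ℝ} (hε : 0 < ε) (hR : 0 < R) {b z w : ℂ} {h : ℂ → ℂ} {T : Set ℂ}
    (hh : Univ h (ball b R)) (hz : ‖z - b‖ ≤ (1 - ε) * R) (hw : ∀ v ∈ ball b R, h v = w → v ∈ T)
    (hb : ∀ t ∈ T, ε * R ≤ ‖b - t‖) (hT : ∀ t ∈ T, ε * R ≤ ‖z - t‖) :
    ‖h b - h z‖ * ε ^ 2 ≤ 8 * ‖w - h z‖ ∧ ‖h b - h z‖ * ε ^ 3 ≤ 4 * ‖h b - w‖ ∧ 0 < ‖w - h z‖ := by
  have hεR : 0 < ε * R := mul_pos hε hR
  have hε1 : ε * R ≤ R := by nlinarith [norm_nonneg (z - b)]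
  have hs1 : ball z (ε * R) ⊆ ball b R := ball_subset_ball' (by rw [dist_eq_norm]; nlinarith)
  have hs2 : ball b (ε * R) ⊆ ball b R := ball_subset_ball hε1
  have k1 := koebe_omit hεR (hh.mono hs1) (w := w) (by
    rintro ⟨v, hv, hvw⟩
    have h1 := hT v (hw v (hs1 hv) hvw)
    rw [mem_ball, dist_comm, dist_eq_norm] at hv
    linarith)
  have k2 := koebe_omit hεR (hh.mono hs2) (w := w) (by
    rintro ⟨v, hv, hvw⟩
    have h1 := hb v (hw v (hs2 hv) hvw)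
    rw [mem_ball, dist_comm, dist_eq_norm] at hv
    linarith)
  obtain ⟨g1, g2⟩ := t1046_growth hε hR hh hz
  rw [norm_sub_rev] at k1
  have hd : 0 < ‖deriv h z‖ := norm_pos_iff.mpr (hh.ne z (hs1 (mem_ball_self hεR)))
  refine ⟨?_, ?_, ?_⟩
  · nlinarith [mul_le_mul_of_nonneg_right g1 hε.le]
  · nlinarith [mul_le_mul_of_nonneg_right g2 hε.le]
  · nlinarith [mul_pos hd hεR]

/-- Bounded overlap. -/
theorem overlap {θ ε : ℝ} (hε : 0 < ε) (hθ : θ + ε ≤ 1) : ∃ m : ℕ, ∀ (b : ℂ) (R : ℝ) (T : Set ℂ)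
    (J : Finset ℕ) (g : ℕ → ℂ → ℂ) (y : ℂ), 0 < R → (∀ j ∈ J, Univ (g j) (ball b R)) →
    (∀ j ∈ J, ∀ j' ∈ J, j ≠ j' → ∀ z ∈ ball b R, g j z = g j' b → z ∈ T) →
    (∀ t ∈ T, ε * R ≤ ‖b - t‖) →
    (∀ j ∈ J, ∃ z, ‖z - b‖ ≤ θ * R ∧ (∀ t ∈ T, ε * R ≤ ‖z - t‖) ∧ g j z = y) → J.card ≤ m := by
  classical
  obtain ⟨m, hm⟩ := pack (κ := ε ^ 5 / 32) (by positivity)
  refine ⟨max m 1, fun b R T J g y hR hU hT hb hz => ?_⟩
  by_cases h1 : J.card ≤ 1
  · exact h1.trans (le_max_right _ _)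
  refine le_trans ?_ (le_max_left _ _)
  have hJ : J.Nonempty := Finset.card_pos.1 (by omega)
  have key : ∀ j ∈ J, ∀ j' ∈ J, j ≠ j' → ‖g j b - y‖ * ε ^ 2 ≤ 8 * ‖g j' b - y‖ ∧
      ‖g j b - y‖ * ε ^ 3 ≤ 4 * ‖g j b - g j' b‖ ∧ 0 < ‖g j' b - y‖ := by
    intro j hj j' hj' hne
    obtain ⟨z, hz1, hz2, hz3⟩ := hz j hj
    rw [← hz3]
    exact t1046_pair hε hR (hU j hj) (hz1.trans (by gcongr; linarith)) (hT j hj j' hj' hne) hb hz2
  have hε1 : ε ≤ 1 := by
    obtain ⟨j, hj⟩ := hJ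
    obtain ⟨z, hz1, -, -⟩ := hz j hj
    have h2 : 0 ≤ θ * R := (norm_nonneg _).trans hz1
    have h3 : 0 ≤ θ := nonneg_of_mul_nonneg_left h2 hR
    linarith
  obtain ⟨j₀, hj₀, hmax⟩ := J.exists_max_image (fun j => ‖g j b - y‖) hJ
  obtain ⟨j₁, hj₁, hne₁⟩ := Finset.exists_mem_ne (s := J) (by omega) j₀
  have hD : 0 < ‖g j₀ b - y‖ := (key j₁ hj₁ j₀ hj₀ hne₁).2.2
  have hlow : ∀ j ∈ J, ‖g j₀ b - y‖ * ε ^ 2 ≤ 8 * ‖g j b - y‖ := by
    intro j hj
    by_cases h2 : j₀ = j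
    · subst h2
      have h3 : ε ^ 2 ≤ 1 := pow_le_one₀ hε.le hε1
      nlinarith
    · exact (key j₀ hj₀ j hj h2).1
  have hsep : ∀ j ∈ J, ∀ j' ∈ J, j ≠ j' → ε ^ 5 / 32 * ‖g j₀ b - y‖ ≤ ‖g j b - g j' b‖ := by
    intro j hj j' hj' hne
    have h2 := (key j hj j' hj' hne).2.1
    have h3 := mul_le_mul_of_nonneg_right (hlow j hj) (pow_pos hε 3).le
    nlinarith
  have hinj : Set.InjOn (fun j => g j b) J := by
    intro j hj j' hj' h
    by_contra hne
    have h2 := hsep j hj j' hj' hne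
    have h3 : g j b = g j' b := h
    rw [h3, sub_self, norm_zero] at h2
    have h4 : 0 < ε ^ 5 / 32 * ‖g j₀ b - y‖ := by positivity
    linarith
  rw [← Finset.card_image_of_injOn hinj]
  refine hm _ y _ hD ?_ ?_
  · intro p hp
    obtain ⟨j, hj, rfl⟩ := Finset.mem_image.1 hp
    exact hmax j hj
  · intro p hp p' hp' hne
    obtain ⟨j, hj, rfl⟩ := Finset.mem_image.1 hp
    obtain ⟨j', hj', rfl⟩ := Finset.mem_image.1 hp'
    exact hsep j hj j' hj' fun h => hne (by rw [h])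

end Pool.Agent.MP_28f8a1_an.H42

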