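import Pool.Agent.MP_28f8a1_an.H42.Defs

/-! Schottky's theorem. -/

set_option autoImplicit false

namespace Pool.Agent.MP_28f8a1_an.H42

open MeasureTheory Metric Set Real Filter Topology Polynomial
open scoped ENNReal

/-- Landau's covering lemma at a point where the derivative is almost maximal. -/
theorem t33_cover {g : ℂ → ℂ} {p : ℂ} {d : ℝ} (hd : 0 < d) (hg : DifferentiableOn ℂ g (ball p d))
    (hb : ∀ z ∈ ball p d, ‖deriv g z‖ ≤ 2 * ‖deriv g p‖) :
    ball (g p) (d * ‖deriv g p‖ / 24) ⊆ g '' ball p d := by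
  set A := ‖deriv g p‖ with hA
  rcases (norm_nonneg (deriv g p)).eq_or_lt with h0 | h0
  · rw [hA, ← h0]
    simp
  have hsub : closedBall p (d / 6) ⊆ ball p d := closedBall_subset_ball (by linarith)
  have h1 : ∀ z ∈ closedBall p (d / 6), ‖deriv g z - deriv g p‖ ≤ A / 2 := fun z hz => by
    have := Complex.dist_le_div_mul_dist_of_mapsTo_ball (R₂ := 3 * A) (hg.deriv isOpen_ball)
      (fun w hw => by
        rw [mem_closedBall, dist_eq_norm]
        have := norm_sub_le (deriv g w) (deriv g p)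
        have := hb w hw
        linarith) (hsub hz)
    rw [dist_eq_norm] at this
    refine this.trans ?_
    calc 3 * A / d * dist z p ≤ 3 * A / d * (d / 6) := by
          gcongr
          exact mem_closedBall.1 hz
      _ = A / 2 := by field_simp; ring
  have h2 : ∀ z ∈ closedBall p (d / 6), A / 2 * ‖z - p‖ ≤ ‖g z - g p‖ := fun z hz => by
    have h3 := (convex_closedBall p (d / 6)).norm_image_sub_le_of_norm_hasDerivWithin_le
      (f := fun w => g w - deriv g p * w) (f' := fun w => deriv g w - deriv g p)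
      (fun w hw => by
        have := ((hg.differentiableAt (isOpen_ball.mem_nhds (hsub hw))).hasDerivAt.sub
          ((hasDerivAt_id w).const_mul (deriv g p))).hasDerivWithinAt (s := closedBall p (d / 6))
        rw [mul_one] at this
        exact this) h1 (mem_closedBall_self (by linarith)) hz
    have h4 : deriv g p * (z - p) =
        (g z - g p) - (g z - deriv g p * z - (g p - deriv g p * p)) := by ring
    have h5 := norm_sub_le (g z - g p) (g z - deriv g p * z - (g p - deriv g p * p))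
    rw [← h4, norm_mul, ← hA] at h5
    linarith
  have h6 : DiffContOnCl ℂ g (ball p (d / 6)) := by
    refine DifferentiableOn.diffContOnCl (hg.mono ?_)
    rw [closure_ball _ (by linarith : d / 6 ≠ 0)]
    exact hsub
  have h7 := h6.ball_subset_image_closedBall (ε := d * A / 12) (by linarith)
    (fun z hz => by
      have := h2 z (sphere_subset_closedBall hz)
      rw [mem_sphere_iff_norm.1 hz] at this
      linarith)
    (by
      have h8 : ∀ᶠ z in 𝓝[≠] p, g z ≠ g p := by
        filter_upwards [self_mem_nhdsWithin, mem_nhdsWithin_of_mem_nhds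
          (closedBall_mem_nhds p (by linarith : 0 < d / 6))] with z hz hz' h
        have h9 := h2 z hz'
        rw [h, sub_self, norm_zero] at h9
        have : 0 < ‖z - p‖ := norm_pos_iff.2 (sub_ne_zero.2 hz)
        nlinarith
      exact h8.frequently.filter_mono nhdsWithin_le_nhds)
  rw [show d * A / 24 = d * A / 12 / 2 by ring]
  exact h7.trans (image_mono hsub)

/-- Bloch-Landau: a function whose image contains no disc of radius `4` varies boundedly. -/
theorem t33_bloch {g : ℂ → ℂ} {x : ℂ} {R : ℝ} (hR : 0 < R) (hg : DifferentiableOn ℂ g (ball x R))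
    (h : ∀ w, ∃ v ∈ ball w 4, ∀ z ∈ ball x R, g z ≠ v) :
    ∀ z ∈ ball x (R / 2), ‖g z - g x‖ ≤ 384 := by
  have hsub : closedBall x (3 * R / 4) ⊆ ball x R := closedBall_subset_ball (by linarith)
  obtain ⟨p, hp, hmax⟩ := (isCompact_closedBall x (3 * R / 4)).exists_isMaxOn
    ⟨x, mem_closedBall_self (by linarith)⟩
    (f := fun z => (3 * R / 4 - dist z x) * ‖deriv g z‖)
    ((continuousOn_const.sub (by fun_prop)).mul
      ((hg.deriv isOpen_ball).continuousOn.mono hsub).norm)
  have hm : (3 * R / 4 - dist p x) * ‖deriv g p‖ ≤ 192 := by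
    rcases (mem_closedBall.1 hp).eq_or_lt with h0 | h0
    · rw [h0, sub_self, zero_mul]
      norm_num
    set d := 3 * R / 4 - dist p x with hd
    have hd0 : 0 < d := by linarith
    have hs : ∀ z ∈ ball p (d / 2), d / 2 ≤ 3 * R / 4 - dist z x := fun z hz => by
      have := dist_triangle z p x
      have := mem_ball.1 hz
      linarith
    have hs' : ball p (d / 2) ⊆ closedBall x (3 * R / 4) := fun z hz => by
      have := hs z hz
      rw [mem_closedBall]
      linarith
    have h1 := t33_cover (by linarith : 0 < d / 2) (hg.mono (hs'.trans hsub)) fun z hz => by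
      have h2 : (3 * R / 4 - dist z x) * ‖deriv g z‖ ≤ d * ‖deriv g p‖ := hmax (hs' hz)
      have h3 := mul_le_mul_of_nonneg_right (hs z hz) (norm_nonneg (deriv g z))
      nlinarith
    by_contra h4
    obtain ⟨v, hv, hv'⟩ := h (g p)
    obtain ⟨z, hz, rfl⟩ := h1 (ball_subset_ball (by linarith) hv)
    exact hv' z (hsub (hs' hz)) rfl
  have hs : ball x (R / 2) ⊆ closedBall x (3 * R / 4) :=
    ball_subset_closedBall.trans (closedBall_subset_closedBall (by linarith))
  intro z hz
  have h1 := (convex_ball x (R / 2)).norm_image_sub_le_of_norm_deriv_le (f := g) (C := 768 / R)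
    (fun w hw => hg.differentiableAt (isOpen_ball.mem_nhds (hsub (hs hw))))
    (fun w hw => by
      have h2 : (3 * R / 4 - dist w x) * ‖deriv g w‖ ≤ _ := hmax (hs hw)
      have h3 := mem_ball.1 hw
      rw [le_div_iff₀ hR]
      nlinarith [norm_nonneg (deriv g w)]) (mem_ball_self (by linarith)) hz
  refine h1.trans ?_
  calc 768 / R * ‖z - x‖ ≤ 768 / R * (R / 2) := by
        gcongr
        exact (mem_ball_iff_norm.1 hz).le
    _ = 384 := by field_simp; norm_num

/-- A function omitting `1` and `-1` is a hyperbolic cosine. -/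
theorem t33_cosh {F : ℂ → ℂ} {x : ℂ} {R : ℝ} (hR : 0 < R) (hF : DifferentiableOn ℂ F (ball x R))
    (h : ∀ z ∈ ball x R, F z ≠ 1 ∧ F z ≠ -1) : ∃ K : ℂ → ℂ, DifferentiableOn ℂ K (ball x R) ∧
      (∀ z ∈ ball x R, Complex.cosh (K z) = F z) ∧ ‖K x‖ ≤ 4 + 2 * ‖F x‖ := by
  obtain ⟨L, hL, hL'⟩ := exists_log (F := fun z => F z ^ 2 - 1) (by fun_prop) fun z hz h0 => by
    have : (F z - 1) * (F z + 1) = 0 := by rw [← h0]; ring
    rcases mul_eq_zero.1 this with h1 | h1
    · exact (h z hz).1 (sub_eq_zero.1 h1)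
    · exact (h z hz).2 (add_eq_zero_iff_eq_neg.1 h1)
  have hs : ∀ z ∈ ball x R, Complex.exp (L z / 2) ^ 2 = F z ^ 2 - 1 := fun z hz => by
    rw [← Complex.exp_nat_mul, ← hL' z hz]
    congr 1
    push_cast
    ring
  have hp : ∀ z ∈ ball x R,
      (F z + Complex.exp (L z / 2)) * (F z - Complex.exp (L z / 2)) = 1 := fun z hz => by
    have := hs z hz
    linear_combination -this
  obtain ⟨K, hK, hK'⟩ := exists_log (F := fun z => F z + Complex.exp (L z / 2)) (by fun_prop)
    fun z hz => left_ne_zero_of_mul_eq_one (hp z hz)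
  have hx := mem_ball_self (x := x) hR
  set u := F x + Complex.exp (L x / 2) with hu
  have hu0 : u ≠ 0 := left_ne_zero_of_mul_eq_one (hp x hx)
  refine ⟨fun z => K z - K x + Complex.log u, by fun_prop, fun z hz => ?_, ?_⟩
  · have h1 : Complex.exp (K z - K x + Complex.log u) = F z + Complex.exp (L z / 2) := by
      rw [Complex.exp_add, Complex.exp_sub, hK' z hz, hK' x hx, Complex.exp_log hu0, ← hu,
        div_mul_cancel₀ _ hu0]
    rw [Complex.cosh, Complex.exp_neg, h1, inv_eq_of_mul_eq_one_right (hp z hz)]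
    ring
  · simp only [sub_self, zero_add]
    have h1 : ‖Complex.exp (L x / 2)‖ ≤ 1 + ‖F x‖ := by
      refine abs_le_of_sq_le_sq' ?_ (by positivity) |>.2
      rw [← norm_pow, hs x hx]
      have := norm_sub_le (F x ^ 2) 1
      rw [norm_pow, norm_one] at this
      nlinarith [norm_nonneg (F x)]
    have h2 : ‖u‖ ≤ 1 + 2 * ‖F x‖ := (norm_add_le _ _).trans (by linarith)
    have h3 : ‖u‖⁻¹ ≤ 1 + 2 * ‖F x‖ := by
      rw [← norm_inv, inv_eq_of_mul_eq_one_right (hp x hx)]
      exact (norm_sub_le _ _).trans (by linarith)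
    have h4 : 0 < ‖u‖ := norm_pos_iff.2 hu0
    have h5 := Real.log_le_sub_one_of_pos h4
    have h6 := Real.log_le_sub_one_of_pos (inv_pos.2 h4)
    rw [Real.log_inv] at h6
    have h7 := Complex.norm_le_abs_re_add_abs_im (Complex.log u)
    rw [Complex.log_re, Complex.log_im] at h7
    have h8 : |Real.log ‖u‖| ≤ 2 * ‖F x‖ := abs_le.2 ⟨by linarith, by linarith⟩
    have := Complex.abs_arg_le_pi u
    have := Real.pi_le_four
    linarith

/-- Every disc of radius `4` contains a point whose hyperbolic cosine is an integer. -/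
theorem t33_int (w : ℂ) : ∃ v ∈ ball w 4, ∃ n : ℤ, Complex.cosh v = n := by
  obtain ⟨t, ht, n, hn⟩ : ∃ t : ℝ, |t - w.re| ≤ 2 ∧ ∃ n : ℤ, Real.cosh t = n := by
    have h1 : Real.cosh |w.re| + 1 ≤ Real.cosh (|w.re| + 2) := by
      have h2 : (2 : ℝ) ≤ Real.cosh 2 := by
        rw [Real.cosh_eq]
        have := Real.quadratic_le_exp_of_nonneg (x := 2) (by norm_num)
        have := Real.exp_pos (-2)
        linarith
      have h3 := Real.one_le_cosh |w.re|
      have h4 : 0 ≤ Real.sinh |w.re| * Real.sinh 2 :=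
        mul_nonneg (Real.sinh_nonneg_iff.2 (abs_nonneg _)) (Real.sinh_nonneg_iff.2 (by norm_num))
      rw [Real.cosh_add]
      nlinarith
    obtain ⟨t, ht, h5⟩ := intermediate_value_Icc (by linarith : |w.re| ≤ |w.re| + 2)
      Real.continuous_cosh.continuousOn
      (⟨Int.le_ceil _, (Int.ceil_lt_add_one _).le.trans h1⟩ :
        ((⌈Real.cosh |w.re|⌉ : ℤ) : ℝ) ∈ Icc _ _)
    rcases le_total 0 w.re with h6 | h6
    · rw [abs_of_nonneg h6] at ht
      exact ⟨t, abs_le.2 ⟨by linarith [ht.1], by linarith [ht.2]⟩, _, h5⟩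
    · rw [abs_of_nonpos h6] at ht
      exact ⟨-t, abs_le.2 ⟨by linarith [ht.2], by linarith [ht.1]⟩, _,
        (Real.cosh_neg t).trans h5⟩
  have hπ := Real.pi_pos
  set m := round (w.im / π) with hm
  refine ⟨t + (m * π : ℝ) * Complex.I, ?_, n * Int.negOnePow m, ?_⟩
  · rw [mem_ball_iff_norm]
    refine (Complex.norm_le_abs_re_add_abs_im _).trans_lt ?_
    have h1 := abs_sub_round (w.im / π)
    rw [← hm] at h1
    have h2 : |m * π - w.im| ≤ π / 2 := by
      rw [show m * π - w.im = -((w.im / π - m) * π) by field_simp; ring, abs_neg, abs_mul,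
        abs_of_pos hπ]
      nlinarith
    have := Real.pi_lt_four
    simp only [Complex.sub_re, Complex.add_re, Complex.ofReal_re, Complex.mul_re, Complex.I_re,
      mul_zero, Complex.ofReal_im, Complex.I_im, sub_zero, add_zero, Complex.sub_im,
      Complex.add_im, Complex.mul_im, mul_one, zero_add]
    linarith
  · rw [Complex.cosh_add, Complex.cosh_mul_I, Complex.sinh_mul_I, ← Complex.ofReal_cos,
      ← Complex.ofReal_sin, Real.sin_int_mul_pi, Real.cos_int_mul_pi, ← Complex.ofReal_cosh, hn]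
    rw [Int.cast_mul, Int.cast_negOnePow]
    simp

theorem t33_norm_cosh (w : ℂ) : ‖Complex.cosh w‖ ≤ Real.exp ‖w‖ := by
  have h1 := Complex.norm_exp_le_exp_norm w
  have h2 := Complex.norm_exp_le_exp_norm (-w)
  rw [norm_neg] at h2
  have h3 := norm_add_le (Complex.exp w) (Complex.exp (-w))
  rw [Complex.cosh, norm_div, Complex.norm_two]
  linarith

/-- Schottky's theorem, upper bound. -/
theorem t33_upper (A : ℝ) : ∃ B : ℝ, ∀ (f : ℂ → ℂ) (x : ℂ) (R : ℝ), 0 < R →
    DifferentiableOn ℂ f (ball x R) → (∀ z ∈ ball x R, f z ≠ 0 ∧ f z ≠ 1) →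
    ‖f x‖ ≤ A → ∀ z ∈ ball x (R / 2), ‖f z‖ ≤ B := by
  refine ⟨Real.exp (4 * Real.exp (400 + 8 * A)) + 1, fun f x R hR hf h hA z hz => ?_⟩
  have hπ : (π * Complex.I : ℂ) ≠ 0 :=
    mul_ne_zero (Complex.ofReal_ne_zero.2 Real.pi_pos.ne') Complex.I_ne_zero
  have hn : ‖(π * Complex.I : ℂ)‖ = π := by simp [abs_of_pos Real.pi_pos]
  obtain ⟨K, hK, hK1, hK2⟩ := t33_cosh (F := fun z => 2 * f z - 1) hR (by fun_prop) fun z hz =>
    ⟨fun h1 => (h z hz).2 (by linear_combination h1 / 2),
      fun h1 => (h z hz).1 (by linear_combination h1 / 2)⟩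
  have hint : ∀ z ∈ ball x R, ∀ n : ℤ, K z / (π * Complex.I) ≠ n := fun z hz n h1 => by
    have h2 := hK1 z hz
    rw [(div_eq_iff hπ).1 h1, ← mul_assoc, Complex.cosh_mul_I] at h2
    have h3 := Complex.sin_sq_add_cos_sq (n * π)
    rw [Complex.sin_int_mul_pi, h2] at h3
    have h4 : f z * (f z - 1) = 0 := by linear_combination h3 / 4
    rcases mul_eq_zero.1 h4 with h5 | h5
    · exact (h z hz).1 h5
    · exact (h z hz).2 (sub_eq_zero.1 h5)
  obtain ⟨G, hG, hG1, hG2⟩ := t33_cosh (F := fun z => K z / (π * Complex.I)) hR (by fun_prop)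
    fun z hz => ⟨by simpa using hint z hz 1, by simpa using hint z hz (-1)⟩
  have h1 := t33_bloch hR hG (fun w => by
    obtain ⟨v, hv, n, hn⟩ := t33_int w
    exact ⟨v, hv, fun z hz h1 => hint z hz n (by rw [← hn, ← h1, hG1 z hz])⟩) z hz
  have hz' : z ∈ ball x R := ball_subset_ball (by linarith) hz
  have h2 : ‖2 * f x - 1‖ ≤ 2 * A + 1 := by
    have := norm_sub_le (2 * f x) 1
    rw [norm_mul, Complex.norm_two, norm_one] at this
    linarith
  have h3 : ‖K x / (π * Complex.I)‖ ≤ ‖K x‖ := by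
    rw [norm_div, hn]
    exact div_le_self (norm_nonneg _) (by linarith [Real.pi_gt_three])
  have h4 : ‖G z‖ ≤ 400 + 8 * A := by
    have := norm_add_le (G z - G x) (G x)
    rw [sub_add_cancel] at this
    linarith
  have h5 : ‖K z‖ ≤ 4 * Real.exp (400 + 8 * A) := by
    have h6 := (t33_norm_cosh (G z)).trans (Real.exp_le_exp.2 h4)
    rw [hG1 z hz', norm_div, hn, div_le_iff₀ Real.pi_pos] at h6
    have := Real.pi_le_four
    nlinarith [Real.exp_pos (400 + 8 * A)]
  have h7 := (t33_norm_cosh (K z)).trans (Real.exp_le_exp.2 h5)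
  rw [hK1 z hz'] at h7
  have h8 := norm_add_le (2 * f z - 1) 1
  rw [sub_add_cancel, norm_mul, Complex.norm_two, norm_one] at h8
  linarith [norm_nonneg (f z)]

/-- Schottky's theorem, two-sided form. -/
theorem schottky (M : ℝ) : ∃ M' : ℝ, ∀ (f : ℂ → ℂ) (x : ℂ) (R : ℝ), 0 < R →
    DifferentiableOn ℂ f (ball x R) → (∀ z ∈ ball x R, f z ≠ 0 ∧ f z ≠ 1) →
    |Real.log ‖f x‖| ≤ M → ∀ z ∈ ball x (R / 2), |Real.log ‖f z‖| ≤ M' := by
  obtain ⟨B, hB⟩ := t33_upper (Real.exp M)
  refine ⟨B, fun f x R hR hf h hM z hz => ?_⟩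
  have hz' : z ∈ ball x R := ball_subset_ball (by linarith) hz
  have hx : 0 < ‖f x‖ := norm_pos_iff.2 (h x (mem_ball_self hR)).1
  have h0 : 0 < ‖f z‖ := norm_pos_iff.2 (h z hz').1
  have h1 := hB f x R hR hf h ((Real.log_le_iff_le_exp hx).1 (abs_le.1 hM).2) z hz
  have h2 := hB (fun z => (f z)⁻¹) x R hR (hf.inv fun z hz => (h z hz).1)
    (fun z hz => ⟨inv_ne_zero (h z hz).1, fun h' => (h z hz).2 (inv_eq_one.1 h')⟩)
    (by
      rw [norm_inv, ← Real.log_le_iff_le_exp (inv_pos.2 hx), Real.log_inv]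
      linarith [(abs_le.1 hM).1]) z hz
  rw [norm_inv] at h2
  have h3 := Real.log_le_sub_one_of_pos h0
  have h4 := Real.log_le_sub_one_of_pos (inv_pos.2 h0)
  rw [Real.log_inv] at h4
  exact abs_le.2 ⟨by linarith, by linarith⟩

end Pool.Agent.MP_28f8a1_an.H42
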